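import Mathlib

set_option autoImplicit false

open Set Filter Topology

namespace Pool.Agent.H507_U


/-- Kuratowski–Ulam, easy direction: almost all vertical sections of a meagre set are meagre. -/
theorem ku_meagre {X Y : Type} [TopologicalSpace X] [TopologicalSpace Y]
    [SecondCountableTopology Y] {M : Set (X × Y)} (hM : IsMeagre M) :
    ∀ᶠ x in residual X, IsMeagre {y : Y | (x, y) ∈ M} := by
  have hM' := hM
  rw [isMeagre_iff_countable_union_isNowhereDense] at hM'
  obtain ⟨S, hS, hc, hsub⟩ := hM'
  have key : ∀ t ∈ S, ∀ᶠ x in residual X, IsMeagre {y : Y | (x, y) ∈ t} := by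
    intro t ht
    have hnd := hS t ht
    -- complement of the closure is open dense
    set O : Set (X × Y) := (closure t)ᶜ with hO
    have hOo : IsOpen O := isClosed_closure.isOpen_compl
    have hOd : Dense O := by
      rw [← interior_eq_empty_iff_dense_compl]
      exact hnd
    have h1 : ∀ V ∈ TopologicalSpace.countableBasis Y,
        ∀ᶠ x in residual X, V.Nonempty → ∃ y ∈ V, (x, y) ∈ O := by
      intro V hV
      by_cases hne : V.Nonempty
      · have hVo : IsOpen V := TopologicalSpace.isOpen_of_mem_countableBasis hV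
        set W : Set X := Prod.fst '' (O ∩ (univ ×ˢ V)) with hW
        have hWo : IsOpen W := isOpenMap_fst _ (hOo.inter (isOpen_univ.prod hVo))
        have hWd : Dense W := by
          intro x
          rw [mem_closure_iff]
          intro U hU hxU
          obtain ⟨y, hy⟩ := hne
          obtain ⟨p, hp1, hp2⟩ := hOd.inter_open_nonempty (U ×ˢ V) (hU.prod hVo) ⟨(x, y), hxU, hy⟩
          exact ⟨p.1, hp1.1, ⟨p, ⟨hp2, mem_univ _, hp1.2⟩, rfl⟩⟩
        filter_upwards [residual_of_dense_open hWo hWd] with x hx _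
        obtain ⟨p, ⟨hp1, _, hp2⟩, rfl⟩ := hx
        exact ⟨p.2, hp2, hp1⟩
      · exact Eventually.of_forall fun x h => absurd h hne
    have h2 : ∀ᶠ x in residual X, ∀ V ∈ TopologicalSpace.countableBasis Y,
        V.Nonempty → ∃ y ∈ V, (x, y) ∈ O := by
      rw [eventually_countable_ball (TopologicalSpace.countable_countableBasis Y)]
      exact h1
    filter_upwards [h2] with x hx
    refine IsNowhereDense.isMeagre ?_
    have hsec : {y : Y | (x, y) ∈ t} ⊆ {y : Y | (x, y) ∈ closure t} := fun y hy => subset_closure hy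
    have hcl : IsClosed {y : Y | (x, y) ∈ closure t} :=
      isClosed_closure.preimage (by fun_prop : Continuous fun y : Y => (x, y))
    have hd : Dense {y : Y | (x, y) ∈ O} := by
      rw [(TopologicalSpace.isBasis_countableBasis Y).dense_iff]
      intro V hV hne
      obtain ⟨y, hy1, hy2⟩ := hx V hV hne
      exact ⟨y, hy1, hy2⟩
    have h3 : interior {y : Y | (x, y) ∈ closure t} = ∅ := by
      rw [interior_eq_empty_iff_dense_compl]
      exact hd
    have h4 : closure {y : Y | (x, y) ∈ t} ⊆ {y : Y | (x, y) ∈ closure t} :=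
      closure_minimal hsec hcl
    exact subset_eq_empty (interior_mono h4) h3
  have h5 : ∀ᶠ x in residual X, ∀ t ∈ S, IsMeagre {y : Y | (x, y) ∈ t} := by
    rw [eventually_countable_ball hc]
    exact key
  filter_upwards [h5] with x hx
  have : {y : Y | (x, y) ∈ M} ⊆ ⋃ t ∈ S, {y : Y | (x, y) ∈ t} := by
    intro y hy
    obtain ⟨t, ht, hty⟩ := hsub hy
    simp only [mem_iUnion]
    exact ⟨t, ht, hty⟩
  exact (isMeagre_biUnion hc hx).mono this

/-- Kuratowski–Ulam: a Borel set all of whose vertical sections are meagre has almost all horizontal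
sections meagre. -/
theorem ku_borel {X Y : Type} [TopologicalSpace X] [TopologicalSpace Y]
    [SecondCountableTopology X] [SecondCountableTopology Y] [BaireSpace X] [BaireSpace Y]
    {B : Set (X × Y)} (hB : BaireMeasurableSet B) (hs : ∀ x, IsMeagre {y : Y | (x, y) ∈ B}) :
    ∀ᶠ y in residual Y, IsMeagre {x : X | (x, y) ∈ B} := by
  obtain ⟨U, hU, hBU⟩ := hB.residualEq_isOpen
  -- the symmetric difference is meagre
  set M : Set (X × Y) := {p | ¬ (p ∈ B ↔ p ∈ U)} with hM
  have hMm : IsMeagre M := by
    rw [IsMeagre]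
    filter_upwards [hBU] with p hp
    have : (p ∈ B) = (p ∈ U) := hp
    simp [hM, this]
  have hUe : U = ∅ := by
    by_contra hne
    obtain ⟨⟨x, y⟩, hxy⟩ := nonempty_iff_ne_empty.2 hne
    obtain ⟨V, W, hV, hW, hxV, hyW, hVW⟩ := isOpen_prod_iff.1 hU x y hxy
    have h1 := ku_meagre hMm
    have h2 : ¬ IsMeagre V := not_isMeagre_of_isOpen hV ⟨x, hxV⟩
    have h3 : ∃ x' ∈ V, IsMeagre {y : Y | (x', y) ∈ M} := by
      by_contra hcon
      push Not at hcon
      refine h2 ?_
      rw [IsMeagre]
      filter_upwards [h1] with z hz hzV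
      exact hcon z hzV hz
    obtain ⟨x', hx', hm⟩ := h3
    have h4 : W ⊆ {y : Y | (x', y) ∈ M} ∪ {y : Y | (x', y) ∈ B} := by
      intro w hw
      by_cases hb : (x', w) ∈ B
      · exact Or.inr hb
      · left
        have : (x', w) ∈ U := hVW ⟨hx', hw⟩
        simp [hM, hb, this]
    exact not_isMeagre_of_isOpen hW ⟨y, hyW⟩ ((hm.union (hs x')).mono h4)
  have hBm : IsMeagre B := by
    refine hMm.mono ?_
    intro p hp
    simp [hM, hUe, hp]
  -- swap
  have hBs : IsMeagre (Prod.swap ⁻¹' B : Set (Y × X)) :=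
    hBm.preimage_of_isOpenMap continuous_swap (Homeomorph.prodComm Y X).isOpenMap
  exact ku_meagre hBs


/-! ### TARGETS -/

theorem ku_fwd {X Y : Type} [TopologicalSpace X] [TopologicalSpace Y] [SecondCountableTopology Y]
    {B : Set (X × Y)} (h : IsMeagre B) : IsMeagre {x | ¬ IsMeagre {y | (x, y) ∈ B}} := by
  rw [IsMeagre]
  filter_upwards [ku_meagre h] with x hx hx'
  exact hx' hx

/-- complements in an open set -/
theorem mm_compl {Y : Type} [TopologicalSpace Y] [SecondCountableTopology Y] [BaireSpace Y]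
    {S U : Set Y} (hS : BaireMeasurableSet S) (hU : IsOpen U) :
    IsMeagre (Sᶜ ∩ U) ↔ ∀ V ∈ TopologicalSpace.countableBasis Y, V ⊆ U → ¬ IsMeagre (S ∩ V) := by
  constructor
  · intro h V hV hVU hm
    have hVo : IsOpen V := TopologicalSpace.isOpen_of_mem_countableBasis hV
    have hVn : V.Nonempty := TopologicalSpace.nonempty_of_mem_countableBasis hV
    refine not_isMeagre_of_isOpen hVo hVn ((hm.union h).mono ?_)
    intro y hy
    by_cases hyS : y ∈ S
    · exact Or.inl ⟨hyS, hy⟩
    · exact Or.inr ⟨hyS, hVU hy⟩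
  · intro h
    obtain ⟨O, hO, hSO⟩ := hS.compl.residualEq_isOpen
    set M : Set Y := {p | ¬ (p ∈ Sᶜ ↔ p ∈ O)} with hM
    have hMm : IsMeagre M := by
      rw [IsMeagre]
      filter_upwards [hSO] with p hp
      have : (p ∈ Sᶜ) = (p ∈ O) := hp
      simp only [hM, mem_compl_iff, mem_ofPred_eq, not_not]
      exact Iff.of_eq this
    by_cases hne : (O ∩ U).Nonempty
    · exfalso
      obtain ⟨y, hy⟩ := hne
      obtain ⟨V, hV, hyV, hVO⟩ := (TopologicalSpace.isBasis_countableBasis Y).exists_subset_of_mem_open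
        hy (hO.inter hU)
      refine h V hV (hVO.trans inter_subset_right) (hMm.mono ?_)
      rintro z ⟨hzS, hzV⟩
      simp only [hM, mem_ofPred_eq]
      intro hiff
      exact hiff.2 (hVO hzV).1 hzS
    · refine hMm.mono ?_
      rintro z ⟨hzS, hzU⟩
      simp only [hM, mem_ofPred_eq]
      intro hiff
      exact hne ⟨z, hiff.1 hzS, hzU⟩

theorem meas_meagre {P Y : Type} [MeasurableSpace P] [TopologicalSpace Y]
    [SecondCountableTopology Y] [BaireSpace Y] [MeasurableSpace Y] [BorelSpace Y]
    {B : Set (P × Y)} (hB : MeasurableSet B) : MeasurableSet {p | IsMeagre {y | (p, y) ∈ B}} := by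
  have key : ∀ U : Set Y, IsOpen U → MeasurableSet {p | IsMeagre ({y | (p, y) ∈ B} ∩ U)} := by
    have hB' : @MeasurableSet _ (MeasurableSpace.generateFrom
        (image2 (· ×ˢ ·) {s : Set P | MeasurableSet s} {t : Set Y | MeasurableSet t})) B := by
      rw [generateFrom_prod]
      exact hB
    refine MeasurableSpace.generateFrom_induction
      (image2 (· ×ˢ ·) {s : Set P | MeasurableSet s} {t : Set Y | MeasurableSet t})
      (fun B _ => ∀ U : Set Y, IsOpen U → MeasurableSet {p | IsMeagre ({y | (p, y) ∈ B} ∩ U)})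
      ?_ ?_ ?_ ?_ B hB'
    · rintro _ ⟨s, hs, t, ht, rfl⟩ _ U hU
      by_cases hm : IsMeagre (t ∩ U)
      · have : {p : P | IsMeagre ({y | (p, y) ∈ s ×ˢ t} ∩ U)} = univ := by
          ext p
          simp only [mem_ofPred_eq, mem_univ, iff_true]
          refine hm.mono ?_
          rintro y ⟨hy, hyU⟩
          exact ⟨hy.2, hyU⟩
        rw [this]
        exact MeasurableSet.univ
      · have : {p : P | IsMeagre ({y | (p, y) ∈ s ×ˢ t} ∩ U)} = sᶜ := by
          ext p
          simp only [mem_ofPred_eq, mem_compl_iff]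
          constructor
          · intro h hp
            apply hm
            refine h.mono ?_
            rintro y ⟨hy, hyU⟩
            exact ⟨⟨hp, hy⟩, hyU⟩
          · intro hp
            have : {y | (p, y) ∈ s ×ˢ t} ∩ U = ∅ := by
              rw [eq_empty_iff_forall_notMem]
              rintro y ⟨hy, _⟩
              exact hp hy.1
            rw [this]
            exact IsMeagre.empty
        rw [this]
        exact MeasurableSet.compl hs
    · intro U _
      have : {p : P | IsMeagre ({y | (p, y) ∈ (∅ : Set (P × Y))} ∩ U)} = univ := by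
        ext p
        simp only [mem_ofPred_eq, mem_univ, iff_true, mem_empty_iff_false, ofPred_false, empty_inter]
        exact IsMeagre.empty
      rw [this]
      exact MeasurableSet.univ
    · intro t ht ih U hU
      have htm : MeasurableSet t := by
        rw [generateFrom_prod] at ht
        exact ht
      have : {p : P | IsMeagre ({y | (p, y) ∈ tᶜ} ∩ U)} =
          ⋂ V ∈ TopologicalSpace.countableBasis Y, ⋂ (_ : V ⊆ U),
            {p : P | IsMeagre ({y | (p, y) ∈ t} ∩ V)}ᶜ := by
        ext p
        have hsec : BaireMeasurableSet {y : Y | (p, y) ∈ t} :=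
          (measurable_prodMk_left htm : MeasurableSet {y : Y | (p, y) ∈ t}).baireMeasurableSet
        have := mm_compl hsec hU
        simp only [mem_ofPred_eq, mem_iInter, mem_compl_iff]
        exact this
      rw [this]
      refine MeasurableSet.biInter (TopologicalSpace.countable_countableBasis Y) fun V hV => ?_
      refine MeasurableSet.iInter fun _ => ?_
      exact (ih V (TopologicalSpace.isOpen_of_mem_countableBasis hV)).compl
    · intro f _ ih U hU
      have : {p : P | IsMeagre ({y | (p, y) ∈ ⋃ n, f n} ∩ U)} =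
          ⋂ n, {p : P | IsMeagre ({y | (p, y) ∈ f n} ∩ U)} := by
        ext p
        simp only [mem_ofPred_eq, mem_iInter]
        constructor
        · intro h n
          refine h.mono ?_
          rintro y ⟨hy, hyU⟩
          exact ⟨mem_iUnion.2 ⟨n, hy⟩, hyU⟩
        · intro h
          refine (isMeagre_iUnion h).mono ?_
          rintro y ⟨hy, hyU⟩
          obtain ⟨n, hn⟩ := mem_iUnion.1 hy
          exact mem_iUnion.2 ⟨n, hn, hyU⟩
      rw [this]
      exact MeasurableSet.iInter fun n => ih n U hU
  have := key univ isOpen_univ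
  simpa only [inter_univ] using this

theorem ku_exch {X Y : Type} [TopologicalSpace X] [SecondCountableTopology X] [BaireSpace X]
    [MeasurableSpace X] [BorelSpace X] [TopologicalSpace Y] [SecondCountableTopology Y]
    [BaireSpace Y] [MeasurableSpace Y] [BorelSpace Y] {B : Set (X × Y)} (hB : MeasurableSet B)
    (h : IsMeagre {x | ¬ IsMeagre {y | (x, y) ∈ B}}) :
    IsMeagre {y | ¬ IsMeagre {x | (x, y) ∈ B}} := by
  set A : Set X := {x | ¬ IsMeagre {y | (x, y) ∈ B}} with hA
  have hAm : MeasurableSet A := (meas_meagre hB).compl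
  have hB'm : MeasurableSet (B \ (A ×ˢ (univ : Set Y))) := hB.diff (hAm.prod MeasurableSet.univ)
  have hB' : BaireMeasurableSet (B \ (A ×ˢ (univ : Set Y))) := hB'm.baireMeasurableSet
  have hs : ∀ x, IsMeagre {y : Y | (x, y) ∈ B \ (A ×ˢ (univ : Set Y))} := by
    intro x
    by_cases hx : x ∈ A
    · have : {y : Y | (x, y) ∈ B \ (A ×ˢ (univ : Set Y))} = ∅ := by
        rw [eq_empty_iff_forall_notMem]
        rintro y ⟨_, hy⟩
        exact hy ⟨hx, mem_univ _⟩
      rw [this]
      exact IsMeagre.empty
    · have hx' : IsMeagre {y | (x, y) ∈ B} := by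
        by_contra hcon
        exact hx hcon
      exact hx'.mono fun y hy => hy.1
  rw [IsMeagre]
  filter_upwards [ku_borel hB' hs] with y hy hy'
  refine hy' ((hy.union h).mono ?_)
  intro x hx
  by_cases hxA : x ∈ A
  · exact Or.inr hxA
  · exact Or.inl ⟨hx, fun hcon => hxA hcon.1⟩

theorem ku_prod {X Y : Type} [TopologicalSpace X] [SecondCountableTopology X] [BaireSpace X]
    [MeasurableSpace X] [BorelSpace X] [TopologicalSpace Y] [SecondCountableTopology Y]
    [BaireSpace Y] [MeasurableSpace Y] [BorelSpace Y] {B : Set (X × Y)} (hB : MeasurableSet B)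
    (h : IsMeagre {x | ¬ IsMeagre {y | (x, y) ∈ B}}) : IsMeagre B := by
  obtain ⟨U, hU, hBU⟩ := hB.baireMeasurableSet.residualEq_isOpen
  set M : Set (X × Y) := {p | ¬ (p ∈ B ↔ p ∈ U)} with hM
  have hMm : IsMeagre M := by
    rw [IsMeagre]
    filter_upwards [hBU] with p hp
    have : (p ∈ B) = (p ∈ U) := hp
    simp [hM, this]
  have hUe : U = ∅ := by
    by_contra hne
    obtain ⟨⟨x, y⟩, hxy⟩ := nonempty_iff_ne_empty.2 hne
    obtain ⟨V, W, hV, hW, hxV, hyW, hVW⟩ := isOpen_prod_iff.1 hU x y hxy
    have h1 := ku_meagre hMm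
    have h2 : ¬ IsMeagre V := not_isMeagre_of_isOpen hV ⟨x, hxV⟩
    have h3 : ∃ x' ∈ V, IsMeagre {y : Y | (x', y) ∈ M} ∧ IsMeagre {y : Y | (x', y) ∈ B} := by
      by_contra hcon
      push Not at hcon
      refine h2 ?_
      rw [IsMeagre] at h ⊢
      filter_upwards [h1, h] with z hz hz' hzV
      exact hz' (hcon z hzV hz)
    obtain ⟨x', hx', hm, hm2⟩ := h3
    have h4 : W ⊆ {y : Y | (x', y) ∈ M} ∪ {y : Y | (x', y) ∈ B} := by
      intro w hw
      by_cases hb : (x', w) ∈ B
      · exact Or.inr hb
      · left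
        have : (x', w) ∈ U := hVW ⟨hx', hw⟩
        simp [hM, hb, this]
    exact not_isMeagre_of_isOpen hW ⟨y, hyW⟩ ((hm.union hm2).mono h4)
  refine hMm.mono ?_
  intro p hp
  simp [hM, hUe, hp]

end Pool.Agent.H507_U
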