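import Mathlib

set_option autoImplicit false

namespace Pool.Agent.H507_U

/-- the list of the first `n` values of `y` -/
def pre' {X : Type} (y : ℕ → X) (n : ℕ) : List X := (List.range n).map y

/-- `g` decodes `t` from `z` -/
def Dec (g : List Bool → List Bool) (z t : ℕ → Bool) : Prop :=
  (∀ m, g (pre' z m) = pre' t (g (pre' z m)).length) ∧ ∀ k, ∃ m, k < (g (pre' z m)).length

theorem pre'_succ {X : Type} (y : ℕ → X) (n : ℕ) : pre' y (n+1) = pre' y n ++ [y n] := by
  simp [pre', List.range_succ]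

theorem pre'_length {X : Type} (y : ℕ → X) (n : ℕ) : (pre' y n).length = n := by simp [pre']

theorem pre'_eq_iff {X : Type} (y z : ℕ → X) (n : ℕ) :
    pre' y n = pre' z n ↔ ∀ k, k < n → y k = z k := by
  unfold pre'
  rw [List.map_inj_left]
  simp

open Classical in
/-- the limit candidates -/
noncomputable def cand (b : List ℕ → ℕ → ℕ → Prop) (s : List ℕ) (j k : ℕ) : Bool :=
  decide (∀ᶠ n in (Filter.hyperfilter ℕ : Filter ℕ), b (s ++ [n]) j k)

theorem cand_ev (b : List ℕ → ℕ → ℕ → Prop) (s : List ℕ) (j k : ℕ) :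
    ∀ᶠ n in (Filter.hyperfilter ℕ : Filter ℕ), (cand b s j k = true ↔ b (s ++ [n]) j k) := by
  unfold cand
  by_cases h : ∀ᶠ n in (Filter.hyperfilter ℕ : Filter ℕ), b (s ++ [n]) j k
  · filter_upwards [h] with n hn
    simp [h, hn]
  · have h2 := (Ultrafilter.eventually_not).2 h
    filter_upwards [h2] with n hn
    simp [h, hn]

theorem exists_pick (N : List ℕ → ℕ) (b : List ℕ → ℕ → ℕ → Prop) (s : List ℕ) (m : ℕ) :
    ∃ n, m ≤ n ∧ ∀ j, j < N s → ∀ k, k < m → (cand b s j k = true ↔ b (s ++ [n]) j k) := by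
  have h1 : ∀ᶠ n in (Filter.hyperfilter ℕ : Filter ℕ), ∀ j ∈ Finset.range (N s),
      ∀ k ∈ Finset.range m, (cand b s j k = true ↔ b (s ++ [n]) j k) := by
    rw [Filter.eventually_all_finset]
    intro j _
    rw [Filter.eventually_all_finset]
    intro k _
    exact cand_ev b s j k
  have h2 : ∀ᶠ n in (Filter.hyperfilter ℕ : Filter ℕ), m ≤ n := by
    have h3 : ∀ᶠ n in (Filter.cofinite : Filter ℕ), m ≤ n := by
      rw [Nat.cofinite_eq_atTop]
      exact Filter.eventually_ge_atTop m
    exact Filter.hyperfilter_le_cofinite h3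
  obtain ⟨n, hn1, hn2⟩ := (h1.and h2).exists
  refine ⟨n, hn2, fun j hj k hk => hn1 j (Finset.mem_range.2 hj) k (Finset.mem_range.2 hk)⟩

/-- the chosen extension -/
noncomputable def pick (N : List ℕ → ℕ) (b : List ℕ → ℕ → ℕ → Prop) (s : List ℕ) (m : ℕ) : ℕ :=
  (exists_pick N b s m).choose

theorem pick_ge (N : List ℕ → ℕ) (b : List ℕ → ℕ → ℕ → Prop) (s : List ℕ) (m : ℕ) :
    m ≤ pick N b s m := (exists_pick N b s m).choose_spec.1

theorem pick_spec (N : List ℕ → ℕ) (b : List ℕ → ℕ → ℕ → Prop) (s : List ℕ) (m : ℕ) :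
    ∀ j, j < N s → ∀ k, k < m → (cand b s j k = true ↔ b (s ++ [pick N b s m]) j k) :=
  (exists_pick N b s m).choose_spec.2

theorem exists_bd (N : List ℕ → ℕ) (b : List ℕ → ℕ → ℕ → Prop) (D : Finset (List ℕ)) (v : ℕ) :
    ∃ w, v < w ∧ (∀ s ∈ D, ∀ a ∈ s, a < w) ∧
      ∀ s ∈ D, ∀ j, j < N s → ∀ s' ∈ D, ∀ j', j' < N s' →
        (∀ k, k < w → cand b s j k = cand b s' j' k) → cand b s j = cand b s' j' := by
  have e1 : ∀ᶠ w in (Filter.atTop : Filter ℕ), v < w := Filter.eventually_gt_atTop v
  have e2 : ∀ᶠ w in (Filter.atTop : Filter ℕ), ∀ s ∈ D, ∀ a ∈ s.toFinset, a < w := by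
    rw [Filter.eventually_all_finset]
    intro s _
    rw [Filter.eventually_all_finset]
    intro a _
    exact Filter.eventually_gt_atTop a
  have e3 : ∀ᶠ w in (Filter.atTop : Filter ℕ), ∀ s ∈ D, ∀ j ∈ Finset.range (N s), ∀ s' ∈ D,
      ∀ j' ∈ Finset.range (N s'),
        ((∀ k, k < w → cand b s j k = cand b s' j' k) → cand b s j = cand b s' j') := by
    rw [Filter.eventually_all_finset]
    intro s _
    rw [Filter.eventually_all_finset]
    intro j _
    rw [Filter.eventually_all_finset]
    intro s' _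
    rw [Filter.eventually_all_finset]
    intro j' _
    by_cases h : cand b s j = cand b s' j'
    · exact Filter.Eventually.of_forall fun w _ => h
    · have : ∃ k, cand b s j k ≠ cand b s' j' k := by
        by_contra hc
        push Not at hc
        exact h (funext hc)
      obtain ⟨k, hk⟩ := this
      filter_upwards [Filter.eventually_gt_atTop k] with w hw hw2
      exact absurd (hw2 k hw) hk
  obtain ⟨w, h1, h2, h3⟩ := (e1.and (e2.and e3)).exists
  refine ⟨w, h1, fun s hs a ha => h2 s hs a (by simpa using ha), ?_⟩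
  intro s hs j hj s' hs' j' hj'
  exact h3 s hs j (Finset.mem_range.2 hj) s' hs' j' (Finset.mem_range.2 hj')

/-- the next bound -/
noncomputable def bd (N : List ℕ → ℕ) (b : List ℕ → ℕ → ℕ → Prop) (D : Finset (List ℕ)) (v : ℕ) :
    ℕ := (exists_bd N b D v).choose

theorem bd_spec (N : List ℕ → ℕ) (b : List ℕ → ℕ → ℕ → Prop) (D : Finset (List ℕ)) (v : ℕ) :
    v < bd N b D v ∧ (∀ s ∈ D, ∀ a ∈ s, a < bd N b D v) ∧
      ∀ s ∈ D, ∀ j, j < N s → ∀ s' ∈ D, ∀ j', j' < N s' →
        (∀ k, k < bd N b D v → cand b s j k = cand b s' j' k) → cand b s j = cand b s' j' :=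
  (exists_bd N b D v).choose_spec

/-- the recursion -/
noncomputable def stage (N : List ℕ → ℕ) (b : List ℕ → ℕ → ℕ → Prop) : ℕ → Finset (List ℕ) × ℕ
  | 0 => ({[]}, 0)
  | i + 1 => ((stage N b i).1 ∪ (stage N b i).1.image
      (fun s => s ++ [pick N b s (bd N b (stage N b i).1 (stage N b i).2)]),
      bd N b (stage N b i).1 (stage N b i).2)

theorem exists_lab (lab : ℕ ≃ List Bool) (t : ℕ → Bool) (r : ℕ) :
    ∃ i, r ≤ i ∧ lab i = pre' t (lab i).length := by
  have hinj : Function.Injective (fun l : ℕ => lab.symm (pre' t l)) := by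
    intro l l' h
    have h2 : pre' t l = pre' t l' := lab.symm.injective h
    have := congrArg List.length h2
    simpa [pre'_length] using this
  have h1 := hinj.nat_tendsto_atTop
  obtain ⟨l, hl⟩ := (h1.eventually_ge_atTop r).exists
  refine ⟨lab.symm (pre' t l), hl, ?_⟩
  simp [pre'_length]

theorem coding (N : List ℕ → ℕ) (b : List ℕ → ℕ → ℕ → Prop) :
    ∃ (g : List Bool → List Bool) (C : ℕ → ℕ → Bool), ∀ t : ℕ → Bool,
      ∃ A : List ℕ → ℕ → Prop, (∀ s k, ∃ m, k ≤ m ∧ A s m) ∧
        ∀ (z : ℕ → Bool) (y : ℕ → ℕ),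
          (∀ i, A (pre' y i) (y i) ∧ ∃ j, j < N (pre' y i) ∧
            ∀ k, k < y i → (z k = true ↔ b (pre' y (i + 1)) j k)) →
          (∃ n, z = C n) ∨ Dec g z t := by
  classical
  -- the stages
  set D : ℕ → Finset (List ℕ) := fun i => (stage N b i).1 with hD
  set v : ℕ → ℕ := fun i => (stage N b i).2 with hv
  have hv1 : ∀ i, v (i + 1) = bd N b (D i) (v i) := fun i => rfl
  have hD0 : D 0 = {[]} := rfl
  have hD1 : ∀ i, D (i + 1) = D i ∪ (D i).image (fun s => s ++ [pick N b s (v (i + 1))]) :=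
    fun i => rfl
  have hvlt : ∀ i, v i < v (i + 1) := fun i => by rw [hv1]; exact (bd_spec N b (D i) (v i)).1
  have hvm : StrictMono v := strictMono_nat_of_lt_succ hvlt
  have hent : ∀ i, ∀ s ∈ D i, ∀ a ∈ s, a < v (i + 1) := fun i => by
    rw [hv1]; exact (bd_spec N b (D i) (v i)).2.1
  have hdist : ∀ i, ∀ s ∈ D i, ∀ j, j < N s → ∀ s' ∈ D i, ∀ j', j' < N s' →
      (∀ k, k < v (i + 1) → cand b s j k = cand b s' j' k) → cand b s j = cand b s' j' := fun i => by
    rw [hv1]; exact (bd_spec N b (D i) (v i)).2.2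
  have hDm : Monotone D := monotone_nat_of_le_succ fun i => by
    rw [hD1]; exact Finset.subset_union_left
  have hDs : ∀ i, ∀ s ∈ D i, s ++ [pick N b s (v (i + 1))] ∈ D (i + 1) := by
    intro i s hs
    rw [hD1]
    exact Finset.mem_union_right _ (Finset.mem_image_of_mem _ hs)
  have hnil : ∀ i, [] ∈ D i := fun i => hDm (Nat.zero_le i) (by rw [hD0]; simp)
  obtain ⟨hden⟩ := nonempty_denumerable (List Bool)
  let lab : ℕ ≃ List Bool := (Denumerable.eqv (List Bool)).symm
  let en : ℕ ≃ List ℕ × ℕ := (Denumerable.eqv (List ℕ × ℕ)).symm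
  -- non-detection
  let Ini : List Bool → ℕ → Prop := fun ζ i =>
    ∃ s ∈ D i, ∃ j, j < N s ∧ ζ = pre' (cand b s j) (v (i + 2))
  let P : List Bool → ℕ → Prop := fun ζ i => ζ.length = v (i + 2) ∧ ¬ Ini ζ i
  have hPu : ∀ ζ i i', P ζ i → P ζ i' → i = i' := by
    intro ζ i i' h h'
    have := h.1.symm.trans h'.1
    have := hvm.injective this
    omega
  let g : List Bool → List Bool := fun ζ => if h : ∃ i, P ζ i then lab h.choose else []
  have hg1 : ∀ ζ i, P ζ i → g ζ = lab i := by
    intro ζ i h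
    have hex : ∃ i, P ζ i := ⟨i, h⟩
    have : g ζ = lab hex.choose := dif_pos hex
    rw [this, hPu ζ _ i hex.choose_spec h]
  have hg2 : ∀ ζ, (¬ ∃ i, P ζ i) → g ζ = [] := fun ζ h => dif_neg h
  refine ⟨g, fun n => cand b (en n).1 (en n).2, fun t => ?_⟩
  refine ⟨fun s m => (∀ i, s ∉ D i) ∨ ∃ i, s ∈ D i ∧ m = pick N b s (v (i + 1)) ∧
    lab i = pre' t (lab i).length, ?_, ?_⟩
  · intro s k
    by_cases h : ∃ i, s ∈ D i
    · obtain ⟨i0, hi0⟩ := h
      obtain ⟨i, hi1, hi2⟩ := exists_lab lab t (max i0 k)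
      refine ⟨pick N b s (v (i + 1)), ?_, Or.inr ⟨i, hDm (le_trans (le_max_left _ _) hi1) hi0,
        rfl, hi2⟩⟩
      have h1 := pick_ge N b s (v (i + 1))
      have h2 := hvm.id_le (i + 1)
      have h3 := le_trans (le_max_right i0 k) hi1
      simp only [id] at h2
      omega
    · push Not at h
      exact ⟨k, le_rfl, Or.inl h⟩
  · intro z y hzy
    -- every initial segment of y is in some D i
    have hmem : ∀ l, ∃ i, pre' y l ∈ D i := by
      intro l
      induction l with
      | zero => exact ⟨0, hnil 0⟩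
      | succ l ih =>
        obtain ⟨i0, hi0⟩ := ih
        rcases (hzy l).1 with h | ⟨i, hi, hyl, _⟩
        · exact absurd hi0 (h i0)
        · refine ⟨i + 1, ?_⟩
          rw [pre'_succ, hyl]
          exact hDs i _ hi
    have hst : ∀ l, ∃ i, pre' y l ∈ D i ∧ y l = pick N b (pre' y l) (v (i + 1)) ∧
        lab i = pre' t (lab i).length := by
      intro l
      rcases (hzy l).1 with h | h
      · obtain ⟨i, hi⟩ := hmem l
        exact absurd hi (h i)
      · exact h
    choose st hst1 hst2 hst3 using hst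
    have hst4 : ∀ l, pre' y (l + 1) ∈ D (st l + 1) := by
      intro l
      rw [pre'_succ]
      have := hDs (st l) _ (hst1 l)
      rw [← hst2 l] at this
      exact this
    have hstlt : ∀ l, st l < st (l + 1) := by
      intro l
      have h1 : y l ∈ pre' y (l + 1) := by rw [pre'_succ]; simp
      have h2 := hent (st (l + 1)) _ (hst1 (l + 1)) (y l) h1
      have h3 : v (st l + 1) ≤ y l := by
        rw [hst2 l]; exact pick_ge N b _ _
      have h4 := hvm.lt_iff_lt.1 (lt_of_le_of_lt h3 h2)
      omega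
    have hstm : StrictMono st := strictMono_nat_of_lt_succ hstlt
    -- z agrees with a candidate
    have hzc : ∀ l, ∃ j, j < N (pre' y l) ∧
        ∀ k, k < v (st l + 1) → z k = cand b (pre' y l) j k := by
      intro l
      obtain ⟨j, hj, hk⟩ := (hzy l).2
      refine ⟨j, hj, fun k hkv => ?_⟩
      have h3 : v (st l + 1) ≤ y l := by
        rw [hst2 l]; exact pick_ge N b _ _
      have h4 := hk k (lt_of_lt_of_le hkv h3)
      have h5 := pick_spec N b (pre' y l) (v (st l + 1)) j hj k hkv
      rw [← hst2 l, ← pre'_succ] at h5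
      have h6 : (z k = true) ↔ (cand b (pre' y l) j k = true) := h4.trans h5.symm
      exact Bool.eq_iff_iff.2 h6
    have hclaim : ∀ i, (∃ l, i = st l) ∨ Ini (pre' z (v (i + 2))) i := by
      intro i
      have hex : ∃ l, i ≤ st l := ⟨i, hstm.id_le i⟩
      obtain ⟨hl1, hl2⟩ : i ≤ st (Nat.find hex) ∧ ∀ m, m < Nat.find hex → ¬ i ≤ st m :=
        ⟨Nat.find_spec hex, fun m hm => Nat.find_min hex hm⟩
      set l := Nat.find hex with hl
      rcases Nat.eq_or_lt_of_le hl1 with h | h
      · exact Or.inl ⟨l, h⟩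
      · right
        have hin : pre' y l ∈ D i := by
          rcases Nat.eq_zero_or_pos l with h0 | h0
          · rw [h0]; exact hnil i
          · obtain ⟨l', hl'⟩ : ∃ l', l = l' + 1 := ⟨l - 1, by omega⟩
            have h7 := hl2 l' (by omega)
            rw [hl']
            exact hDm (by omega) (hst4 l')
        obtain ⟨j, hj, hk⟩ := hzc l
        refine ⟨pre' y l, hin, j, hj, ?_⟩
        rw [pre'_eq_iff]
        intro k hkv
        apply hk k
        exact lt_of_lt_of_le hkv (hvm.monotone (by omega))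
    have hDec1 : ∀ m, g (pre' z m) = pre' t (g (pre' z m)).length := by
      intro m
      by_cases h : ∃ i, P (pre' z m) i
      · obtain ⟨i, hi⟩ := h
        rw [hg1 _ i hi]
        have hm : m = v (i + 2) := by
          have := hi.1
          rwa [pre'_length] at this
        rcases hclaim i with ⟨l, hl⟩ | h2
        · rw [hl]; exact hst3 l
        · rw [← hm] at h2
          exact absurd h2 hi.2
      · rw [hg2 _ h]
        simp [pre']
    by_cases hinf : ∀ r, ∃ i, r ≤ i ∧ ¬ Ini (pre' z (v (i + 2))) i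
    · right
      refine ⟨hDec1, ?_⟩
      intro k
      by_contra hcon
      push Not at hcon
      -- bounded lengths
      have hfin : ∀ i, ¬ Ini (pre' z (v (i + 2))) i →
          i ∈ (Finset.range (k + 1)).image (fun l => lab.symm (pre' t l)) := by
        intro i hi
        have hP : P (pre' z (v (i + 2))) i := ⟨pre'_length _ _, hi⟩
        have h1 := hg1 _ i hP
        have h2 := hcon (v (i + 2))
        have h3 := hDec1 (v (i + 2))
        rw [h1] at h2 h3
        rw [Finset.mem_image]
        refine ⟨(lab i).length, Finset.mem_range.2 (by omega), ?_⟩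
        rw [← h3]
        simp
      obtain ⟨i, hi1, hi2⟩ := hinf (((Finset.range (k + 1)).image
        (fun l => lab.symm (pre' t l))).sup id + 1)
      have h4 := hfin i hi2
      have h5 : i ≤ ((Finset.range (k + 1)).image (fun l => lab.symm (pre' t l))).sup id :=
        Finset.le_sup (f := id) h4
      omega
    · left
      push Not at hinf
      obtain ⟨r, hr⟩ := hinf
      have hr2 : ∀ i, ∃ s j, r ≤ i → (s ∈ D i ∧ j < N s ∧
          pre' z (v (i + 2)) = pre' (cand b s j) (v (i + 2))) := by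
        intro i
        by_cases hi : r ≤ i
        · obtain ⟨s, hs, j, hj, he⟩ := hr i hi
          exact ⟨s, j, fun _ => ⟨hs, hj, he⟩⟩
        · exact ⟨[], 0, fun h => absurd h hi⟩
      choose S J hSJ using hr2
      have hconst : ∀ i, r ≤ i → cand b (S i) (J i) = cand b (S r) (J r) := by
        intro i hi
        induction i, hi using Nat.le_induction with
        | base => rfl
        | succ i hi ih =>
          rw [← ih]
          have h1 := hSJ i hi
          have h2 := hSJ (i + 1) (by omega)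
          refine hdist (i + 1) (S (i + 1)) h2.1 (J (i + 1)) h2.2.1 (S i)
            (hDm (Nat.le_succ i) h1.1) (J i) h1.2.1 ?_
          intro k hk
          have h3 := (pre'_eq_iff _ _ _).1 h1.2.2 k hk
          have h4 := (pre'_eq_iff _ _ _).1 h2.2.2 k (lt_trans hk (hvlt _))
          rw [← h3, ← h4]
      refine ⟨en.symm (S r, J r), ?_⟩
      funext k
      simp only [Equiv.apply_symm_apply]
      have h1 := hSJ (max r k) (le_max_left _ _)
      have h2 := (pre'_eq_iff _ _ _).1 h1.2.2 k (by
        have h3 := hvm.id_le (max r k + 2)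
        simp only [id] at h3
        have h4 := le_max_right r k
        omega)
      rw [h2, hconst _ (le_max_left _ _)]

end Pool.Agent.H507_U
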