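import Mathlib
import Pool.Agent.Helper467_LV.Defs

/-!
Borel and projective sets over a countable family of sets, and a combinatorial statement `Phi`.
-/

set_option autoImplicit false

namespace Pool.Agent.H507_U

open Set MeasurableSpace
open scoped MeasureTheory
open Pool.Agent.Helper467_LV (pre)

universe u

/-- the Borel sets over `A 0, A 1, …` -/
def Bo {E : Type u} (A : ℕ → Set E) : Set (Set E) := {S | MeasurableSet[generateFrom (range A)] S}

/-- `Sig A α S`: the set `S` belongs to `Σ_α` over `A`. `Σ_0` consists of the finite Boolean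
combinations of the sets `A n`, and `Σ_α`, for `α > 0`, of the countable unions of complements of
sets in the classes `Σ_β`, `β < α`. -/
inductive Sig {E : Type u} (A : ℕ → Set E) : Ordinal.{0} → Set E → Prop
  | zero {S : Set E} (h : S ∈ MeasureTheory.generateSetAlgebra (range A)) : Sig A 0 S
  | pos {α : Ordinal.{0}} (hα : 0 < α) (β : ℕ → Ordinal.{0}) (hβ : ∀ n, β n < α)
      (S : ℕ → Set E) (h : ∀ n, Sig A (β n) (S n)) : Sig A α (⋃ n, (S n)ᶜ)

/-- the projections onto the first factor of the sets in the σ-algebra generated by `G` -/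
def ProjOf {E : Type u} (G : Set (Set (E × E))) : Set (Set E) :=
  {S | ∃ R, MeasurableSet[generateFrom G] R ∧ S = Prod.fst '' R}

/-- `PC A k`: the subsets of `E` which are Borel over `A` or projective over `A` of class at
most `k`. -/
def PC {E : Type u} (A : ℕ → Set E) : ℕ → Set (Set E)
  | 0 => Bo A
  | 1 => Bo A ∪ ProjOf {R | ∃ m n, R = A m ×ˢ A n}
  | (k + 2) => PC A (k + 1) ∪ ProjOf {R | ∃ P ∈ PC A (k + 1), ∃ Q ∈ PC A (k + 1), R = P ×ˢ Q}

/-- The statement of the problem for the set `E`: there is a sequence `A` of subsets of `E` such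
that the Borel sets over `A` have arbitrarily high class numbers, and every projective set over `A`
is Borel over `A`. -/
def Q1 (E : Type u) : Prop :=
  ∃ A : ℕ → Set E,
    (∀ α : Ordinal.{0}, α < Ordinal.omega 1 → ∃ S ∈ Bo A, ¬ Sig A α S) ∧
    ∀ k, PC A k ⊆ Bo A

/-- `(1)` For all infinite sets `A w s` (`w` in `W`, `s` a finite sequence) there is `a` in `K` such
that for every `z ⊆ ℕ` there are `w` with `Lo a w` and `y : ℕ → ℕ` such that, for all `i`,
the number `y i` is in `A w (y 0, …, y (i - 1))`, and the restriction of `z` to the numbers below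
`y i` is one of the first `N w (y 0, …, y (i - 1))` of the candidates `b w (y 0, …, y i) j`,
`j = 0, 1, 2, …`. `(2)` For every `a` in `K`, all families of functions `f w`, `Lo a w`, are
eventually dominated by a single function. -/
def Phi (W K : Type) (Lo : K → W → Prop) (N : W → List ℕ → ℕ)
    (b : W → List ℕ → ℕ → ℕ → Prop) : Prop :=
  (∀ A : W → List ℕ → ℕ → Prop, (∀ w s k, ∃ m, k ≤ m ∧ A w s m) →
    ∃ a : K, ∀ z : ℕ → Prop, ∃ w, Lo a w ∧ ∃ y : ℕ → ℕ, ∀ i,
      A w (pre y i) (y i) ∧
      ∃ j, j < N w (pre y i) ∧ ∀ k, k < y i → (z k ↔ b w (pre y (i + 1)) j k)) ∧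
  (∀ (a : K) (f : W → ℕ → ℕ), ∃ h : ℕ → ℕ, ∀ w, Lo a w → ∃ k, ∀ n, k ≤ n → f w n ≤ h n)

end Pool.Agent.H507_U
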