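import Mathlib

/-!
Definitions for the positive side: the space of generic labellings of the nodes, trees, points,
generic sequences.
-/

set_option autoImplicit false

namespace Pool.Agent.H507_U

open Set

/-- The space of labellings of the nodes (finite sequences; the parent of `n :: s` is `s`) by truth
values such that no node and its parent are both true. -/
def W : Type := {v : List ℕ → Bool // ∀ n s, v (n :: s) = true → v s = false}

instance : TopologicalSpace W := instTopologicalSpaceSubtype
instance : MeasurableSpace W := Subtype.instMeasurableSpace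

/-- the enumeration of the nodes -/
def nd : ℕ ≃ List ℕ := (Denumerable.eqv (List ℕ)).symm

/-- the point given by a labelling `v` and an enumeration `g` -/
def pt (g : ℕ → ℕ) (v : W) : ℕ → Bool := fun n => v.1 (nd (g n))

/-- the enumeration for the trivial type -/
def g0 : ℕ → ℕ := fun n => nd.symm [0, n]

/-- The enumeration `k` has members far away from every finite set of nodes. -/
def Star (k : ℕ → ℕ) : Prop :=
  ∀ S : Finset (List ℕ), ∃ j, nd (k j) ∉ S ∧ (nd (k j)).tail ∉ S ∧ ∀ n, n :: nd (k j) ∉ S

/-- well-founded trees in which every node is a leaf or has infinitely many children -/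
inductive Tr : Type
  | leaf : Tr
  | node (f : ℕ → Tr) : Tr

/-- the subtree of `T` at a node -/
def sub (T : Tr) : List ℕ → Option Tr
  | [] => some T
  | n :: s => match sub T s with
    | some (Tr.node f) => some (f n)
    | _ => none

/-- `s` is a leaf of `T` -/
def IsLeaf (T : Tr) (s : List ℕ) : Prop := sub T s = some Tr.leaf

/-- the rank -/
noncomputable def rk : Tr → Ordinal.{0}
  | Tr.leaf => 0
  | Tr.node f => ⨆ n, Order.succ (rk (f n))

/-- in a normal tree, for each `β` below the rank of a subtree only finitely many of its immediate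
subtrees have rank less than `β` -/
def Norm : Tr → Prop
  | Tr.leaf => True
  | Tr.node f => (∀ n, Norm (f n)) ∧ ∀ β, β < rk (Tr.node f) → {n | rk (f n) < β}.Finite

/-- the rank of a node of `T`; `0` outside `T` -/
noncomputable def lab (T : Tr) (s : List ℕ) : Ordinal.{0} :=
  match sub T s with
  | some T' => rk T'
  | none => 0

/-- the set of labellings which agree with `v` on `S` -/
def nb (S : Finset (List ℕ)) (v : W) : Set W := {w | ∀ s ∈ S, w.1 s = v.1 s}

/-- the parameters -/
abbrev Par : Type := (ℕ → Bool) × (ℕ → ℕ) × (ℕ → ℕ)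

/-- sequences of types and of points -/
structure Sq (K : Type) [LinearOrder K] where
  /-- the first type -/
  bot : K
  bot_le : ∀ a, bot ≤ a
  /-- the enumerations of the leaves -/
  k : K → ℕ → ℕ
  /-- the generic functions -/
  h : K → ℕ → ℕ
  /-- the generic labellings -/
  v : K → W
  /-- the types -/
  τ : K → K
  τ_le : ∀ ν, τ ν ≤ ν

variable {K : Type} [LinearOrder K]

/-- the enumeration of type `β` -/
def Sq.g (σ : Sq K) (β : K) : ℕ → ℕ := if β = σ.bot then g0 else fun n => σ.k β (σ.h β n)

/-- the point with index `ν` -/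
def Sq.x (σ : Sq K) (ν : K) : ℕ → Bool := pt (σ.g (σ.τ ν)) (σ.v ν)

/-- the functions `h ν` are generic -/
def Sq.GenH (σ : Sq K) : Prop := ∀ B : Set (Par × (ℕ → ℕ)), MeasurableSet B →
  ∃ ξ, ∀ ν, ξ < ν → ∀ μ, μ < ν → ∀ β, β < ν →
    IsMeagre {z | ((σ.x μ, σ.g β, σ.k ν), z) ∈ B} → ((σ.x μ, σ.g β, σ.k ν), σ.h ν) ∉ B

/-- the labellings `v ν` are generic -/
def Sq.GenV (σ : Sq K) : Prop := ∀ B : Set (Par × W), MeasurableSet B →
  ∃ ξ, ∀ ν, ξ < ν → ∀ μ, μ < ν → ∀ β, β ≤ ν → ∀ γ, γ ≤ ν →
    IsMeagre {z | ((σ.x μ, σ.g β, σ.g γ), z) ∈ B} → ((σ.x μ, σ.g β, σ.g γ), σ.v ν) ∉ B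

/-- the labellings of each type meet every nonmeagre Borel set -/
def Sq.Hit (σ : Sq K) : Prop := ∀ B : Set W, MeasurableSet B → ¬ IsMeagre B →
  ∀ β ν₀ : K, ∃ ν, ν₀ < ν ∧ σ.τ ν = β ∧ σ.v ν ∈ B

theorem W_closed : IsClosed {v : List ℕ → Bool | ∀ n s, v (n :: s) = true → v s = false} := by
  have h : {v : List ℕ → Bool | ∀ n s, v (n :: s) = true → v s = false} =
      ⋂ n : ℕ, ⋂ s : List ℕ, {v | v (n :: s) = true → v s = false} := by
    ext v; simp
  rw [h]
  refine isClosed_iInter fun n => isClosed_iInter fun s => ?_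
  have h2 : {v : List ℕ → Bool | v (n :: s) = true → v s = false} =
      (fun v : List ℕ → Bool => (v (n :: s), v s)) ⁻¹' {p | p.1 = true → p.2 = false} := rfl
  rw [h2]
  exact (isClosed_discrete _).preimage (by fun_prop)

instance : CompactSpace W := isCompact_iff_compactSpace.mp W_closed.isCompact
instance : T2Space W :=
  inferInstanceAs (T2Space {v : List ℕ → Bool // ∀ n s, v (n :: s) = true → v s = false})
instance : SecondCountableTopology W :=
  TopologicalSpace.Subtype.secondCountableTopology
    {v : List ℕ → Bool | ∀ n s, v (n :: s) = true → v s = false}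
instance : BorelSpace W :=
  Subtype.borelSpace {v : List ℕ → Bool | ∀ n s, v (n :: s) = true → v s = false}
instance : BaireSpace W := inferInstance
instance : Nonempty W := ⟨⟨fun _ => false, fun _ _ _ => rfl⟩⟩

end Pool.Agent.H507_U
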