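import Mathlib
import Pool.Agent.H507_U.PosDefs

/-!
Evaluation of trees.
-/

set_option autoImplicit false

namespace Pool.Agent.H507_U

open Set

theorem r3_basic_W {O : Set W} (hO : IsOpen O) {w : W} (hw : w ∈ O) :
    ∃ S : Finset (List ℕ), nb S w ⊆ O := by
  obtain ⟨U, hU, rfl⟩ := isOpen_induced_iff.1 hO
  obtain ⟨I, u, hu, hsub⟩ := isOpen_pi_iff.1 hU w.1 hw
  refine ⟨I, fun v hv => ?_⟩
  apply hsub
  intro i hi
  have h1 : v.1 i = w.1 i := hv i hi
  show v.1 i ∈ u i
  rw [h1]
  exact (hu i hi).2

/-- generically a node or one of its children is true -/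
theorem r3_gen (s : List ℕ) :
    IsMeagre {w : W | w.1 s = false ∧ ∀ n, w.1 (n :: s) = false} := by
  have hcont : ∀ t : List ℕ, Continuous fun w : W => w.1 t := fun t =>
    (continuous_apply t).comp continuous_subtype_val
  have hcl : IsClosed {w : W | w.1 s = false ∧ ∀ n, w.1 (n :: s) = false} := by
    have e : {w : W | w.1 s = false ∧ ∀ n, w.1 (n :: s) = false} =
        {w : W | w.1 s = false} ∩ ⋂ n : ℕ, {w : W | w.1 (n :: s) = false} := by
      ext w; simp
    rw [e]
    refine IsClosed.inter ?_ (isClosed_iInter fun n => ?_)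
    · exact isClosed_singleton.preimage (hcont s)
    · exact isClosed_singleton.preimage (hcont (n :: s))
  refine IsNowhereDense.isMeagre (hcl.isNowhereDense_iff.2 ?_)
  rw [Set.eq_empty_iff_forall_notMem]
  intro w hw
  have hwN : w ∈ {w : W | w.1 s = false ∧ ∀ n, w.1 (n :: s) = false} := interior_subset hw
  obtain ⟨S, hS⟩ := r3_basic_W isOpen_interior hw
  obtain ⟨n, hn⟩ := Infinite.exists_notMem_finset
    (S.image (fun t => t.headD 0) ∪ S.image (fun t => t.tail.headD 0))
  rw [Finset.mem_union, not_or, Finset.mem_image, Finset.mem_image] at hn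
  have hn1 : n :: s ∉ S := fun h => hn.1 ⟨_, h, rfl⟩
  have hn2 : ∀ m, m :: n :: s ∉ S := fun m h => hn.2 ⟨_, h, rfl⟩
  classical
  let v : List ℕ → Bool := fun t => if t = n :: s then true else if t ∈ S then w.1 t else false
  have hvW : ∀ m t, v (m :: t) = true → v t = false := by
    intro m t hmt
    by_cases h1 : m :: t = n :: s
    · obtain ⟨rfl, rfl⟩ := List.cons.inj h1
      have h2 : t ≠ m :: t := by
        intro h
        have := congrArg List.length h
        simp at this
      by_cases h3 : t ∈ S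
      · simp [v, h2, h3, hwN.1]
      · simp [v, h2, h3]
    · have h2 : m :: t ∈ S := by
        by_contra h2
        simp [v, h1, h2] at hmt
      have h3 : w.1 (m :: t) = true := by
        simpa [v, h1, h2] using hmt
      have h4 : t ≠ n :: s := by
        rintro rfl
        exact hn2 m h2
      by_cases h5 : t ∈ S
      · simp [v, h4, h5, w.2 m t h3]
      · simp [v, h4, h5]
  have hmem : (⟨v, hvW⟩ : W) ∈ nb S w := by
    intro t ht
    have h1 : t ≠ n :: s := by
      rintro rfl
      exact hn1 ht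
    show v t = w.1 t
    simp [v, h1, ht]
  have h6 : (⟨v, hvW⟩ : W).1 (n :: s) = false := (interior_subset (hS hmem)).2 n
  have h7 : v (n :: s) = true := by simp [v]
  have h8 : v (n :: s) = false := h6
  rw [h7] at h8
  exact Bool.noConfusion h8

theorem r3_eval (T : Tr) (g : ℕ → ℕ) (hg : ∀ s, IsLeaf T s → ∃ n, nd (g n) = s) :
    ∀ (T' : Tr) (s : List ℕ), sub T s = some T' →
      ∃ Ev : Set (ℕ → Bool), MeasurableSet Ev ∧
        IsMeagre {w : W | ¬ (pt g w ∈ Ev ↔ w.1 s = true)} := by
  intro T'
  induction T' with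
  | leaf =>
    intro s hs
    obtain ⟨n, hn⟩ := hg s hs
    refine ⟨{x | x n = true}, ?_, ?_⟩
    · exact measurableSet_eq_fun (measurable_pi_apply n) measurable_const
    · have e : {w : W | ¬ (pt g w ∈ {x : ℕ → Bool | x n = true} ↔ w.1 s = true)} = ∅ := by
        rw [Set.eq_empty_iff_forall_notMem]
        intro w hw
        apply hw
        show pt g w n = true ↔ _
        unfold pt
        rw [hn]
      rw [e]
      exact IsMeagre.empty
  | node f ih =>
    intro s hs
    have hsub : ∀ n, sub T (n :: s) = some (f n) := by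
      intro n
      simp [sub, hs]
    choose Ev hEv hm using fun n => ih n (n :: s) (hsub n)
    refine ⟨⋂ n, (Ev n)ᶜ, MeasurableSet.iInter fun n => (hEv n).compl, ?_⟩
    refine IsMeagre.mono (s := (⋃ n, {w : W | ¬ (pt g w ∈ Ev n ↔ w.1 (n :: s) = true)}) ∪
      {w : W | w.1 s = false ∧ ∀ n, w.1 (n :: s) = false}) ?_ ?_
    · intro w hw
      by_contra hnot
      rw [Set.mem_union, not_or, Set.mem_iUnion, not_exists] at hnot
      obtain ⟨h1, h2⟩ := hnot
      apply hw
      have h1' : ∀ n, (pt g w ∈ Ev n ↔ w.1 (n :: s) = true) := fun n => by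
        by_contra h
        exact h1 n h
      rw [Set.mem_iInter]
      constructor
      · intro h3
        by_contra h4
        apply h2
        refine ⟨Bool.eq_false_iff.2 h4, fun n => Bool.eq_false_iff.2 fun h5 => ?_⟩
        exact h3 n ((h1' n).2 h5)
      · intro h3 n h4
        have h5 := w.2 n s ((h1' n).1 h4)
        rw [h3] at h5
        exact Bool.noConfusion h5
    · exact (isMeagre_iUnion hm).union (r3_gen s)

theorem exists_eval (T : Tr) (g : ℕ → ℕ) (hg : ∀ s, IsLeaf T s → ∃ n, nd (g n) = s) :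
    ∃ Ev : Set (ℕ → Bool), MeasurableSet Ev ∧
      IsMeagre {w : W | ¬ (pt g w ∈ Ev ↔ w.1 [] = true)} :=
  r3_eval T g hg T [] rfl

theorem surj_generic : MeasurableSet {h : ℕ → ℕ | ¬ Function.Surjective h} ∧
    IsMeagre {h : ℕ → ℕ | ¬ Function.Surjective h} := by
  have e : {h : ℕ → ℕ | ¬ Function.Surjective h} = ⋃ m : ℕ, ⋂ n : ℕ, {h | h n ≠ m} := by
    ext h
    simp [Function.Surjective]
  rw [e]
  refine ⟨MeasurableSet.iUnion fun m => MeasurableSet.iInter fun n => ?_,
    isMeagre_iUnion fun m => ?_⟩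
  · exact (measurableSet_eq_fun (measurable_pi_apply n) measurable_const).compl
  · have hcl : IsClosed (⋂ n : ℕ, {h : ℕ → ℕ | h n ≠ m}) := by
      refine isClosed_iInter fun n => ?_
      show IsClosed ((fun h : ℕ → ℕ => h n) ⁻¹' {k : ℕ | k ≠ m})
      exact (isClosed_discrete {k : ℕ | k ≠ m}).preimage (continuous_apply n)
    refine IsNowhereDense.isMeagre (hcl.isNowhereDense_iff.2 ?_)
    rw [Set.eq_empty_iff_forall_notMem]
    intro h hh
    obtain ⟨I, u, hu, hsub⟩ := isOpen_pi_iff.1 isOpen_interior h hh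
    obtain ⟨n, hn⟩ := Infinite.exists_notMem_finset I
    have h1 : Function.update h n m ∈ interior (⋂ n : ℕ, {h : ℕ → ℕ | h n ≠ m}) := by
      apply hsub
      intro i hi
      have hin : i ≠ n := by
        rintro rfl
        exact hn hi
      rw [Function.update_of_ne hin]
      exact (hu i hi).2
    have h2 := Set.mem_iInter.1 (interior_subset h1) n
    simp at h2

end Pool.Agent.H507_U
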