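import Mathlib
import Pool.Agent.Helper467_LV.Guide
import Pool.Agent.H507_U.Defs

/-!
The statement `Phi` is forced by the iteration of Laver forcing of `Pool.Agent.Helper467_LV`.
The first part is a variant of `Pool.Agent.Helper467_LV.guide_main`, with almost the same proof.
-/

set_option autoImplicit false

namespace Pool.Agent.H507_U

open Set Filter
open Pool.Agent.Helper467_LV
open Pool.Agent.Helper126.Sus.Forc
open Pool.Agent.W876.Two.Gen (IsFun)

section sentences

variable {P : Type} [Preorder P]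

/-- The forcing version of: for all `i`, if `s` is the list `(y 0, …, y (i - 1))` and `m = y i`,
then `m` is in `A w s`, and the restriction of `z` to the numbers below `m` is one of the first
`N w s` of the candidates `b w (s ++ [m]) j`. -/
def FollowN {W : Type} (N : W → List ℕ → ℕ) (b : W → List ℕ → ℕ → ℕ → Set P)
    (A : W → List ℕ → ℕ → Set P) (z : ℕ → Set P) (w : W) (y : ℕ → ℕ → Set P) : Set P :=
  fall fun i => fex fun s : List ℕ => fex fun m : ℕ =>
    fand (fand (fground (s.length = i)) (PreN y (s ++ [m])))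
      (fand (meets (A w s m))
        (fex fun j => fand (fground (j < N w s))
          (fall fun k => fimp (fground (k < m))
            (fiff (meets (z k)) (meets (b w (s ++ [m]) j k))))))

/-- The forcing version of `Phi`: `Lo` and `N` are ground model objects, `b` is a name. -/
def PhiN {W K : Type} (Lo : K → W → Prop) (N : W → List ℕ → ℕ)
    (b : W → List ℕ → ℕ → ℕ → Set P) : Set P :=
  fand
    (fall fun A : W → List ℕ → ℕ → Set P => fimp (InfN A)
      (fex fun a : K => fall fun z : ℕ → Set P => fex fun w : W => fand (fground (Lo a w))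
        (fex fun y : ℕ → ℕ → Set P => fand (IsFun y) (FollowN N b A z w y))))
    (fall fun a : K => fall fun f : W → ℕ → ℕ → Set P => fimp (fall fun w => IsFun (f w))
      (fex fun h : ℕ → ℕ → Set P => fand (IsFun h)
        (fall fun w => fimp (fground (Lo a w))
          (fex fun k => fall fun n => fimp (fground (k ≤ n)) (LeAtN (f w) h n)))))

end sentences

theorem guide_main' {A : Wd → List ℕ → ℕ → Set (GG II)} {p₁ : GG II} {α : II}
    (hp₁ : InS (Iio α) p₁)
    (hα : ∀ w, Below α w → ∀ s k, DenseS (Iio α) {q | ∃ m, k ≤ m ∧ p₁ * q ∈ meets (A w s m)})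
    {p₂ : GG II} (hp₂ : p₂ ≤ p₁) (z : ℕ → Set (GG II)) :
    ∃ p', p' ≤ p₂ ∧ ∃ (w : Wd) (y : ℕ → ℕ → Set (GG II)), Below α w ∧ ∀ q ≤ p',
      q ∈ fand (IsFun y) (FollowN Nw bw A z w y) := by
  classical
  obtain ⟨p, h, B, Fs, σ, hpp₂, hB, hLC, hR, hσ, hG⟩ := exists_prep p₂ z α
  -- the index
  choose M e he1 he2 using fun i => exists_regions (Fpt α (Fs i)) i
  set V : Om II → List ℕ → ℕ → ℕ → Prop := fun x s j k =>
    h (can α s (Fs (s.length - 1)) (s.length - 1) (e (s.length - 1) j) x) k with hV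
  have hVB : VBelow α V := by
    refine ⟨B ∩ Iio α, hB.mono inter_subset_left, inter_subset_right, fun x x' hx => ?_⟩
    funext s j k
    have h1 := can_congr (α := α) (s := s) (F := Fs (s.length - 1)) (i := s.length - 1)
      (σ := e (s.length - 1) j) (x := x) (x' := x') (B := B) (fun γ hγ hγα => hx γ ⟨hγ, hγα⟩)
    have h2 := N_of_agree (hLC k _) h1
    exact propext h2
  have hVLC : ∀ s j k x, ∀ᶠ x' in N Set.univ x, (V x' s j k ↔ V x s j k) := by
    intro s j k x
    exact (can_tendsto x).eventually (N_anti (subset_univ _) _ (hLC k _))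
  set q₀ := low α p with hq₀
  set u₀ := up α p with hu₀
  have hpq : q₀ * u₀ = p := low_mul_up α p
  set w : Wd := (q₀, V, fun s => M s.length, σ.length) with hw
  have hBw : Below α w := ⟨low_inS α p, hVB⟩
  obtain ⟨e', he'⟩ := hpp₂.trans hp₂
  have hq₀' : q₀ = p₁ * low α e' := by
    rw [hq₀, he', low_mul, low_of_inS hp₁]
  -- reading the sets
  set dcd : ℕ → List ℕ × ℕ := fun j => (Encodable.decode (α := List ℕ × ℕ) j).getD ([], 0)
    with hdcd
  have hdcd' : ∀ s : List ℕ × ℕ, dcd (Encodable.encode s) = s := fun s => by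
    show (Encodable.decode (α := List ℕ × ℕ) (Encodable.encode s)).getD ([], 0) = s
    rw [Encodable.encodek]
    rfl
  obtain ⟨r₁, hr₁, -, hr₁'⟩ := fus_Iio α
    (fun j => {q | ∃ m, q ∈ {q | (dcd j).2 ≤ m ∧ q₀ * q ∈ meets (A w (dcd j).1 m)}})
    (fun j a b _ _ ⟨m, hm, h1⟩ => ⟨m, hm, by
      rw [← mul_assoc]; exact meets_down h1 (GG.mul_le _ _)⟩)
    (fun j a ha => by
      obtain ⟨r, hr, m, hm, h1⟩ := hα w hBw (dcd j).1 (dcd j).2 (low α e' * a)
        ((low_inS α e').mul ha)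
      refine ⟨r, hr, m, hm, ?_⟩
      rw [hq₀', mul_assoc, ← mul_assoc (low α e')]
      exact h1) ∅ (by simp) 0
  have hsel : ∀ (s : List ℕ) (k : ℕ), ∃ (φ : Om II → ℕ) (C : Set II), C.Countable ∧
      C ⊆ Iio α ∧ (∀ x, ∀ᶠ x' in N C x, φ x' = φ x) ∧
      ∀ y, ∃ (F : Finset II) (n : ℕ), ↑F ⊆ C ∧ k ≤ φ y ∧
        q₀ * (r₁ * iota F n y) ∈ meets (A w s (φ y)) := by
    intro s k
    have h1 := hr₁' (Encodable.encode (s, k))
    simp only [hdcd'] at h1
    exact exists_select h1
  choose φ C hC hCα hφ hφ' using hsel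
  set D : Set II := ⋃ s, ⋃ k, C s k with hD
  have hDc : D.Countable := countable_iUnion (fun s => countable_iUnion (fun k => hC s k))
  have hDα : D ⊆ Iio α := iUnion_subset (fun s => iUnion_subset (fun k => hCα s k))
  have hφD : ∀ s k x, ∀ᶠ x' in N D x, φ s k x' = φ s k x := fun s k x =>
    N_anti ((subset_iUnion (fun k => C s k) k).trans (subset_iUnion (fun s => ⋃ k, C s k) s)) x
      (hφ s k x)
  have hφge : ∀ s k y, k ≤ φ s k y := by
    intro s k y
    obtain ⟨_, _, _, h1, _⟩ := hφ' s k y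
    exact h1
  -- the values
  set g : Om II → List ℕ → ℕ → ℕ := fun y s a => Nat.rec (φ s 0 y) (fun _ v => φ s (v + 1) y) a
    with hg
  have hg0 : ∀ y s, g y s 0 = φ s 0 y := fun _ _ => rfl
  have hg1 : ∀ y s a, g y s (a + 1) = φ s (g y s a + 1) y := fun _ _ _ => rfl
  have hgmono : ∀ y s, StrictMono (g y s) := by
    intro y s
    apply strictMono_nat_of_lt_succ
    intro a
    rw [hg1]
    exact hφge _ _ _
  have hgφ : ∀ y s a, ∃ k, g y s a = φ s k y := by
    intro y s a
    cases a with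
    | zero => exact ⟨0, rfl⟩
    | succ a => exact ⟨_, rfl⟩
  have hgLC : ∀ s a x, ∀ᶠ x' in N D x, g x' s a = g x s a := by
    intro s a x
    induction a with
    | zero => exact hφD s 0 x
    | succ a ih =>
      filter_upwards [ih, hφD s (g x s a + 1) x] with x' h1 h2
      rw [hg1, hg1, h1, h2]
  set step : Om II → List ℕ → ℕ → List ℕ := fun y w a => w ++ [g y w a] with hstep
  set b : Om II → LE := fun y =>
    { tr := fun l => l.foldl (step y) []
      spec := by
        intro l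
        refine ⟨g y (l.foldl (step y) []), hgmono _ _, fun a => ?_⟩
        rw [List.foldl_append]
        rfl } with hb
  have hbnil : ∀ y, (b y).tr [] = [] := fun _ => rfl
  have hbtr : ∀ y l a, (b y).tr (l ++ [a]) = (b y).tr l ++ [g y ((b y).tr l) a] := by
    intro y l a
    show (l ++ [a]).foldl (step y) [] = _
    rw [List.foldl_append]
    rfl
  have hbLC : ∀ l x, ∀ᶠ x' in N D x, (b x').tr l = (b x).tr l := by
    intro l x
    induction l using List.reverseRecOn with
    | nil => exact Filter.Eventually.of_forall (fun _ => rfl)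
    | append_singleton l a ih =>
      filter_upwards [ih, hgLC ((b x).tr l) a x] with x' h1 h2
      rw [hbtr, hbtr, h1, h2]
  have hE₂S : Supp (D ∪ {α}) (fun γ x => if γ = α then b x else 1) := by
    constructor
    · intro γ hγ x
      exact if_neg (fun h => hγ (Or.inr h))
    · intro γ x l
      by_cases hγ : γ = α
      · subst hγ
        simp only [if_true]
        exact N_anti (show D ⊆ (D ∪ {γ}) ∩ Iio γ from fun δ hδ => ⟨Or.inl hδ, hDα hδ⟩) x
          (hbLC l x)
      · simp only [if_neg hγ]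
        exact Filter.Eventually.of_forall (fun _ => trivial)
  set t₂ : GG II := ⟨fun γ x => if γ = α then b x else 1, D ∪ {α},
    hDc.union (countable_singleton α), hE₂S⟩ with ht₂
  have ht₂S : InS {α} t₂ := fun γ hγ x => if_neg hγ
  have ht₂α : ∀ v, t₂.act v α = (b v).map (v α) := by
    intro v
    show (if α = α then b v else 1).map (v α) = _
    rw [if_pos rfl]
  set τ := r₁ * t₂ with hτ
  set p' := p * τ with hp'
  have hτα : ∀ v, τ.act v α = (b v).map (v α) := by
    intro v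
    rw [hτ, GG.mul_act, hr₁.act (by simp), ht₂α]
  -- the values are in the sets
  have hval : ∀ v i, ∃ k, τ.act v α i = φ (pre (τ.act v α) i) k v := by
    intro v i
    have h1 := (b v).map_pre (v α) (i + 1)
    rw [pre_succ, hbtr] at h1
    have h2 := apply_of_pre (v := []) h1
    have h3 := pre_eq_of_append h1
    have h4 : ((b v).tr (pre (v α) i)).length = i := by
      rw [LE.tr_length, hbnil, pre_length]
      simp
    rw [h4] at h2 h3
    rw [hτα, h2, h3]
    exact hgφ _ _ _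
  have hτLC : ∀ n x, ∀ᶠ x' in N Set.univ x, τ.act x' α n = τ.act x α n := fun n x =>
    N_anti (subset_univ _) x (τ.act_eventually τ.A_supp α n x)
  refine ⟨p', (GG.mul_le _ _).trans hpp₂, w, fun n m => nm p' (fun v => τ.act v α n) m, hBw, ?_⟩
  intro q hq
  refine ⟨isFun_nm hq hτLC, ?_⟩
  intro i
  rw [mem_fex]
  intro q₂ hq₂
  obtain ⟨x₂, hx₂⟩ := hq₂.trans hq
  set o : Om II := fun _ _ => 0 with ho
  set v₀ := x₂.act o with hv₀
  set x₀ := τ.act v₀ with hx₀
  set s := pre (x₀ α) i with hs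
  have hsl : s.length = i := pre_length _ _
  set m := x₀ α i with hm
  obtain ⟨k₀, hk₀⟩ := hval v₀ i
  obtain ⟨F₃, n₃, hF₃, -, hA₃⟩ := hφ' s k₀ v₀
  rw [← hx₀, ← hs, ← hm] at hk₀
  rw [← hk₀] at hA₃
  have hF₃α : ↑F₃ ⊆ Iio α := hF₃.trans (hCα s k₀)
  -- the regions
  set ρ : II → List ℕ := fun γ => if γ = α then lp i (tl i (x₀ α)) else
    if γ ∈ Fpt α (Fs i) then lp i (x₀ γ) else [] with hρ
  obtain ⟨j, hj, hj'⟩ := he2 i ρ (by
      intro γ hγ
      rw [hρ]
      simp only
      rw [if_neg (fun h => hγ (by rw [h]; exact Finset.mem_insert_self _ _)), if_neg hγ]) (by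
      intro γ hγ
      rw [hρ]
      simp only
      split_ifs
      · exact wt_lp _ _
      · exact wt_lp _ _)
  have hρα : ρ α = lp i (tl i (x₀ α)) := if_pos rfl
  have hρβ : ∀ β ∈ Fs i, α < β → ρ β = lp i (x₀ β) := by
    intro β hβ hαβ
    rw [hρ]
    simp only
    rw [if_neg hαβ.ne', if_pos (by unfold Fpt; simp [hβ, hαβ])]
  -- the box
  have hbox : ∀ᶠ v in N Set.univ v₀, (∀ j ∈ Finset.range (i + 1 + i), τ.act v α j = x₀ α j) ∧
      (∀ β ∈ Fs i, ∀ j ∈ Finset.range i, τ.act v β j = x₀ β j) ∧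
      (∀ γ ∈ F₃, ∀ j, j < n₃ → v γ j = v₀ γ j) := by
    refine Filter.Eventually.and ?_ (Filter.Eventually.and ?_
      (N_agree v₀ F₃ (subset_univ _) n₃))
    · rw [Filter.eventually_all_finset]
      exact fun j _ => hτLC j v₀
    · rw [Filter.eventually_all_finset]
      intro β _
      rw [Filter.eventually_all_finset]
      intro j _
      exact N_anti (subset_univ _) v₀ (τ.act_eventually τ.A_supp β j v₀)
  obtain ⟨F₄, n₄, hbox⟩ := exists_refine x₂ o hbox
  have hQ : ∀ (s₃ : GG II) v, (∀ j, j < i + 1 → τ.act ((x₂ * (iota F₄ n₄ o * s₃)).act v) α j =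
        x₀ α j) ∧
      pre (τ.act ((x₂ * (iota F₄ n₄ o * s₃)).act v) α) (i + 1) = s ++ [m] ∧
      lp i (tl i (τ.act ((x₂ * (iota F₄ n₄ o * s₃)).act v) α)) = ρ α ∧
      (∀ β ∈ Fs i, α < β → lp i (τ.act ((x₂ * (iota F₄ n₄ o * s₃)).act v) β) = ρ β) ∧
      (∀ γ ∈ F₃, ∀ j, j < n₃ → (x₂ * (iota F₄ n₄ o * s₃)).act v γ j = v₀ γ j) := by
    intro s₃ v
    have h1 := hbox (s₃.act v)
    rw [GG.mul_act x₂, GG.mul_act (iota F₄ n₄ o)]
    obtain ⟨h2, h3, h4⟩ := h1
    refine ⟨fun j hj => h2 j (Finset.mem_range.mpr (by omega)), ?_, ?_, ?_, h4⟩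
    · rw [hs, hm, ← pre_succ, pre_eq_iff]
      exact fun j hj => h2 j (Finset.mem_range.mpr (by omega))
    · rw [hρα]
      apply lp_congr
      intro j hj
      exact h2 _ (Finset.mem_range.mpr (by omega))
    · intro β hβ hαβ
      rw [hρβ β hβ hαβ]
      apply lp_congr
      intro j hj
      exact h3 β hβ j (Finset.mem_range.mpr hj)
  refine ⟨q₂ * iota F₄ n₄ o, GG.mul_le _ _, s, ?_⟩
  apply fex_intro m
  rintro q₃ ⟨s₃, rfl⟩
  have hq₃ : q₂ * iota F₄ n₄ o * s₃ = p' * (x₂ * (iota F₄ n₄ o * s₃)) := by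
    rw [hx₂]
    simp only [mul_assoc]
  refine ⟨⟨hsl, ?_⟩, ?_, ?_⟩
  · -- initial segment
    intro i' hi'
    apply meets_of_mem
    refine ⟨x₂ * (iota F₄ n₄ o * s₃), hq₃, fun v => ?_⟩
    have h1 := (hQ s₃ v).2.1
    have hi'' : i' < i + 1 := by
      rw [List.length_append, hsl] at hi'
      exact hi'
    rw [← h1, List.getD_eq_getElem _ _ (by rw [pre_length]; exact hi''), pre_getElem]
  · -- the sets
    obtain ⟨u₁, hu₁, hu₁'⟩ := exists_comm (up_inS α p) hr₁
    have h1 : p' * (x₂ * (iota F₄ n₄ o * s₃)) =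
        q₀ * r₁ * (u₁ * (t₂ * (x₂ * (iota F₄ n₄ o * s₃)))) := by
      rw [hp', hτ, ← hpq, hu₀]
      calc q₀ * up α p * (r₁ * t₂) * (x₂ * (iota F₄ n₄ o * s₃))
          = q₀ * (up α p * r₁) * t₂ * (x₂ * (iota F₄ n₄ o * s₃)) := by simp only [mul_assoc]
        _ = _ := by rw [hu₁']; simp only [mul_assoc]
    rw [hq₃, h1]
    rw [← mul_assoc] at hA₃
    apply meets_of_box hA₃
    intro v γ hγ j hj
    have hγα : γ < α := hF₃α hγ
    rw [GG.mul_act, GG.mul_act]
    have hu₁S : InS (Ici α) u₁ := fun γ hγ x => by rw [hu₁, up_inS α p γ hγ]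
    rw [hu₁S.act (by simpa using hγα), ht₂S.act (by simpa using hγα.ne)]
    exact (hQ s₃ v).2.2.2.2 γ hγ j hj
  · -- the candidates
    apply fex_intro j
    rintro q₄ ⟨s₄, rfl⟩
    refine ⟨by show j < M s.length; rw [hsl]; exact hj, ?_⟩
    intro k
    rw [mem_fimp]
    rintro q₅ ⟨s₅, rfl⟩ (hkm : k < m)
    -- two claims
    have claim : ∀ s₆ : GG II, ∃ Hk : Prop,
        (∃ q₇, q₇ ≤ q₂ * iota F₄ n₄ o * s₃ * s₄ * s₅ * s₆ ∧
          ((Hk ∧ q₇ ∈ meets (z k)) ∨ (¬ Hk ∧ q₇ ∈ fnot (meets (z k))))) ∧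
        (∃ q₇, q₇ ≤ q₂ * iota F₄ n₄ o * s₃ * s₄ * s₅ * s₆ ∧
          ((Hk ∧ q₇ ∈ meets (bw w (s ++ [m]) j k)) ∨
            (¬ Hk ∧ q₇ ∈ fnot (meets (bw w (s ++ [m]) j k))))) := by
      intro s₆
      have hq₆ : q₂ * iota F₄ n₄ o * s₃ * s₄ * s₅ * s₆ =
          p' * (x₂ * (iota F₄ n₄ o * (s₃ * s₄ * s₅ * s₆))) := by
        rw [hx₂]
        simp only [mul_assoc]
      rw [hq₆]
      set x₆ := x₂ * (iota F₄ n₄ o * (s₃ * s₄ * s₅ * s₆)) with hx₆
      obtain ⟨g1, g2, g3, g4, g5⟩ := hQ (s₃ * s₄ * s₅ * s₆) o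
      rw [← hx₆] at g1 g2 g3 g4 g5
      set pt := τ.act (x₆.act o) with hpt
      refine ⟨h pt k, ?_, ?_⟩
      · obtain ⟨F₇, n₇, h8⟩ := hR pt k
        obtain ⟨F₈, n₈, ρ₈, h9⟩ := exists_box (τ * x₆) o F₇ n₇
        have h10 : (τ * x₆).act o = pt := by rw [GG.mul_act]
        rw [h10] at h9
        have h11 : p' * x₆ * iota F₈ n₈ o = p * iota F₇ n₇ pt * ρ₈ := by
          rw [hp', mul_assoc p, mul_assoc p, h9, ← mul_assoc]
        refine ⟨p' * x₆ * iota F₈ n₈ o, GG.mul_le _ _, ?_⟩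
        rw [h11]
        rcases h8 with ⟨h8, h12⟩ | ⟨h8, h12⟩
        · exact Or.inl ⟨h8, meets_down h12 (GG.mul_le _ _)⟩
        · exact Or.inr ⟨h8, fnot_down h12 (GG.mul_le _ _)⟩
      · obtain ⟨F₇, n₇, h8⟩ := bn_decide (p := q₀) (Φ := fun x => V x (s ++ [m]) j k)
          (q' := u₀ * (τ * x₆)) (y := o) (hVLC _ _ _ _)
        have h9 : q₀ * (u₀ * (τ * x₆)) = p' * x₆ := by
          rw [hp', ← hpq]
          simp only [mul_assoc]
        rw [h9] at h8
        have h10 : (u₀ * (τ * x₆)).act o = u₀.act pt := by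
          rw [GG.mul_act, GG.mul_act]
        have h11 : V ((u₀ * (τ * x₆)).act o) (s ++ [m]) j k ↔ h pt k := by
          rw [h10, hV]
          simp only
          have h12 : (s ++ [m]).length - 1 = i := by
            rw [List.length_append, hsl]
            simp
          rw [h12]
          have hsl' : (s ++ [m]).length = i + 1 := by
            rw [List.length_append, hsl]
            rfl
          symm
          apply hG i
          · intro γ hγ
            rw [can_lt hγ, (up_inS α p).act (by simpa using hγ)]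
          · rw [g2]
            have := can_pre (α := α) (s := s ++ [m]) (F := Fs i) (i := i) (σ := e i j)
              (x := u₀.act pt)
            rw [hsl'] at this
            exact this.symm
          · rw [g3, can_tl hsl' (he1 i j α (Finset.mem_insert_self _ _)), hj']
          · intro β hβ hαβ
            rw [g4 β hβ hαβ, can_lp hβ hαβ
              (he1 i j β (by unfold Fpt; simp [hβ, hαβ])), hj']
          · rw [g1 i (by omega)]
            exact hkm
        refine ⟨p' * x₆ * iota F₇ n₇ o, GG.mul_le _ _, ?_⟩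
        rw [h11] at h8
        exact h8
    refine ⟨_, le_rfl, ?_, ?_⟩
    · rw [mem_fimp]
      rintro q₆ ⟨s₆, rfl⟩ hz
      obtain ⟨Hk, ⟨q₇, hq₇, h8⟩, ⟨q₈, hq₈, h9⟩⟩ := claim s₆
      rcases h8 with ⟨h8, -⟩ | ⟨-, h8⟩
      · rcases h9 with ⟨-, h9⟩ | ⟨h9, -⟩
        · exact ⟨q₈, hq₈, h9⟩
        · exact absurd h8 h9
      · exact absurd (meets_down hz hq₇) (h8 q₇ le_rfl)
    · rw [mem_fimp]
      rintro q₆ ⟨s₆, rfl⟩ hz
      obtain ⟨Hk, ⟨q₇, hq₇, h8⟩, ⟨q₈, hq₈, h9⟩⟩ := claim s₆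
      rcases h9 with ⟨h9, -⟩ | ⟨-, h9⟩
      · rcases h8 with ⟨-, h8⟩ | ⟨h8, -⟩
        · exact ⟨q₇, hq₇, h8⟩
        · exact absurd h9 h8
      · exact absurd (meets_down hz hq₈) (h9 q₈ le_rfl)


end Pool.Agent.H507_U
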