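import Mathlib
import Pool.Agent.H507_U.Guide2

/-!
The statement `Phi` is forced by the iteration of Laver forcing of `Pool.Agent.Helper467_LV`.
-/

set_option autoImplicit false

namespace Pool.Agent.H507_U

open Set Filter
open Pool.Agent.Helper467_LV
open Pool.Agent.Helper126.Sus.Forc
open Pool.Agent.W876.Two.Gen (IsFun)

theorem dom_main {f : ℕ → ℕ → Set (GG II)} {q : GG II} {α : II}
    (hq : InS (Iio α) q) (hα : ∀ k, DenseS (Iio α) {r | ∃ m, q * r ∈ meets (f k m)})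
    {q₁ : GG II} (hq₁ : q₁ ≤ q) :
    ∃ q₃ ≤ q₁, ∃ k, ∀ r ≤ q₃, ∀ n, k ≤ n → r ∈ LeAtN f (gen α) n := by
  classical
  obtain ⟨e, he⟩ := hq₁
  set q₀ := low α q₁ with hq₀
  set u₀ := up α q₁ with hu₀
  have hpq : q₀ * u₀ = q₁ := low_mul_up α q₁
  have hq₀' : q₀ = q * low α e := by rw [hq₀, he, low_mul, low_of_inS hq]
  obtain ⟨r₁, hr₁, -, hr₁'⟩ := fus_Iio α
    (fun j => {r | ∃ m, r ∈ {r | q₀ * r ∈ meets (f j m)}})
    (fun j a b _ _ ⟨m, hm⟩ => ⟨m, by
      show q₀ * (a * b) ∈ meets (f j m)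
      rw [← mul_assoc]; exact meets_down hm (GG.mul_le _ _)⟩)
    (fun j a ha => by
      obtain ⟨r, hr, m, hm⟩ := hα j (low α e * a) ((low_inS α e).mul ha)
      refine ⟨r, hr, m, ?_⟩
      show q₀ * (a * r) ∈ meets (f j m)
      rw [hq₀', mul_assoc, ← mul_assoc (low α e)]
      exact hm) ∅ (by simp) 0
  have hsel : ∀ j, ∃ (φ : Om II → ℕ) (C : Set II), C.Countable ∧
      C ⊆ Iio α ∧ (∀ x, ∀ᶠ x' in N C x, φ x' = φ x) ∧
      ∀ y, ∃ (F : Finset II) (n : ℕ), ↑F ⊆ C ∧ q₀ * (r₁ * iota F n y) ∈ meets (f j (φ y)) :=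
    fun j => exists_select (hr₁' j)
  choose φ C hC hCα hφ hφ' using hsel
  set D : Set II := ⋃ j, C j with hD
  have hDc : D.Countable := countable_iUnion hC
  have hDα : D ⊆ Iio α := iUnion_subset hCα
  obtain ⟨u₁, hu₁, hu₁'⟩ := exists_comm (up_inS α q₁) hr₁
  have hu₁S : InS (Ici α) u₁ := fun γ hγ x => by rw [hu₁, up_inS α q₁ γ hγ]
  obtain ⟨F, n₀, σ, hF, hσ⟩ := exists_const_stem (q₁ * r₁) α (fun _ _ => 0)
  set ι := iota F n₀ (fun _ _ => 0) with hι
  have hιS : InS (Iio α) ι := iota_inS F n₀ _ hF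
  set B : Set II := (D ∪ ι.A) ∩ Iio α with hB
  have hBc : B.Countable := (hDc.union ι.A_countable).mono inter_subset_left
  have hcont : ∀ i x, ∀ᶠ x' in N B x, φ (σ.length + i) (ι.act x') = φ (σ.length + i) (ι.act x) := by
    intro i x
    have h1 := ι.tendsto_act ι.A_supp (B := B)
      (fun δ hδ ε hε => ⟨Or.inr hε.1, lt_trans (mem_Iio.mp hε.2) (mem_Iio.mp hδ.2)⟩) x
    exact h1.eventually (N_anti (show C (σ.length + i) ⊆ B from fun γ hγ =>
      ⟨Or.inl (mem_iUnion.mpr ⟨_, hγ⟩), hCα _ hγ⟩) _ (hφ _ (ι.act x)))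
  obtain ⟨t, ht1, ht2⟩ := exists_add α hBc inter_subset_right
    (fun i x => φ (σ.length + i) (ι.act x)) hcont
  set q₃ := q₁ * r₁ * ι * t with hq₃
  have hq₃' : ∀ s, q₃ * s = q₀ * (r₁ * (u₁ * (ι * (t * s)))) := by
    intro s
    rw [hq₃, ← hpq, hu₀]
    calc q₀ * up α q₁ * r₁ * ι * t * s
        = q₀ * (up α q₁ * r₁) * (ι * (t * s)) := by simp only [mul_assoc]
      _ = _ := by rw [hu₁']; simp only [mul_assoc]
  refine ⟨q₃, ((GG.mul_le _ _).trans (GG.mul_le _ _)).trans (GG.mul_le _ _), σ.length, ?_⟩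
  rintro r ⟨s, rfl⟩ n hn
  obtain ⟨i, rfl⟩ := Nat.exists_eq_add_of_le hn
  apply leAtN_intro
  rintro r' ⟨s', rfl⟩
  have e1 : q₃ * s * s' = q₃ * (s * s') := mul_assoc _ _ _
  rw [e1]
  set o : Om II := fun _ _ => 0 with ho
  set v := (s * s').act o with hv
  set x' := ι.act (t.act v) with hx'
  obtain ⟨F₃, n₃, hF₃, h3⟩ := hφ' (σ.length + i) x'
  have hF₃α : ↑F₃ ⊆ Iio α := hF₃.trans (hCα _)
  have hcoord : ∀ᶠ x in N Set.univ ((ι * (t * (s * s'))).act o),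
      ∀ γ ∈ F₃, ∀ j, j < n₃ → x γ j = x' γ j := by
    have h4 : (ι * (t * (s * s'))).act o = x' := by
      rw [GG.mul_act, GG.mul_act]
    rw [h4]
    exact N_agree x' F₃ (subset_univ _) n₃
  obtain ⟨F₄, n₄, h4⟩ := exists_refine (ι * (t * (s * s'))) o hcoord
  obtain ⟨F₅, n₅, h5⟩ := exists_refine (q₃ * (s * s')) o
    (Q := fun x' => x' α (σ.length + i) = (q₃ * (s * s')).act o α (σ.length + i))
    (N_coord _ (mem_univ α) _)
  -- combine the two boxes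
  obtain ⟨r₂, hr₂, hr₂'⟩ := box_compat (q₃ * (s * s')) o F₄ F₅ n₄ n₅
  refine ⟨r₂, hr₂.trans (GG.mul_le _ _), φ (σ.length + i) x',
    (q₃ * (s * s')).act o α (σ.length + i), ?_, ?_, ?_⟩
  · have h6 : (q₃ * (s * s')).act o α (σ.length + i) =
        ((q₁ * r₁ * ι).E α (t.act v)).map (t.act v α) (σ.length + i) := by
      rw [hq₃, GG.mul_act (q₁ * r₁ * ι * t), GG.mul_act (q₁ * r₁ * ι)]
      rfl
    rw [h6]
    have h7 := LE.le_map ((q₁ * r₁ * ι).E α (t.act v)) (t.act v α) i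
    have h8 : ((q₁ * r₁ * ι).E α (t.act v)).tr [] = σ := by
      have h9 := hσ (t.act v)
      exact h9
    rw [h8] at h7
    refine le_trans ?_ h7
    rw [ht2]
    have h9 : φ (σ.length + i) (ι.act (t.act v)) = φ (σ.length + i) (ι.act v) := by
      apply N_of_agree (P := fun x => φ (σ.length + i) (ι.act x) = φ (σ.length + i) (ι.act v))
        (hcont i v)
      intro γ hγ
      exact ht1.act (by simpa using (show γ < α from hγ.2).ne) _
    rw [hx', h9]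
    exact Nat.le_add_right _ _
  · apply meets_down _ hr₂
    rw [hq₃', mul_assoc, mul_assoc, mul_assoc]
    rw [← mul_assoc] at h3 ⊢
    apply meets_of_box h3
    intro v' γ hγ j hj
    rw [GG.mul_act, hu₁S.act (by simpa using hF₃α hγ)]
    rw [GG.mul_act (ι * (t * (s * s')))]
    exact h4 v' γ hγ j hj
  · apply meets_down _ hr₂'
    exact mem_gen (fun v => by rw [GG.mul_act]; exact h5 v)

/-- `Phi` is forced -/
theorem phi_forced (p : GG II) : p ∈ PhiN Below Nw bw := by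
  constructor
  · intro A
    rw [mem_fimp]
    intro p₁ _ hA
    obtain ⟨a₀, ha₀⟩ := exists_bound_countable _ p₁.A_countable
    obtain ⟨α, hα1, -, hα2⟩ := exists_reflect a₀
      (fun w s k => {q | ∃ m, k ≤ m ∧ p₁ * q ∈ meets (A w s m)}) (by
        intro w s k q
        obtain ⟨r, ⟨t, ht⟩, m, hm, h⟩ := mem_fex.1 (hA w s k) (p₁ * q) (GG.mul_le _ _)
        exact ⟨t, m, hm, by rw [← mul_assoc, ← ht]; exact h⟩)
    have hp₁ : InS (Iio α) p₁ :=
      fun γ hγ x => p₁.A_supp.1 γ (fun h => hγ ((ha₀ γ h).trans hα1)) x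
    refine ⟨p₁, le_rfl, ?_⟩
    apply fex_intro α
    intro q hq z
    rw [mem_fex]
    intro p₂ hp₂
    obtain ⟨p', hp', w, y, hw, h⟩ := guide_main' hp₁ hα2 (hp₂.trans hq) z
    exact ⟨p', hp', w, hw, fex_intro y h⟩
  · intro a f
    rw [mem_fimp]
    intro q _ hf
    obtain ⟨a₀, ha₀⟩ := exists_bound_countable _ (q.A_countable.union (countable_singleton a))
    obtain ⟨α, hα1, -, hα2⟩ := exists_reflect a₀
      (fun w _ k => {r | ∃ m, q * r ∈ meets (f w k m)}) (by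
        intro w _ k r
        obtain ⟨r', ⟨t, ht⟩, m, hm⟩ := mem_fex.1 ((hf w).1 k) (q * r) (GG.mul_le _ _)
        exact ⟨t, m, by rw [← mul_assoc, ← ht]; exact hm⟩)
    have hq : InS (Iio α) q :=
      fun γ hγ x => q.A_supp.1 γ (fun h => hγ ((ha₀ γ (Or.inl h)).trans hα1)) x
    have haα : a ≤ α := ((ha₀ a (Or.inr rfl)).trans hα1).le
    refine ⟨q, le_rfl, ?_⟩
    apply fex_intro (gen α)
    intro q₁ hq₁
    refine ⟨gen_isFun α q₁, ?_⟩
    intro w
    rw [mem_fimp]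
    rintro q₂ hq₂ (hw : Below a w)
    have hw' : Below α w := by
      obtain ⟨h1, B, hB, hBa, hB'⟩ := hw
      exact ⟨h1.mono (Iio_subset_Iio haα), B, hB, hBa.trans (Iio_subset_Iio haα), hB'⟩
    obtain ⟨q₃, hq₃, k, h⟩ := dom_main hq (fun k => hα2 w hw' [] k) (hq₂.trans hq₁)
    refine ⟨q₃, hq₃, ?_⟩
    apply fex_intro k
    intro r hr n
    rw [mem_fimp]
    rintro r' hr' (hn : k ≤ n)
    exact ⟨r', le_rfl, h r' (hr'.trans hr) n hn⟩

end Pool.Agent.H507_U
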