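import Mathlib
import Pool.Agent.H507_U.PosDefs

/-!
The points of a generic type.
-/

set_option autoImplicit false

namespace Pool.Agent.H507_U

open Set

/-- an open set of functions with discrete values contains a cylinder -/
theorem f1_cyl {ι α : Type} [TopologicalSpace α] [DiscreteTopology α] (U : Set (ι → α))
    (hU : IsOpen U) (f : ι → α) (hf : f ∈ U) :
    ∃ I : Finset ι, ∀ g : ι → α, (∀ i ∈ I, g i = f i) → g ∈ U := by
  rw [isOpen_pi_iff] at hU
  obtain ⟨I, u, h1, h2⟩ := hU f hf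
  refine ⟨I, fun g hg => h2 ?_⟩
  intro i hi
  rw [hg i hi]
  exact (h1 i hi).2

theorem f1_cylN {α : Type} [TopologicalSpace α] [DiscreteTopology α] (U : Set (ℕ → α))
    (hU : IsOpen U) (f : ℕ → α) (hf : f ∈ U) :
    ∃ m : ℕ, ∀ g : ℕ → α, (∀ i < m, g i = f i) → g ∈ U := by
  obtain ⟨I, hI⟩ := f1_cyl U hU f hf
  refine ⟨I.sup id + 1, fun g hg => hI g fun i hi => hg i ?_⟩
  have : i ≤ I.sup id := Finset.le_sup (f := id) hi
  omega

theorem f1_cylW (U : Set W) (hU : IsOpen U) (v : W) (hv : v ∈ U) :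
    ∃ S : Finset (List ℕ), ∀ w : W, (∀ s ∈ S, w.1 s = v.1 s) → w ∈ U := by
  obtain ⟨O, hO, rfl⟩ := isOpen_induced_iff.mp hU
  obtain ⟨I, hI⟩ := f1_cyl O hO v.1 hv
  exact ⟨I, fun w hw => hI w.1 hw⟩

theorem f1_cylOpen {α : Type} [TopologicalSpace α] [DiscreteTopology α] (m : ℕ) (c : ℕ → α) :
    IsOpen {x : ℕ → α | ∀ i < m, x i = c i} := by
  have h : {x : ℕ → α | ∀ i < m, x i = c i} =
      Set.pi (Finset.range m : Set ℕ) (fun i => {c i}) := by
    ext x
    simp [Set.mem_pi]
  rw [h]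
  exact isOpen_set_pi (Finset.finite_toSet _) (fun i _ => isOpen_discrete _)

/-- a labelling supported on `S` can be extended by a value at a node far from `S` -/
theorem f1_upd (S : Finset (List ℕ)) (w : W) (hw : ∀ s, s ∉ S → w.1 s = false) (a : List ℕ)
    (h1 : a ∉ S) (h2 : a.tail ∉ S) (h3 : ∀ n, n :: a ∉ S) (b : Bool) :
    ∃ w' : W, (∀ s ∈ S, w'.1 s = w.1 s) ∧ (∀ s, s ∉ insert a S → w'.1 s = false) ∧
      w'.1 a = b := by
  classical
  refine ⟨⟨fun s => if s = a then b else w.1 s, ?_⟩, ?_, ?_, ?_⟩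
  · intro n s hns
    beta_reduce at hns ⊢
    by_cases h4 : n :: s = a
    · have h5 : s ∉ S := by
        have : a.tail = s := by rw [← h4]; rfl
        rw [← this]
        exact h2
      have h6 : s ≠ a := by
        intro h
        rw [h] at h4
        have := congrArg List.length h4
        simp at this
      rw [if_neg h6]
      exact hw s h5
    · rw [if_neg h4] at hns
      have h5 : n :: s ∈ S := by
        by_contra h
        rw [hw _ h] at hns
        exact Bool.false_ne_true hns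
      have h6 : s ≠ a := by
        intro h
        rw [h] at h5
        exact h3 n h5
      rw [if_neg h6]
      exact w.2 n s hns
  · intro s hs
    have : s ≠ a := by
      intro h
      rw [h] at hs
      exact h1 hs
    simp [this]
  · intro s hs
    rw [Finset.mem_insert, not_or] at hs
    simp only
    rw [if_neg hs.1]
    exact hw s hs.2
  · simp

/-- restriction of a labelling to a finite set -/
theorem f1_res (S : Finset (List ℕ)) (v : W) :
    ∃ w : W, (∀ s ∈ S, w.1 s = v.1 s) ∧ ∀ s, s ∉ S → w.1 s = false := by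
  classical
  refine ⟨⟨fun s => if s ∈ S then v.1 s else false, ?_⟩, ?_, ?_⟩
  · intro n s hns
    beta_reduce at hns ⊢
    by_cases h1 : n :: s ∈ S
    · rw [if_pos h1] at hns
      have h2 := v.2 n s hns
      by_cases h3 : s ∈ S
      · rw [if_pos h3]
        exact h2
      · rw [if_neg h3]
    · rw [if_neg h1] at hns
      exact absurd hns Bool.false_ne_true
  · intro s hs
    simp [hs]
  · intro s hs
    simp [hs]

theorem f1_key (k : ℕ → ℕ) (hk : Star k) (S : Finset (List ℕ)) (v1 v2 : W) (h₀ : ℕ → ℕ) (m : ℕ)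
    (x1 x2 : ℕ → Bool) (hS : ∀ i < m, nd (k (h₀ i)) ∈ S)
    (e1 : ∀ i < m, x1 i = v1.1 (nd (k (h₀ i)))) (e2 : ∀ i < m, x2 i = v2.1 (nd (k (h₀ i))))
    (m' : ℕ) :
    ∃ (h : ℕ → ℕ) (w1 w2 : W) (S' : Finset (List ℕ)), S ⊆ S' ∧ (∀ i < m, h i = h₀ i) ∧
      (∀ s ∈ S, w1.1 s = v1.1 s) ∧ (∀ s ∈ S, w2.1 s = v2.1 s) ∧
      (∀ s, s ∉ S' → w1.1 s = false) ∧ (∀ s, s ∉ S' → w2.1 s = false) ∧
      ∀ i < m + m', nd (k (h i)) ∈ S' ∧ w1.1 (nd (k (h i))) = x1 i ∧
        w2.1 (nd (k (h i))) = x2 i := by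
  classical
  induction m' with
  | zero =>
    obtain ⟨w1, a1, b1⟩ := f1_res S v1
    obtain ⟨w2, a2, b2⟩ := f1_res S v2
    refine ⟨h₀, w1, w2, S, Finset.Subset.refl _, fun _ _ => rfl, a1, a2, b1, b2, ?_⟩
    intro i hi
    have hi' : i < m := by omega
    exact ⟨hS i hi', (a1 _ (hS i hi')).trans (e1 i hi').symm,
      (a2 _ (hS i hi')).trans (e2 i hi').symm⟩
  | succ m' ih =>
    obtain ⟨h, w1, w2, S', hSS, hh, a1, a2, b1, b2, hx⟩ := ih
    obtain ⟨j, c1, c2, c3⟩ := hk S'
    obtain ⟨w1', d1, d1', d1''⟩ := f1_upd S' w1 b1 _ c1 c2 c3 (x1 (m + m'))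
    obtain ⟨w2', d2, d2', d2''⟩ := f1_upd S' w2 b2 _ c1 c2 c3 (x2 (m + m'))
    refine ⟨Function.update h (m + m') j, w1', w2', insert (nd (k j)) S',
      hSS.trans (Finset.subset_insert _ _), ?_, ?_, ?_, d1', d2', ?_⟩
    · intro i hi
      rw [Function.update_of_ne (by omega)]
      exact hh i hi
    · intro s hs
      rw [d1 s (hSS hs)]
      exact a1 s hs
    · intro s hs
      rw [d2 s (hSS hs)]
      exact a2 s hs
    · intro i hi
      by_cases hi2 : i = m + m'
      · subst hi2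
        rw [Function.update_self]
        exact ⟨Finset.mem_insert_self _ _, d1'', d2''⟩
      · rw [Function.update_of_ne hi2]
        obtain ⟨g1, g2, g3⟩ := hx i (by omega)
        refine ⟨Finset.mem_insert_of_mem g1, ?_, ?_⟩
        · rw [d1 _ g1]
          exact g2
        · rw [d2 _ g1]
          exact g3

theorem continuous_pt : Continuous fun p : (ℕ → ℕ) × W => pt p.1 p.2 := by
  refine continuous_pi fun n => ?_
  have h1 : Continuous fun q : ℕ × W => q.2.1 (nd q.1) := by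
    rw [continuous_prod_of_discrete_left]
    intro a
    exact (continuous_apply (nd a)).comp continuous_subtype_val
  have h2 : Continuous fun p : (ℕ → ℕ) × W => ((p.1 n, p.2) : ℕ × W) :=
    ((continuous_apply n).comp continuous_fst).prodMk continuous_snd
  exact h1.comp h2

theorem meagre_preimage {X Y : Type} [TopologicalSpace X] [TopologicalSpace Y] (f : X → Y)
    (hf : Continuous f) (h : ∀ U : Set X, IsOpen U → U.Nonempty → (interior (closure (f '' U))).Nonempty)
    (N : Set Y) (hN : IsMeagre N) : IsMeagre (f ⁻¹' N) := by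
  rw [isMeagre_iff_countable_union_isNowhereDense] at hN ⊢
  obtain ⟨T, hT1, hT2, hT3⟩ := hN
  refine ⟨(fun t => f ⁻¹' t) '' T, ?_, hT2.image _, ?_⟩
  · rintro _ ⟨t, ht, rfl⟩
    have h1 : closure (f ⁻¹' t) ⊆ f ⁻¹' (closure t) := hf.closure_preimage_subset t
    change interior (closure (f ⁻¹' t)) = ∅
    by_contra h2
    have h3 : (interior (f ⁻¹' (closure t))).Nonempty := by
      obtain ⟨x, hx⟩ := Set.nonempty_iff_ne_empty.mpr h2
      exact ⟨x, interior_mono h1 hx⟩
    have h4 := h _ isOpen_interior h3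
    have h5 : closure (f '' interior (f ⁻¹' (closure t))) ⊆ closure t := by
      apply closure_minimal _ isClosed_closure
      rintro _ ⟨x, hx, rfl⟩
      have h8 : x ∈ f ⁻¹' (closure t) := interior_subset hx
      exact h8
    have h6 : interior (closure t) = ∅ := hT1 t ht
    obtain ⟨y, hy⟩ := h4
    have h7 := interior_mono h5 hy
    rw [h6] at h7
    exact h7
  · intro x hx
    obtain ⟨t, ht, hxt⟩ := hT3 hx
    exact ⟨f ⁻¹' t, ⟨t, ht, rfl⟩, hxt⟩

theorem fact1 (k : ℕ → ℕ) (hk : Star k) (N : Set (ℕ → Bool)) (hN : IsMeagre N) :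
    IsMeagre {p : (ℕ → ℕ) × W | pt (fun n => k (p.1 n)) p.2 ∈ N} := by
  classical
  have hkc : Continuous fun h : ℕ → ℕ => fun n => k (h n) :=
    continuous_pi fun n => (continuous_of_discreteTopology (f := k)).comp (continuous_apply n)
  refine meagre_preimage (fun p : (ℕ → ℕ) × W => pt (fun n => k (p.1 n)) p.2) ?_ ?_ N hN
  · exact continuous_pt.comp ((hkc.comp continuous_fst).prodMk continuous_snd)
  · intro U hU hne
    obtain ⟨⟨h₀, v⟩, hp⟩ := hne
    obtain ⟨A, B, hA, hB, hhA, hvB, hAB⟩ := isOpen_prod_iff.mp hU h₀ v hp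
    obtain ⟨m, hm⟩ := f1_cylN A hA h₀ hhA
    obtain ⟨S₀, hS₀⟩ := f1_cylW B hB v hvB
    let S : Finset (List ℕ) := S₀ ∪ (Finset.range m).image (fun i => nd (k (h₀ i)))
    have hS : ∀ i < m, nd (k (h₀ i)) ∈ S := fun i hi =>
      Finset.mem_union_right _ (Finset.mem_image.mpr ⟨i, Finset.mem_range.mpr hi, rfl⟩)
    have hBo := f1_cylOpen m (fun i => v.1 (nd (k (h₀ i))))
    refine ⟨fun i => v.1 (nd (k (h₀ i))), ?_⟩
    refine interior_maximal ?_ hBo (fun i _ => rfl)
    intro x hx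
    rw [mem_closure_iff]
    intro O hO hxO
    obtain ⟨m', hm'⟩ := f1_cylN O hO x hxO
    obtain ⟨h, w, _w2, _S', _, hh, a1, _, _, _, hx1⟩ := f1_key k hk S v v h₀ m x x hS hx hx m'
    refine ⟨pt (fun n => k (h n)) w, hm' _ fun i hi => (hx1 i (by omega)).2.1, (h, w), ?_, rfl⟩
    exact hAB ⟨hm h hh, hS₀ w fun s hs => a1 s (Finset.mem_union_left _ hs)⟩

theorem fact2 (k : ℕ → ℕ) (hk : Star k) (N : Set ((ℕ → Bool) × (ℕ → Bool))) (hN : IsMeagre N) :
    IsMeagre {p : (ℕ → ℕ) × (W × W) |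
      (pt (fun n => k (p.1 n)) p.2.1, pt (fun n => k (p.1 n)) p.2.2) ∈ N} := by
  classical
  have hkc : Continuous fun h : ℕ → ℕ => fun n => k (h n) :=
    continuous_pi fun n => (continuous_of_discreteTopology (f := k)).comp (continuous_apply n)
  refine meagre_preimage (fun p : (ℕ → ℕ) × (W × W) =>
    (pt (fun n => k (p.1 n)) p.2.1, pt (fun n => k (p.1 n)) p.2.2)) ?_ ?_ N hN
  · exact (continuous_pt.comp ((hkc.comp continuous_fst).prodMk
      (continuous_fst.comp continuous_snd))).prodMk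
      (continuous_pt.comp ((hkc.comp continuous_fst).prodMk
      (continuous_snd.comp continuous_snd)))
  · intro U hU hne
    obtain ⟨⟨h₀, vv⟩, hp⟩ := hne
    obtain ⟨A, B, hA, hB, hhA, hvB, hAB⟩ := isOpen_prod_iff.mp hU h₀ vv hp
    obtain ⟨v1, v2⟩ := vv
    obtain ⟨B1, B2, hB1, hB2, hv1, hv2, hBB⟩ := isOpen_prod_iff.mp hB v1 v2 hvB
    obtain ⟨m, hm⟩ := f1_cylN A hA h₀ hhA
    obtain ⟨S₁, hS₁⟩ := f1_cylW B1 hB1 v1 hv1
    obtain ⟨S₂, hS₂⟩ := f1_cylW B2 hB2 v2 hv2
    let S : Finset (List ℕ) := (S₁ ∪ S₂) ∪ (Finset.range m).image (fun i => nd (k (h₀ i)))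
    have hS : ∀ i < m, nd (k (h₀ i)) ∈ S := fun i hi =>
      Finset.mem_union_right _ (Finset.mem_image.mpr ⟨i, Finset.mem_range.mpr hi, rfl⟩)
    have hBo1 := f1_cylOpen m (fun i => v1.1 (nd (k (h₀ i))))
    have hBo2 := f1_cylOpen m (fun i => v2.1 (nd (k (h₀ i))))
    refine ⟨(fun i => v1.1 (nd (k (h₀ i))), fun i => v2.1 (nd (k (h₀ i)))), ?_⟩
    refine interior_maximal ?_ (hBo1.prod hBo2) ⟨fun i _ => rfl, fun i _ => rfl⟩
    rintro ⟨x1, x2⟩ ⟨hx1, hx2⟩
    rw [mem_closure_iff]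
    intro O hO hxO
    obtain ⟨O1, O2, hO1, hO2, hxO1, hxO2, hOO⟩ := isOpen_prod_iff.mp hO x1 x2 hxO
    obtain ⟨m1, hm1⟩ := f1_cylN O1 hO1 x1 hxO1
    obtain ⟨m2, hm2⟩ := f1_cylN O2 hO2 x2 hxO2
    obtain ⟨h, w1, w2, _S', _, hh, a1, a2, _, _, hx3⟩ :=
      f1_key k hk S v1 v2 h₀ m x1 x2 hS hx1 hx2 (m1 + m2)
    refine ⟨(pt (fun n => k (h n)) w1, pt (fun n => k (h n)) w2),
      hOO ⟨hm1 _ fun i hi => (hx3 i (by omega)).2.1, hm2 _ fun i hi => (hx3 i (by omega)).2.2⟩,
      (h, (w1, w2)), ?_, rfl⟩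
    refine hAB ⟨hm h hh, hBB ⟨hS₁ w1 fun s hs => a1 s ?_, hS₂ w2 fun s hs => a2 s ?_⟩⟩
    · exact Finset.mem_union_left _ (Finset.mem_union_left _ hs)
    · exact Finset.mem_union_left _ (Finset.mem_union_right _ hs)

theorem f1_nd0 (n : ℕ) : nd (g0 n) = [0, n] := by
  unfold g0
  exact Equiv.apply_symm_apply nd _

/-- a labelling with given values at the nodes `[0, n]`, `m ≤ n` -/
theorem f1_zero (S : Finset (List ℕ)) (v : W) (m : ℕ) (hm : 1 ≤ m)
    (hS : ∀ s ∈ S, ∀ a ∈ s, a < m) (x : ℕ → Bool) :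
    ∃ w : W, (∀ s ∈ S, w.1 s = v.1 s) ∧ ∀ n, m ≤ n → w.1 [0, n] = x n := by
  classical
  refine ⟨⟨fun s => if s ∈ S then v.1 s else
    (if ∃ n, m ≤ n ∧ s = [0, n] then x (s.getD 1 0) else false), ?_⟩, ?_, ?_⟩
  · intro n s hns
    beta_reduce at hns ⊢
    by_cases h1 : n :: s ∈ S
    · rw [if_pos h1] at hns
      have h2 := v.2 n s hns
      by_cases h3 : s ∈ S
      · rw [if_pos h3]
        exact h2
      · rw [if_neg h3]
        by_cases h4 : ∃ n, m ≤ n ∧ s = [0, n]
        · exfalso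
          obtain ⟨n', h5, h6⟩ := h4
          have h7 := hS _ h1 n' (by rw [h6]; simp)
          omega
        · rw [if_neg h4]
    · rw [if_neg h1] at hns
      by_cases h2 : ∃ n', m ≤ n' ∧ n :: s = [0, n']
      · obtain ⟨n', h3, h4⟩ := h2
        have h5 : s = [n'] := by
          have := congrArg List.tail h4
          simpa using this
        have h6 : s ∉ S := by
          intro h
          have h7 := hS _ h n' (by rw [h5]; simp)
          omega
        have h7 : ¬ ∃ n, m ≤ n ∧ s = [0, n] := by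
          rintro ⟨n'', -, h8⟩
          rw [h5] at h8
          have := congrArg List.length h8
          simp at this
        rw [if_neg h6, if_neg h7]
      · rw [if_neg h2] at hns
        exact absurd hns Bool.false_ne_true
  · intro s hs
    simp [hs]
  · intro n hn
    have h1 : ([0, n] : List ℕ) ∉ S := by
      intro h
      have := hS _ h n (by simp)
      omega
    have h2 : ∃ n', m ≤ n' ∧ ([0, n] : List ℕ) = [0, n'] := ⟨n, hn, rfl⟩
    simp only
    rw [if_neg h1, if_pos h2]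
    rfl

theorem fact0 (R : Set (ℕ → Bool)) (hR : MeasurableSet R) (h : IsMeagre {w : W | pt g0 w ∈ R}) :
    IsMeagre R := by
  classical
  have hφ : Continuous fun w : W => pt g0 w :=
    continuous_pt.comp (continuous_const.prodMk continuous_id)
  -- values of the bound of a finite set of nodes
  have hbound : ∀ S : Finset (List ℕ), ∃ m : ℕ, 1 ≤ m ∧ ∀ s ∈ S, ∀ a ∈ s, a < m := by
    intro S
    refine ⟨S.sup (fun s => s.sum) + 1, by omega, fun s hs a ha => ?_⟩
    have h1 : a ≤ s.sum := List.le_sum_of_mem ha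
    have h2 : s.sum ≤ S.sup (fun s => s.sum) := Finset.le_sup (f := fun s : List ℕ => s.sum) hs
    omega
  have hsd : ∀ U : Set W, IsOpen U → U.Nonempty →
      (interior (closure ((fun w : W => pt g0 w) '' U))).Nonempty := by
    rintro U hU ⟨v, hv⟩
    obtain ⟨S₀, hS₀⟩ := f1_cylW U hU v hv
    obtain ⟨m, hm1, hm⟩ := hbound S₀
    let S : Finset (List ℕ) := S₀ ∪ (Finset.range m).image (fun i => ([0, i] : List ℕ))
    have hS : ∀ s ∈ S, ∀ a ∈ s, a < m := by
      intro s hs a ha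
      rcases Finset.mem_union.mp hs with h1 | h1
      · exact hm s h1 a ha
      · obtain ⟨i, hi, rfl⟩ := Finset.mem_image.mp h1
        have := Finset.mem_range.mp hi
        simp only [List.mem_cons, List.not_mem_nil, or_false] at ha
        rcases ha with rfl | rfl <;> omega
    have hBo := f1_cylOpen m (fun i => v.1 [0, i])
    refine ⟨fun i => v.1 [0, i], interior_maximal ?_ hBo (fun i _ => rfl)⟩
    intro x hx
    apply subset_closure
    obtain ⟨w, hw1, hw2⟩ := f1_zero S v m hm1 hS x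
    refine ⟨w, hS₀ w fun s hs => hw1 s (Finset.mem_union_left _ hs), ?_⟩
    funext n
    change w.1 (nd (g0 n)) = x n
    rw [f1_nd0]
    by_cases hn : n < m
    · rw [hw1 _ (Finset.mem_union_right _
        (Finset.mem_image.mpr ⟨n, Finset.mem_range.mpr hn, rfl⟩))]
      exact (hx n hn).symm
    · exact hw2 n (not_lt.mp hn)
  by_contra hcon
  obtain ⟨U, hU, hRU⟩ := hR.baireMeasurableSet.residualEq_isOpen
  have hUR : IsMeagre (U \ R) := by
    have h1 : {x | R x = U x} ∈ residual (ℕ → Bool) := hRU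
    change (U \ R)ᶜ ∈ residual (ℕ → Bool)
    refine Filter.mem_of_superset h1 ?_
    intro x hx hx2
    have h2 : R x = U x := hx
    have h3 : R x := by rw [h2]; exact hx2.1
    exact hx2.2 h3
  have hRU2 : IsMeagre (R \ U) := by
    have h1 : {x | R x = U x} ∈ residual (ℕ → Bool) := hRU
    change (R \ U)ᶜ ∈ residual (ℕ → Bool)
    refine Filter.mem_of_superset h1 ?_
    intro x hx hx2
    have h2 : R x = U x := hx
    have h3 : U x := by rw [← h2]; exact hx2.1
    exact hx2.2 h3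
  have hUne : U.Nonempty := by
    by_contra h1
    rw [Set.not_nonempty_iff_eq_empty] at h1
    rw [h1, Set.sdiff_empty] at hRU2
    exact hcon hRU2
  obtain ⟨u, hu⟩ := hUne
  have h1 : IsMeagre ((fun w : W => pt g0 w) ⁻¹' (U \ R)) :=
    meagre_preimage _ hφ hsd _ hUR
  have h2 : IsMeagre ((fun w : W => pt g0 w) ⁻¹' U) := by
    refine (h1.union h).mono ?_
    intro w hw
    by_cases h3 : pt g0 w ∈ R
    · exact Or.inr h3
    · exact Or.inl ⟨hw, h3⟩
  refine not_isMeagre_of_isOpen (hU.preimage hφ) ?_ h2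
  -- a labelling mapped to `u`
  obtain ⟨w', hw'⟩ : ∃ w' : W, pt g0 w' = u := by
    refine ⟨⟨fun s => if ∃ n, s = [0, n] then u (s.getD 1 0) else false, ?_⟩, ?_⟩
    · intro n s hns
      beta_reduce at hns ⊢
      by_cases h3 : ∃ n', n :: s = [0, n']
      · obtain ⟨n', h4⟩ := h3
        have h5 : s = [n'] := by
          have := congrArg List.tail h4
          simpa using this
        have h7 : ¬ ∃ n, s = [0, n] := by
          rintro ⟨n'', h8⟩
          rw [h5] at h8
          have := congrArg List.length h8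
          simp at this
        rw [if_neg h7]
      · rw [if_neg h3] at hns
        exact absurd hns Bool.false_ne_true
    · funext n
      change (if ∃ n', nd (g0 n) = [0, n'] then u ((nd (g0 n)).getD 1 0) else false) = u n
      rw [f1_nd0, if_pos ⟨n, rfl⟩]
      rfl
  refine ⟨w', ?_⟩
  change pt g0 w' ∈ U
  rw [hw']
  exact hu

end Pool.Agent.H507_U
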