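import Mathlib
import Pool.Agent.H507_U.Defs
import Pool.Agent.H507_U.PosDefs

/-!
The rank argument.
-/

set_option autoImplicit false

namespace Pool.Agent.H507_U

open Set

/-- the basic clopen sets -/
def Bc (n : ℕ) : Set (ℕ → Bool) := {z | z n = true}

/-! ### auxiliary lemmas -/

theorem nb_isOpen (S : Finset (List ℕ)) (v : W) : IsOpen (nb S v) := by
  have h : nb S v = ⋂ s ∈ S, {w : W | w.1 s = v.1 s} := by
    ext w; simp [nb]
  rw [h]
  refine isOpen_biInter_finset fun s _ => ?_
  have h2 : {w : W | w.1 s = v.1 s} = (fun w : W => w.1 s) ⁻¹' {v.1 s} := rfl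
  rw [h2]
  exact (isOpen_discrete _).preimage ((continuous_apply s).comp continuous_subtype_val)

theorem mem_nb_self (S : Finset (List ℕ)) (v : W) : v ∈ nb S v := fun _ _ => rfl

theorem nb_basis {U : Set W} (hU : IsOpen U) {w : W} (hw : w ∈ U) :
    ∃ S : Finset (List ℕ), nb S w ⊆ U := by
  obtain ⟨V, hV, rfl⟩ := isOpen_induced_iff.mp hU
  obtain ⟨I, u, hu1, hu2⟩ := isOpen_pi_iff.mp hV w.1 hw
  refine ⟨I, fun z hz => hu2 ?_⟩
  intro s hs
  have h1 := hz s hs
  show z.1 s ∈ u s
  rw [h1]
  exact (hu1 s hs).2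

theorem nb_not_meagre (S : Finset (List ℕ)) (v : W) : ¬ IsMeagre (nb S v) :=
  not_isMeagre_of_isOpen (nb_isOpen S v) ⟨v, mem_nb_self S v⟩

theorem Bc_measurable (n : ℕ) : MeasurableSet (Bc n) := by
  have : Bc n = (fun z : ℕ → Bool => z n) ⁻¹' {true} := rfl
  rw [this]
  exact (measurable_pi_apply n) (measurableSet_singleton _)

theorem alg_measurable {C : Set (ℕ → Bool)}
    (h : C ∈ MeasureTheory.generateSetAlgebra (range Bc)) : MeasurableSet C := by
  induction h with
  | base s hs => obtain ⟨n, rfl⟩ := hs; exact Bc_measurable n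
  | empty => exact MeasurableSet.empty
  | compl s _ ih => exact ih.compl
  | union s t _ _ ihs iht => exact ihs.union iht

theorem sig_measurable {α : Ordinal.{0}} {C : Set (ℕ → Bool)} (h : Sig Bc α C) :
    MeasurableSet C := by
  induction h with
  | zero h => exact alg_measurable h
  | pos hα β hβ S h ih => exact MeasurableSet.iUnion fun n => (ih n).compl

theorem alg_finite {C : Set (ℕ → Bool)}
    (h : C ∈ MeasureTheory.generateSetAlgebra (range Bc)) :
    ∃ F : Finset ℕ, ∀ x y : ℕ → Bool, (∀ i ∈ F, x i = y i) → (x ∈ C ↔ y ∈ C) := by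
  induction h with
  | base s hs =>
    obtain ⟨n, rfl⟩ := hs
    refine ⟨{n}, fun x y hxy => ?_⟩
    have := hxy n (by simp)
    simp [Bc, this]
  | empty => exact ⟨∅, fun x y _ => by simp⟩
  | compl s _ ih =>
    obtain ⟨F, hF⟩ := ih
    exact ⟨F, fun x y hxy => by simp only [mem_compl_iff]; rw [hF x y hxy]⟩
  | union s t _ _ ihs iht =>
    obtain ⟨F, hF⟩ := ihs
    obtain ⟨G, hG⟩ := iht
    refine ⟨F ∪ G, fun x y hxy => ?_⟩
    have h1 := hF x y (fun i hi => hxy i (Finset.mem_union_left _ hi))
    have h2 := hG x y (fun i hi => hxy i (Finset.mem_union_right _ hi))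
    simp only [mem_union]
    rw [h1, h2]

theorem pt_continuous (g : ℕ → ℕ) : Continuous (pt g) := by
  refine continuous_pi fun n => ?_
  exact (continuous_apply (nd (g n))).comp continuous_subtype_val

theorem pt_measurable (g : ℕ → ℕ) : Measurable (pt g) := (pt_continuous g).measurable

/-- localisation: a measurable nonmeagre part of a basic open set contains a basic open set up to
a meagre set -/
theorem local_force {D : Set W} (hD : MeasurableSet D) (S : Finset (List ℕ)) (v : W)
    (h : ¬ IsMeagre (nb S v ∩ D)) :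
    ∃ (S₁ : Finset (List ℕ)) (v₁ : W), nb S₁ v₁ ⊆ nb S v ∧ IsMeagre (nb S₁ v₁ \ D) := by
  obtain ⟨U, hU, hDU⟩ := hD.residualEq_isOpen
  have hm : IsMeagre {w | ¬ (w ∈ D ↔ w ∈ U)} := by
    have h1 := Filter.eventuallyEq_set.mp hDU
    have h2 : {w | ¬ (w ∈ D ↔ w ∈ U)}ᶜ ∈ residual W := by
      filter_upwards [h1] with w hw
      simpa using hw
    exact h2
  have hne : (nb S v ∩ U).Nonempty := by
    by_contra hcon
    rw [not_nonempty_iff_eq_empty] at hcon
    apply h
    refine hm.mono ?_
    rintro w ⟨hw1, hw2⟩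
    simp only [mem_setOf_eq]
    intro hiff
    have : w ∈ nb S v ∩ U := ⟨hw1, hiff.mp hw2⟩
    rw [hcon] at this
    exact this
  obtain ⟨v₁, hv₁⟩ := hne
  obtain ⟨S₁, hS₁⟩ := nb_basis ((nb_isOpen S v).inter hU) hv₁
  refine ⟨S₁, v₁, fun w hw => (hS₁ hw).1, hm.mono ?_⟩
  rintro w ⟨hw1, hw2⟩
  simp only [mem_setOf_eq]
  intro hiff
  exact hw2 (hiff.mpr (hS₁ hw1).2)

theorem rk_child_lt (f : ℕ → Tr) (n : ℕ) : rk (f n) < rk (Tr.node f) := by
  have h1 : Order.succ (rk (f n)) ≤ rk (Tr.node f) := by
    show _ ≤ ⨆ n, Order.succ (rk (f n))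
    exact Ordinal.le_iSup (fun n => Order.succ (rk (f n))) n
  exact lt_of_lt_of_le (Order.lt_succ _) h1

theorem sub_cons (T : Tr) (n : ℕ) (s : List ℕ) : sub T (n :: s) = match sub T s with
    | some (Tr.node f) => some (f n)
    | _ => none := rfl

theorem lab_cons_le (T : Tr) (n : ℕ) (s : List ℕ) : lab T (n :: s) ≤ lab T s := by
  unfold lab
  rw [sub_cons]
  rcases h : sub T s with _ | T'
  · simp
  · cases T' with
    | leaf => simp
    | node f => exact (rk_child_lt f n).le

theorem norm_sub (T : Tr) (hT : Norm T) (s : List ℕ) : ∀ T', sub T s = some T' → Norm T' := by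
  induction s with
  | nil => intro T' h; simp only [sub, Option.some.injEq] at h; rwa [← h]
  | cons n s ih =>
    intro T' h
    rw [sub_cons] at h
    rcases h2 : sub T s with _ | T''
    · rw [h2] at h; simp at h
    · cases T'' with
      | leaf => rw [h2] at h; simp at h
      | node f =>
        rw [h2] at h
        simp only [Option.some.injEq] at h
        have := ih _ h2
        rw [← h]
        exact this.1 n

theorem lab_finite (T : Tr) (hT : Norm T) (s : List ℕ) (β : Ordinal.{0}) (h : β < lab T s) :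
    {n | lab T (n :: s) < β}.Finite := by
  rcases h2 : sub T s with _ | T'
  · exfalso
    unfold lab at h
    rw [h2] at h
    exact not_lt_bot h
  · cases T' with
    | leaf =>
      exfalso
      unfold lab at h
      rw [h2] at h
      simp only [rk] at h
      exact not_lt_bot h
    | node f =>
      have h3 := norm_sub T hT s _ h2
      have h4 : lab T s = rk (Tr.node f) := by unfold lab; rw [h2]
      have h5 : ∀ n, lab T (n :: s) = rk (f n) := by
        intro n; unfold lab; rw [sub_cons, h2]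
      simp only [h5]
      exact h3.2 β (h4 ▸ h)

theorem ext_lemma (T : Tr) (hT : Norm T) (β : Ordinal.{0}) (S : Finset (List ℕ)) (v : W) :
    ∃ (S' : Finset (List ℕ)) (v' : W), (∀ s ∈ S', lab T s ≤ β) ∧ (nb S v ∩ nb S' v').Nonempty ∧
      ∀ (S'' : Finset (List ℕ)) (v'' : W), (∀ s ∈ S'', lab T s < β) →
        (nb S' v' ∩ nb S'' v'').Nonempty → (nb S v ∩ nb S'' v'').Nonempty := by
  classical
  have hfin : ∀ t : List ℕ, {s : List ℕ | ∃ n, s = n :: t ∧ β < lab T t ∧
      lab T (n :: t) < β}.Finite := by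
    intro t
    by_cases ht : β < lab T t
    · refine ((lab_finite T hT t β ht).image (fun n => n :: t)).subset ?_
      rintro s ⟨n, rfl, -, h⟩
      exact ⟨n, h, rfl⟩
    · refine (finite_empty).subset ?_
      rintro s ⟨n, rfl, h, -⟩
      exact (ht h).elim
  have hfin2 : (⋃ t ∈ S, {s : List ℕ | ∃ n, s = n :: t ∧ β < lab T t ∧
      lab T (n :: t) < β}).Finite := S.finite_toSet.biUnion fun t _ => hfin t
  let S₂ : Finset (List ℕ) := hfin2.toFinset.filter (fun s => ∃ n t, s = n :: t ∧ v.1 t = true)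
  let S' : Finset (List ℕ) := S.filter (fun s => lab T s ≤ β) ∪ S₂
  have memS2 : ∀ n t, t ∈ S → v.1 t = true → β < lab T t → lab T (n :: t) < β →
      n :: t ∈ S' := by
    intro n t h1 h2 h3 h4
    refine Finset.mem_union_right _ (Finset.mem_filter.mpr ⟨?_, n, t, rfl, h2⟩)
    rw [Set.Finite.mem_toFinset]
    simp only [mem_iUnion]
    exact ⟨t, h1, n, rfl, h3, h4⟩
  have memS1 : ∀ s, s ∈ S → lab T s ≤ β → s ∈ S' := by
    intro s h1 h2
    exact Finset.mem_union_left _ (Finset.mem_filter.mpr ⟨h1, h2⟩)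
  refine ⟨S', v, ?_, ⟨v, mem_nb_self _ _, mem_nb_self _ _⟩, ?_⟩
  · intro s hs
    rcases Finset.mem_union.mp hs with hs | hs
    · exact (Finset.mem_filter.mp hs).2
    · have h1 := (Finset.mem_filter.mp hs).1
      rw [Set.Finite.mem_toFinset] at h1
      simp only [mem_iUnion] at h1
      obtain ⟨t, ht, n, rfl, h3, h4⟩ := h1
      exact h4.le
  · intro S'' v'' hS'' hne
    obtain ⟨w, hw1, hw2⟩ := hne
    have key : ∀ s, s ∈ S → s ∈ S'' → w.1 s = v.1 s := fun s h1 h2 =>
      hw1 s (memS1 s h1 (hS'' s h2).le)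
    let f : List ℕ → Bool := fun s => if s ∈ S'' then w.1 s else if s ∈ S then v.1 s else false
    have fS : ∀ s ∈ S, f s = v.1 s := by
      intro s hs
      by_cases h : s ∈ S''
      · simp only [f, h, if_true]; exact key s hs h
      · simp only [f, h, if_false, hs, if_true]
    have fS'' : ∀ s ∈ S'', f s = w.1 s := by
      intro s hs
      simp only [f, hs, if_true]
    have fN : ∀ s, s ∉ S → s ∉ S'' → f s = false := by
      intro s h1 h2
      simp only [f, h1, h2, if_false]
    have hf : ∀ n s, f (n :: s) = true → f s = false := by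
      intro n t hnt
      by_contra hcon
      have ht : f t = true := by simpa using hcon
      by_cases a1 : n :: t ∈ S''
      · by_cases b1 : t ∈ S''
        · rw [fS'' _ a1] at hnt
          rw [fS'' _ b1] at ht
          have := w.2 n t hnt
          rw [ht] at this; simp at this
        · by_cases b2 : t ∈ S
          · rw [fS'' _ a1] at hnt
            have htv : v.1 t = true := by rw [← fS t b2]; exact ht
            by_cases c1 : lab T t ≤ β
            · have h1 : w.1 t = v.1 t := hw1 t (memS1 t b2 c1)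
              have h2 := w.2 n t hnt
              rw [h1, htv] at h2; simp at h2
            · have h1 : w.1 (n :: t) = v.1 (n :: t) :=
                hw1 _ (memS2 n t b2 htv (not_le.mp c1) (hS'' _ a1))
              rw [h1] at hnt
              have h2 := v.2 n t hnt
              rw [htv] at h2; simp at h2
          · rw [fN t b2 b1] at ht; simp at ht
      · by_cases a2 : n :: t ∈ S
        · have hntv : v.1 (n :: t) = true := by rw [← fS _ a2]; exact hnt
          by_cases b1 : t ∈ S''
          · rw [fS'' _ b1] at ht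
            have h1 : lab T (n :: t) ≤ β := (lab_cons_le T n t).trans (hS'' t b1).le
            have h2 : w.1 (n :: t) = v.1 (n :: t) := hw1 _ (memS1 _ a2 h1)
            rw [hntv] at h2
            have h3 := w.2 n t h2
            rw [ht] at h3; simp at h3
          · by_cases b2 : t ∈ S
            · rw [fS t b2] at ht
              have h3 := v.2 n t hntv
              rw [ht] at h3; simp at h3
            · rw [fN t b2 b1] at ht; simp at ht
        · rw [fN _ a2 a1] at hnt; simp at hnt
    refine ⟨⟨f, hf⟩, fun s hs => fS s hs, fun s hs => ?_⟩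
    show f s = v''.1 s
    rw [fS'' s hs]
    exact hw2 s hs

theorem rank_main (T : Tr) (hT : Norm T) (g : ℕ → ℕ) (hg : ∀ n, lab T (nd (g n)) = 0)
    (β : Ordinal.{0}) (C : Set (ℕ → Bool)) (hC : Sig Bc β C) (S : Finset (List ℕ)) (v : W)
    (h : IsMeagre (nb S v \ pt g ⁻¹' C)) :
    ∃ (S' : Finset (List ℕ)) (v' : W), (∀ s ∈ S', lab T s ≤ β) ∧ (nb S v ∩ nb S' v').Nonempty ∧
      IsMeagre (nb S' v' \ pt g ⁻¹' C) := by
  classical
  induction hC generalizing S v with
  | zero hC =>
    rename_i C
    obtain ⟨F, hF⟩ := alg_finite hC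
    let S' : Finset (List ℕ) := F.image fun i => nd (g i)
    have hex : ∃ w ∈ nb (S ∪ S') v, pt g w ∈ C := by
      by_contra hcon
      push Not at hcon
      apply nb_not_meagre (S ∪ S') v
      refine h.mono ?_
      intro w hw
      exact ⟨fun s hs => hw s (Finset.mem_union_left _ hs), hcon w hw⟩
    obtain ⟨w, hw1, hw2⟩ := hex
    have hval : ∀ z ∈ nb S' v, pt g z ∈ C := by
      intro z hz
      refine (hF (pt g z) (pt g w) ?_).mpr hw2
      intro i hi
      have h1 : nd (g i) ∈ S' := Finset.mem_image_of_mem _ hi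
      show z.1 (nd (g i)) = w.1 (nd (g i))
      rw [hz _ h1, hw1 _ (Finset.mem_union_right _ h1)]
    refine ⟨S', v, ?_, ⟨v, mem_nb_self _ _, mem_nb_self _ _⟩, ?_⟩
    · intro s hs
      obtain ⟨i, _, rfl⟩ := Finset.mem_image.mp hs
      exact (hg i).le
    · have : nb S' v \ pt g ⁻¹' C = ∅ := by
        ext z
        simp only [mem_diff, mem_preimage, mem_empty_iff_false, iff_false, not_and, not_not]
        exact hval z
      rw [this]
      exact IsMeagre.empty
  | pos hα β' hβ' C' hC' ih =>
    rename_i α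
    have hmeas : ∀ i, MeasurableSet (pt g ⁻¹' (C' i)) := fun i =>
      pt_measurable g (sig_measurable (hC' i))
    have hex : ∃ i, ¬ IsMeagre (nb S v ∩ (pt g ⁻¹' (C' i))ᶜ) := by
      by_contra hcon
      push Not at hcon
      apply nb_not_meagre S v
      refine (h.union (isMeagre_iUnion hcon)).mono ?_
      intro w hw
      by_cases h1 : w ∈ pt g ⁻¹' (⋃ n, (C' n)ᶜ)
      · right
        simp only [mem_preimage, mem_iUnion] at h1
        obtain ⟨i, hi⟩ := h1
        exact mem_iUnion.mpr ⟨i, hw, hi⟩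
      · left
        exact ⟨hw, h1⟩
    obtain ⟨i, hi⟩ := hex
    obtain ⟨S₁, v₁, hsub, hforce⟩ := local_force (hmeas i).compl S v hi
    obtain ⟨S', v', hlab, hcomp, hext⟩ := ext_lemma T hT (Order.succ (β' i)) S₁ v₁
    have hclaim : IsMeagre (nb S' v' ∩ pt g ⁻¹' (C' i)) := by
      by_contra hcon
      obtain ⟨S₂, v₂, hsub2, hforce2⟩ := local_force (hmeas i) S' v' hcon
      obtain ⟨S₃, v₃, hlab3, hcomp3, hforce3⟩ := ih i S₂ v₂ hforce2
      have hne : (nb S₁ v₁ ∩ nb S₃ v₃).Nonempty := by
        apply hext S₃ v₃ (fun s hs => lt_of_le_of_lt (hlab3 s hs) (Order.lt_succ _))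
        obtain ⟨w, h1, h2⟩ := hcomp3
        exact ⟨w, hsub2 h1, h2⟩
      apply not_isMeagre_of_isOpen ((nb_isOpen S₁ v₁).inter (nb_isOpen S₃ v₃)) hne
      refine (hforce.union hforce3).mono ?_
      rintro w ⟨h1, h2⟩
      by_cases h3 : w ∈ pt g ⁻¹' (C' i)
      · left
        exact ⟨h1, fun h4 => h4 h3⟩
      · right
        exact ⟨h2, h3⟩
    refine ⟨S', v', fun s hs => (hlab s hs).trans (Order.succ_le_of_lt (hβ' i)), ?_, ?_⟩
    · obtain ⟨w, h1, h2⟩ := hcomp
      exact ⟨w, hsub h1, h2⟩
    · refine hclaim.mono ?_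
      rintro w ⟨h1, h2⟩
      refine ⟨h1, ?_⟩
      by_contra h3
      apply h2
      simp only [mem_preimage, mem_iUnion]
      exact ⟨i, h3⟩

theorem rank_final (T : Tr) (hT : Norm T) (g : ℕ → ℕ) (hg : ∀ n, lab T (nd (g n)) = 0)
    (β : Ordinal.{0}) (hβ : β < rk T) (C : Set (ℕ → Bool)) (hC : Sig Bc β C) :
    ¬ IsMeagre {w : W | ¬ (pt g w ∈ C ↔ w.1 [] = true)} := by
  classical
  intro hm
  let f : List ℕ → Bool := fun s => decide (s = [])
  have hf : ∀ n s, f (n :: s) = true → f s = false := by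
    intro n s h
    simp [f] at h
  let v : W := ⟨f, hf⟩
  have hv : v.1 [] = true := by simp [v, f]
  have h0 : IsMeagre (nb {[]} v \ pt g ⁻¹' C) := by
    refine hm.mono ?_
    rintro w ⟨h1, h2⟩
    have h3 : w.1 [] = true := by rw [h1 [] (by simp)]; exact hv
    simp only [mem_setOf_eq]
    intro h4
    exact h2 (h4.mpr h3)
  obtain ⟨S', v', hlab, -, hforce⟩ := rank_main T hT g hg β C hC {[]} v h0
  have hnil : ([] : List ℕ) ∉ S' := by
    intro h
    have h1 := hlab _ h
    have h2 : lab T [] = rk T := rfl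
    rw [h2] at h1
    exact absurd hβ (not_lt.mpr h1)
  let f₂ : List ℕ → Bool := fun s => if s ∈ S' then v'.1 s else false
  have hf₂ : ∀ n s, f₂ (n :: s) = true → f₂ s = false := by
    intro n s h
    by_cases h1 : n :: s ∈ S'
    · by_cases h2 : s ∈ S'
      · simp only [f₂, h1, h2, if_true] at h ⊢
        exact v'.2 n s h
      · simp only [f₂, h2, if_false]
    · simp only [f₂, h1, if_false] at h
      simp at h
  let w₀ : W := ⟨f₂, hf₂⟩
  have hsub : nb (S' ∪ {[]}) w₀ ⊆ nb S' v' := by
    intro w hw s hs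
    rw [hw s (Finset.mem_union_left _ hs)]
    show f₂ s = v'.1 s
    simp only [f₂, hs, if_true]
  have hnil2 : ∀ w ∈ nb (S' ∪ {[]}) w₀, w.1 [] = false := by
    intro w hw
    rw [hw [] (Finset.mem_union_right _ (by simp))]
    show f₂ [] = false
    simp only [f₂, hnil, if_false]
  apply nb_not_meagre (S' ∪ {[]}) w₀
  refine (hforce.union hm).mono ?_
  intro w hw
  by_cases h1 : w ∈ pt g ⁻¹' C
  · right
    simp only [mem_setOf_eq]
    intro h2
    have h3 := h2.mp h1
    rw [hnil2 w hw] at h3
    simp at h3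
  · left
    exact ⟨hsub hw, h1⟩

end Pool.Agent.H507_U
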