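import Mathlib
import Pool.Agent.H507_U.PosDefs

/-!
Trees.
-/

set_option autoImplicit false

namespace Pool.Agent.H507_U

open Set

/-! ### auxiliary lemmas -/

theorem r2_sub_append (f : ℕ → Tr) (n : ℕ) (s : List ℕ) :
    sub (Tr.node f) (s ++ [n]) = sub (f n) s := by
  induction s with
  | nil => simp [sub]
  | cons m s ih =>
    rw [List.cons_append]
    simp only [sub, ih]

theorem r2_leaf_append (f : ℕ → Tr) (n : ℕ) (s : List ℕ) :
    IsLeaf (Tr.node f) (s ++ [n]) ↔ IsLeaf (f n) s := by
  unfold IsLeaf; rw [r2_sub_append]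

theorem r2_has_leaf (T : Tr) : ∃ s, IsLeaf T s := by
  induction T with
  | leaf => exact ⟨[], rfl⟩
  | node f ih =>
    obtain ⟨s, hs⟩ := ih 0
    exact ⟨s ++ [0], (r2_leaf_append f 0 s).2 hs⟩

theorem r2_countable (α : Ordinal.{0}) (hα : α < Ordinal.omega 1) : Countable (Set.Iio α) := by
  rw [← Cardinal.mk_le_aleph0_iff, Cardinal.mk_Iio_ordinal, ← Cardinal.lift_aleph0.{1, 0},
    Cardinal.lift_le]
  have h1 : α.card < Cardinal.aleph 1 := Cardinal.lt_omega_iff_card_lt.1 hα
  rw [← Cardinal.succ_aleph0, Order.lt_succ_iff] at h1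
  exact h1

/-- running maximum -/
noncomputable def r2_max (a : ℕ → Ordinal.{0}) : ℕ → Ordinal.{0}
  | 0 => a 0
  | (n + 1) => max (r2_max a n) (a (n + 1))

theorem r2_max_mono (a : ℕ → Ordinal.{0}) : Monotone (r2_max a) :=
  monotone_nat_of_le_succ fun n => by
    show r2_max a n ≤ max (r2_max a n) (a (n + 1))
    exact le_max_left _ _

theorem r2_le_max (a : ℕ → Ordinal.{0}) (n : ℕ) : a n ≤ r2_max a n := by
  cases n with
  | zero => exact le_refl _
  | succ n => exact le_max_right _ _

theorem r2_max_lt (a : ℕ → Ordinal.{0}) (α : Ordinal.{0}) (h : ∀ n, a n < α) (n : ℕ) :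
    r2_max a n < α := by
  induction n with
  | zero => exact h 0
  | succ n ih => exact max_lt ih (h (n + 1))

theorem exists_tree (α : Ordinal.{0}) (hα : α < Ordinal.omega 1) : ∃ T : Tr, Norm T ∧ rk T = α := by
  induction α using WellFoundedLT.induction with
  | ind α IH =>
    by_cases h0 : α = 0
    · exact ⟨Tr.leaf, trivial, by rw [h0]; rfl⟩
    · have hpos : 0 < α := by
        rw [pos_iff_ne_zero]; exact h0
      have hc := r2_countable α hα
      have hn : Nonempty (Set.Iio α) := ⟨⟨0, hpos⟩⟩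
      obtain ⟨e, he⟩ := exists_surjective_nat (Set.Iio α)
      set a : ℕ → Ordinal.{0} := fun n => (e n : Ordinal.{0}) with ha
      have ha1 : ∀ n, a n < α := fun n => (e n).2
      have ha2 : ∀ β, β < α → ∃ m, a m = β := fun β hβ => by
        obtain ⟨m, hm⟩ := he ⟨β, hβ⟩
        exact ⟨m, congrArg Subtype.val hm⟩
      have hγ : ∀ n, ∃ T : Tr, Norm T ∧ rk T = r2_max a n := fun n =>
        IH _ (r2_max_lt a α ha1 n) ((r2_max_lt a α ha1 n).trans hα)
      choose f hf1 hf2 using hγ
      have hbd : BddAbove (Set.range fun n => Order.succ (rk (f n))) := by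
        refine ⟨α, ?_⟩
        rintro _ ⟨n, rfl⟩
        simp only [hf2]
        exact Order.succ_le_of_lt (r2_max_lt a α ha1 n)
      have hrk : rk (Tr.node f) = α := by
        show (⨆ n, Order.succ (rk (f n))) = α
        apply le_antisymm
        · apply ciSup_le
          intro n
          rw [hf2]
          exact Order.succ_le_of_lt (r2_max_lt a α ha1 n)
        · by_contra hcon
          rw [not_le] at hcon
          obtain ⟨m, hm⟩ := ha2 _ hcon
          have h1 : Order.succ (rk (f m)) ≤ ⨆ n, Order.succ (rk (f n)) := le_ciSup hbd m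
          rw [hf2] at h1
          have h2 : a m < Order.succ (r2_max a m) := Order.lt_succ_of_le (r2_le_max a m)
          rw [hm] at h2
          exact absurd (h2.trans_le h1) (lt_irrefl _)
      refine ⟨Tr.node f, ⟨hf1, fun β hβ => ?_⟩, hrk⟩
      rw [hrk] at hβ
      obtain ⟨m, hm⟩ := ha2 β hβ
      refine (Set.finite_Iio m).subset ?_
      intro n hn
      simp only [Set.mem_ofPred_eq, hf2] at hn
      by_contra hcon
      rw [Set.mem_Iio, not_lt] at hcon
      have h1 : a m ≤ r2_max a n := (r2_le_max a m).trans (r2_max_mono a hcon)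
      rw [hm] at h1
      exact absurd hn (not_lt.2 h1)

theorem exists_leaf_enum (T : Tr) : ∃ k : ℕ → ℕ, (∀ n, IsLeaf T (nd (k n))) ∧
    ∀ s, IsLeaf T s → ∃ n, nd (k n) = s := by
  have hn : Nonempty {s // IsLeaf T s} := by
    obtain ⟨s, hs⟩ := r2_has_leaf T
    exact ⟨⟨s, hs⟩⟩
  obtain ⟨e, he⟩ := exists_surjective_nat {s // IsLeaf T s}
  refine ⟨fun n => nd.symm (e n), fun n => ?_, fun s hs => ?_⟩
  · simp only [Equiv.apply_symm_apply]
    exact (e n).2
  · obtain ⟨n, hn⟩ := he ⟨s, hs⟩
    refine ⟨n, ?_⟩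
    simp only [Equiv.apply_symm_apply, hn]

theorem star_of_leaves (T : Tr) (hT : Norm T) (h2 : 2 ≤ rk T) (k : ℕ → ℕ)
    (hk : ∀ s, IsLeaf T s → ∃ n, nd (k n) = s) : Star k := by
  classical
  intro S
  have h1lt : (1 : Ordinal.{0}) < 2 := one_lt_two
  cases T with
  | leaf =>
    exfalso
    have h3 : (2 : Ordinal.{0}) ≤ 0 := h2
    exact absurd (h1lt.trans_le h3) (not_lt.2 (zero_le))
  | node f =>
    have hfin : {n | rk (f n) < 1}.Finite := hT.2 1 (h1lt.trans_le h2)
    have hfin2 : {n : ℕ | ∃ s ∈ S, s.getLast? = some n}.Finite := by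
      refine ((S.image List.getLast?).finite_toSet.preimage
        (f := fun n : ℕ => some n) (Option.some_injective _).injOn).subset ?_
      rintro n ⟨s, hs, hn⟩
      simp only [Set.mem_preimage, Finset.coe_image, Set.mem_image, Finset.mem_coe]
      exact ⟨s, hs, hn⟩
    obtain ⟨n, hn⟩ := (hfin.union hfin2).exists_notMem
    have hn1 : ¬ rk (f n) < 1 := fun h => hn (Or.inl h)
    have hn2 : ∀ s ∈ S, s.getLast? ≠ some n := fun s hs h => hn (Or.inr ⟨s, hs, h⟩)
    obtain ⟨f', hf'⟩ : ∃ f', f n = Tr.node f' := by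
      cases hfn : f n with
      | leaf =>
        exfalso
        apply hn1
        rw [hfn]
        exact zero_lt_one
      | node f' => exact ⟨f', rfl⟩
    obtain ⟨s0, hs0⟩ := r2_has_leaf (f' 0)
    have hleaf : IsLeaf (Tr.node f) ((s0 ++ [0]) ++ [n]) := by
      rw [r2_leaf_append, hf', r2_leaf_append]
      exact hs0
    obtain ⟨j, hj⟩ := hk _ hleaf
    refine ⟨j, ?_, ?_, ?_⟩
    · intro h
      exact hn2 _ h (by rw [hj]; simp)
    · intro h
      refine hn2 _ h ?_
      rw [hj]
      cases s0 with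
      | nil => simp
      | cons m s0 => simp
    · intro m h
      refine hn2 _ h ?_
      rw [hj, List.getLast?_cons]
      simp

theorem lab_leaf (T : Tr) (s : List ℕ) (h : IsLeaf T s) : lab T s = 0 := by
  unfold IsLeaf at h
  unfold lab
  rw [h]
  rfl

end Pool.Agent.H507_U
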