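import Mathlib
import Pool.Agent.H507_U.Rank
import Pool.Agent.H507_U.Eval
import Pool.Agent.H507_U.Trees
import Pool.Agent.H507_U.Pts

/-!
The hierarchy of Borel sets over the points of a generic sequence is long.
-/

set_option autoImplicit false

namespace Pool.Agent.H507_U

open Set

theorem measurable_pt (g : ℕ → ℕ) : Measurable (pt g) := by
  have h : Continuous (pt g) := by
    have h2 : pt g = (fun p : (ℕ → ℕ) × W => pt p.1 p.2) ∘ fun w : W => (g, w) := rfl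
    rw [h2]
    exact continuous_pt.comp (by fun_prop)
  exact h.measurable

theorem measurable_root : Measurable fun w : W => w.1 [] := by
  have h : Continuous fun w : W => w.1 [] := (continuous_apply []).comp continuous_subtype_val
  exact h.measurable

theorem long {K : Type} [LinearOrder K] (σ : Sq K) (h1 : σ.GenH) (h3 : σ.Hit)
    (T : K → Tr) (hT : ∀ β, Norm (T β))
    (hk1 : ∀ β n, IsLeaf (T β) (nd (σ.k β n))) (hk2 : ∀ β s, IsLeaf (T β) s → ∃ n, nd (σ.k β n) = s)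
    (α : Ordinal.{0}) (hα : ∀ ξ : K, ∃ β, ξ < β ∧ α < rk (T β)) :
    ∃ D : Set (ℕ → Bool), MeasurableSet D ∧
      ∀ C, Sig Bc α C → ∃ ν, ¬ (σ.x ν ∈ D ↔ σ.x ν ∈ C) := by
  obtain ⟨hs1, hs2⟩ := surj_generic
  obtain ⟨ξ, hξ⟩ := h1 {p | ¬ Function.Surjective p.2} (measurable_snd hs1)
  obtain ⟨β, hβ, hβα⟩ := hα (max ξ σ.bot)
  have hξβ : ξ < β := (le_max_left _ _).trans_lt hβ
  have hbβ : σ.bot < β := (le_max_right _ _).trans_lt hβ
  have hsurj : Function.Surjective (σ.h β) := by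
    by_contra hcon
    exact hξ β hξβ ξ hξβ ξ hξβ hs2 hcon
  have hg : σ.g β = fun n => σ.k β (σ.h β n) := if_neg hbβ.ne'
  have hg1 : ∀ n, IsLeaf (T β) (nd (σ.g β n)) := by
    intro n
    rw [hg]
    exact hk1 β _
  have hg2 : ∀ s, IsLeaf (T β) s → ∃ n, nd (σ.g β n) = s := by
    intro s hs
    obtain ⟨m, hm⟩ := hk2 β s hs
    obtain ⟨n, hn⟩ := hsurj m
    refine ⟨n, ?_⟩
    rw [hg]
    simp only [hn, hm]
  obtain ⟨Ev, hEv1, hEv2⟩ := exists_eval (T β) (σ.g β) hg2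
  refine ⟨Ev, hEv1, fun C hC => ?_⟩
  have hr := rank_final (T β) (hT β) (σ.g β) (fun n => lab_leaf _ _ (hg1 n)) α hβα C hC
  set Q : Set W := {w : W | ¬ (pt (σ.g β) w ∈ C ↔ w.1 [] = true) ∧
    (pt (σ.g β) w ∈ Ev ↔ w.1 [] = true)} with hQ
  have hQ1 : ¬ IsMeagre Q := by
    intro hcon
    apply hr
    refine (hcon.union hEv2).mono ?_
    intro w hw
    by_cases h : pt (σ.g β) w ∈ Ev ↔ w.1 [] = true
    · exact Or.inl ⟨hw, h⟩
    · exact Or.inr h
  have hQ2 : MeasurableSet Q := by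
    have mC : MeasurableSet (pt (σ.g β) ⁻¹' C) := measurable_pt _ (sig_measurable hC)
    have mE : MeasurableSet (pt (σ.g β) ⁻¹' Ev) := measurable_pt _ hEv1
    have mR : MeasurableSet {w : W | w.1 [] = true} :=
      measurable_root (measurableSet_singleton true)
    have hQ3 : Q = (((pt (σ.g β) ⁻¹' C) \ {w : W | w.1 [] = true}) ∪
        ({w : W | w.1 [] = true} \ (pt (σ.g β) ⁻¹' C))) ∩
        (((pt (σ.g β) ⁻¹' Ev) ∩ {w : W | w.1 [] = true}) ∪
          ((pt (σ.g β) ⁻¹' Ev)ᶜ ∩ {w : W | w.1 [] = true}ᶜ)) := by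
      ext w
      simp only [hQ, mem_ofPred_eq, mem_inter_iff, mem_union, mem_sdiff, mem_preimage, mem_compl_iff]
      tauto
    rw [hQ3]
    exact ((mC.diff mR).union (mR.diff mC)).inter ((mE.inter mR).union (mE.compl.inter mR.compl))
  obtain ⟨ν, -, hν1, hν2⟩ := h3 Q hQ2 hQ1 β β
  refine ⟨ν, ?_⟩
  have hx : σ.x ν = pt (σ.g β) (σ.v ν) := by
    unfold Sq.x
    rw [hν1]
  rw [hx]
  obtain ⟨e1, e2⟩ := hν2
  tauto

end Pool.Agent.H507_U
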