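import Mathlib

set_option autoImplicit false

namespace Pool.Agent.H507_U

open Set MeasurableSpace
open scoped MeasureTheory

universe u

theorem exists_universal : ∃ C : Set ((ℕ → Bool) × (ℕ → Bool) × (ℕ → Bool)), MeasurableSet C ∧
    ∀ B : Set (ℕ → Bool), MeasurableSet B → ∃ c, ∀ a, a ∈ B ↔ ∃ d, (c, a, d) ∈ C := by
  classical
  -- a measurable surjection
  have hnc1 : ¬ Countable (ℕ → Bool) := by
    rw [← Cardinal.mk_le_aleph0_iff, not_le]
    simp only [Cardinal.mk_pi, Cardinal.mk_fintype, Fintype.card_bool, Cardinal.prod_const,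
      Cardinal.mk_nat, Cardinal.lift_id]
    exact_mod_cast Cardinal.cantor Cardinal.aleph0
  have hnc2 : ¬ Countable (ℕ → ℕ) := by
    intro h
    apply hnc1
    have hinj : Function.Injective (fun (f : ℕ → Bool) (n : ℕ) => (f n).toNat) := by
      intro f g hfg
      funext n
      have h1 : (f n).toNat = (g n).toNat := congrFun hfg n
      revert h1
      cases f n <;> cases g n <;> simp
    exact hinj.countable
  let e : (ℕ → Bool) ≃ᵐ (ℕ → ℕ) := PolishSpace.measurableEquivOfNotCountable hnc1 hnc2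
  -- an enumerated basis
  have hne : (TopologicalSpace.countableBasis ((ℕ → Bool) × (ℕ → ℕ))).Nonempty := by
    by_contra hcon
    rw [Set.not_nonempty_iff_eq_empty] at hcon
    have h := (TopologicalSpace.isBasis_countableBasis ((ℕ → Bool) × (ℕ → ℕ))).sUnion_eq
    rw [hcon, Set.sUnion_empty] at h
    have h0 : ((fun _ => true, fun _ => 0) : (ℕ → Bool) × (ℕ → ℕ)) ∈
      (Set.univ : Set ((ℕ → Bool) × (ℕ → ℕ))) := Set.mem_univ _
    rw [← h] at h0
    exact h0
  obtain ⟨V, hV⟩ := (TopologicalSpace.countable_countableBasis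
    ((ℕ → Bool) × (ℕ → ℕ))).exists_eq_range hne
  have hbas := TopologicalSpace.isBasis_countableBasis ((ℕ → Bool) × (ℕ → ℕ))
  have hVo : ∀ n, IsOpen (V n) := fun n => hbas.isOpen (hV ▸ Set.mem_range_self n)
  refine ⟨{p | ∀ n, p.1 n = true → (p.2.1, e p.2.2) ∉ V n}, ?_, ?_⟩
  · have hset : {p : (ℕ → Bool) × (ℕ → Bool) × (ℕ → Bool) | ∀ n, p.1 n = true →
        (p.2.1, e p.2.2) ∉ V n} =
        ⋂ n, ({p | p.1 n = true}ᶜ ∪ {p | (p.2.1, e p.2.2) ∈ V n}ᶜ) := by
      ext p
      simp only [Set.mem_ofPred_eq, Set.mem_iInter, Set.mem_union, Set.mem_compl_iff]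
      exact forall_congr' fun n => imp_iff_not_or
    rw [hset]
    refine MeasurableSet.iInter fun n => ?_
    refine MeasurableSet.union ?_ ?_
    · refine MeasurableSet.compl ?_
      have h1 : Measurable (fun p : (ℕ → Bool) × (ℕ → Bool) × (ℕ → Bool) => p.1 n) :=
        (measurable_pi_apply n).comp measurable_fst
      exact h1 (measurableSet_singleton true)
    · refine MeasurableSet.compl ?_
      have h1 : Measurable (fun p : (ℕ → Bool) × (ℕ → Bool) × (ℕ → Bool) =>
          (p.2.1, e p.2.2)) :=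
        (measurable_fst.comp measurable_snd).prodMk
          (e.measurable.comp (measurable_snd.comp measurable_snd))
      exact h1 (hVo n).measurableSet
  · intro B hB
    -- `B` is the projection of a closed set
    obtain ⟨F, hF, hBF⟩ : ∃ F : Set ((ℕ → Bool) × (ℕ → ℕ)), IsClosed F ∧
        ∀ a, a ∈ B ↔ ∃ t, (a, t) ∈ F := by
      have : PolishSpace (ℕ → Bool) := { }
      have hBa : MeasureTheory.AnalyticSet B := hB.analyticSet
      rw [MeasureTheory.AnalyticSet] at hBa
      rcases hBa with h | ⟨f, hf, hfr⟩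
      · refine ⟨∅, isClosed_empty, fun a => ?_⟩
        rw [h]
        simp
      · refine ⟨{p | f p.2 = p.1}, isClosed_eq (hf.comp continuous_snd) continuous_fst, fun a => ?_⟩
        rw [← hfr]
        exact Iff.rfl
    refine ⟨fun n => decide (V n ∩ F = ∅), fun a => ?_⟩
    have key : ∀ d : ℕ → Bool, ((fun n => decide (V n ∩ F = ∅), a, d) ∈
        {p : (ℕ → Bool) × (ℕ → Bool) × (ℕ → Bool) | ∀ n, p.1 n = true →
          (p.2.1, e p.2.2) ∉ V n}) ↔ (a, e d) ∈ F := by
      intro d
      simp only [Set.mem_ofPred_eq, decide_eq_true_eq]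
      constructor
      · intro h
        by_contra hcon
        obtain ⟨v, hv, hav, hvF⟩ := hbas.exists_subset_of_mem_open
          (show (a, e d) ∈ Fᶜ from hcon) hF.isOpen_compl
        rw [hV] at hv
        obtain ⟨n, rfl⟩ := hv
        refine h n ?_ hav
        rw [← Set.disjoint_iff_inter_eq_empty]
        exact Set.disjoint_left.2 fun x hx hx' => hvF hx hx'
      · intro h n hn hmem
        have : (a, e d) ∈ V n ∩ F := ⟨hmem, h⟩
        rw [hn] at this
        exact this
    rw [hBF a]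
    constructor
    · rintro ⟨t, ht⟩
      refine ⟨e.symm t, (key _).2 ?_⟩
      rw [e.apply_symm_apply]
      exact ht
    · rintro ⟨d, hd⟩
      exact ⟨e d, (key d).1 hd⟩

theorem no_surj {E : Type u} (mE : MeasurableSpace E) (χ : E → ℕ → Bool)
    (hχ : MeasurableSpace.comap χ inferInstance = mE)
    (hproj : ∀ R : Set (E × E), MeasurableSet[mE.prod mE] R → MeasurableSet[mE] (Prod.fst '' R))
    (g : E → ℕ → Bool) (hg : Measurable[mE] g) : ∃ t, ∀ x, g x ≠ t := by
  by_contra hcon
  push Not at hcon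
  obtain ⟨C, hC, hU⟩ := exists_universal
  have hχm : Measurable[mE] χ := by
    rw [← hχ]
    exact comap_measurable χ
  let _ := mE
  have hR : MeasurableSet {p : E × E | (g p.1, χ p.1, g p.2) ∈ C} := by
    have h1 : Measurable (fun p : E × E => (g p.1, χ p.1, g p.2)) :=
      (hg.comp measurable_fst).prodMk ((hχm.comp measurable_fst).prodMk (hg.comp measurable_snd))
    exact h1 hC
  have hD : MeasurableSet[mE] (Prod.fst '' {p : E × E | (g p.1, χ p.1, g p.2) ∈ C})ᶜ :=
    (hproj _ hR).compl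
  have hD' := hD
  rw [← hχ] at hD'
  obtain ⟨B, hB, hBD⟩ := hD'
  obtain ⟨c, hc⟩ := hU B hB
  obtain ⟨x, hx⟩ := hcon c
  have h1 : x ∈ (Prod.fst '' {p : E × E | (g p.1, χ p.1, g p.2) ∈ C})ᶜ ↔ χ x ∈ B := by
    rw [← hBD]
    exact Iff.rfl
  have h2 : x ∈ Prod.fst '' {p : E × E | (g p.1, χ p.1, g p.2) ∈ C} ↔
      ∃ d, (c, χ x, d) ∈ C := by
    constructor
    · rintro ⟨⟨x', y⟩, hmem, rfl⟩
      refine ⟨g y, ?_⟩
      rw [← hx]
      exact hmem
    · rintro ⟨d, hd⟩
      obtain ⟨y, hy⟩ := hcon d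
      refine ⟨(x, y), ?_, rfl⟩
      show (g x, χ x, g y) ∈ C
      rw [hx, hy]
      exact hd
  rw [Set.mem_compl_iff, h2, ← hc] at h1
  exact (iff_not_self h1.symm)

end Pool.Agent.H507_U
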