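import Mathlib
import Pool.Agent.H507_U.Defs

set_option autoImplicit false

namespace Pool.Agent.H507_U

open Set MeasurableSpace
open scoped MeasureTheory

universe u

/-- `D` depends on finitely many coordinates -/
def Clp (D : Set (ℕ → Bool)) : Prop := ∃ m, ∀ z z' : ℕ → Bool, (∀ i < m, z i = z' i) → z ∈ D → z' ∈ D

/-- `B` agrees on `Z` with a countable union of countable intersections of clopen sets -/
def FS (Z B : Set (ℕ → Bool)) : Prop :=
  ∃ D : ℕ → ℕ → Set (ℕ → Bool), (∀ n k, Clp (D n k)) ∧ ∀ z ∈ Z, (z ∈ B ↔ ∃ n, ∀ k, z ∈ D n k)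

theorem clp_empty : Clp (∅ : Set (ℕ → Bool)) := ⟨0, fun _ _ _ h => h⟩

theorem clp_compl {D : Set (ℕ → Bool)} (h : Clp D) : Clp Dᶜ := by
  obtain ⟨m, hm⟩ := h
  exact ⟨m, fun z z' hz hD hD' => hD (hm z' z (fun i hi => (hz i hi).symm) hD')⟩

theorem clp_exists {E : ℕ → Set (ℕ → Bool)} (h : ∀ k, Clp (E k)) (K : ℕ) :
    Clp {z | ∃ k ≤ K, z ∈ E k} := by
  choose m hm using h
  refine ⟨(Finset.range (K + 1)).sup m, fun z z' hz hD => ?_⟩
  obtain ⟨k, hk, hzk⟩ := hD
  refine ⟨k, hk, hm k z z' (fun i hi => hz i (lt_of_lt_of_le hi ?_)) hzk⟩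
  exact Finset.le_sup (Finset.mem_range.mpr (by omega))

theorem fs_empty (Z : Set (ℕ → Bool)) : FS Z ∅ :=
  ⟨fun _ _ => ∅, fun _ _ => clp_empty, fun z _ => by simp⟩

theorem fs_iUnion {Z : Set (ℕ → Bool)} {B : ℕ → Set (ℕ → Bool)} (h : ∀ j, FS Z (B j)) :
    FS Z (⋃ j, B j) := by
  choose D hD hB using h
  refine ⟨fun c k => D c.unpair.1 c.unpair.2 k, fun c k => hD _ _ _, fun z hz => ?_⟩
  constructor
  · intro hzB
    obtain ⟨j, hj⟩ := mem_iUnion.mp hzB
    obtain ⟨n, hn⟩ := (hB j z hz).mp hj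
    exact ⟨Nat.pair j n, fun k => by simpa using hn k⟩
  · rintro ⟨c, hc⟩
    exact mem_iUnion.mpr ⟨c.unpair.1, (hB _ z hz).mpr ⟨c.unpair.2, hc⟩⟩

theorem fs_compl {Z B : Set (ℕ → Bool)}
    (hZ : ∀ f : (ℕ → Bool) → ℕ → ℕ, ∃ h : ℕ → ℕ, ∀ z ∈ Z, ∃ k, ∀ n, k ≤ n → f z n ≤ h n)
    (hB : FS Z B) : FS Z Bᶜ := by
  classical
  obtain ⟨D, hD, hB⟩ := hB
  obtain ⟨h, hh⟩ := hZ (fun z n => sInf {k | z ∉ D n k})
  refine ⟨fun c i => {z | ∃ k ≤ (if i < c.unpair.1 then c.unpair.2 else h i), z ∈ (D i k)ᶜ},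
    fun c i => clp_exists (fun k => clp_compl (hD i k)) _, fun z hz => ?_⟩
  constructor
  · intro hzB
    have h1 : ∀ n, z ∉ D n (sInf {k | z ∉ D n k}) := by
      intro n
      have : ({k | z ∉ D n k}).Nonempty := by
        by_contra hne
        rw [not_nonempty_iff_eq_empty] at hne
        apply hzB
        refine (hB z hz).mpr ⟨n, fun k => ?_⟩
        by_contra hk
        have : k ∈ ({k | z ∉ D n k} : Set ℕ) := hk
        rw [hne] at this
        exact this
      exact Nat.sInf_mem this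
    obtain ⟨k0, hk0⟩ := hh z hz
    refine ⟨Nat.pair k0 ((Finset.range k0).sup (fun n => sInf {k | z ∉ D n k})), fun i => ?_⟩
    refine ⟨sInf {k | z ∉ D i k}, ?_, h1 i⟩
    rw [Nat.unpair_pair]
    by_cases hi : i < k0
    · rw [if_pos hi]
      exact Finset.le_sup (f := fun n => sInf {k | z ∉ D n k}) (Finset.mem_range.mpr hi)
    · rw [if_neg hi]
      exact hk0 i (by omega)
  · rintro ⟨c, hc⟩ hzB
    obtain ⟨n, hn⟩ := (hB z hz).mp hzB
    obtain ⟨k, _, hk⟩ := hc n
    exact hk (hn k)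

theorem all_FS (Z : Set (ℕ → Bool))
    (hZ : ∀ f : (ℕ → Bool) → ℕ → ℕ, ∃ h : ℕ → ℕ, ∀ z ∈ Z, ∃ k, ∀ n, k ≤ n → f z n ≤ h n)
    (B : Set (ℕ → Bool)) (hB : MeasurableSet B) : FS Z B := by
  let m' : MeasurableSpace (ℕ → Bool) :=
    { MeasurableSet' := FS Z
      measurableSet_empty := fs_empty Z
      measurableSet_compl := fun B hB => fs_compl hZ hB
      measurableSet_iUnion := fun B hB => fs_iUnion hB }
  have hle : (MeasurableSpace.pi : MeasurableSpace (ℕ → Bool)) ≤ m' := by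
    refine iSup_le fun n => ?_
    rw [← measurable_iff_comap_le]
    refine @measurable_to_bool _ m' _ ?_
    change FS Z _
    refine ⟨fun _ _ => {z | z n = true}, fun _ _ => ⟨n + 1, fun z z' hz h => ?_⟩, fun z _ => ?_⟩
    · have := hz n (by omega)
      simp only [mem_ofPred_eq] at h ⊢
      rw [← this, h]
    · simp
  exact hle B hB

theorem clp_preimage {E : Type u} (A : ℕ → Set E) (χ : E → ℕ → Bool)
    (hχ : ∀ x n, χ x n = true ↔ x ∈ A n) (m : ℕ) : ∀ D : Set (ℕ → Bool),
    (∀ z z' : ℕ → Bool, (∀ i < m, z i = z' i) → z ∈ D → z' ∈ D) →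
    χ ⁻¹' D ∈ MeasureTheory.generateSetAlgebra (range A) := by
  have hA := MeasureTheory.isSetAlgebra_generateSetAlgebra (𝒜 := range A)
  induction m with
  | zero =>
      intro D hD
      by_cases hne : D.Nonempty
      · obtain ⟨z, hz⟩ := hne
        have : χ ⁻¹' D = univ := by
          ext x
          simp only [mem_preimage, mem_univ, iff_true]
          exact hD z _ (fun i hi => absurd hi (Nat.not_lt_zero _)) hz
        rw [this]
        exact hA.univ_mem
      · rw [not_nonempty_iff_eq_empty] at hne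
        rw [hne, preimage_empty]
        exact hA.empty_mem
  | succ m ih =>
      intro D hD
      have key : ∀ b : Bool, χ ⁻¹' {z | Function.update z m b ∈ D} ∈
          MeasureTheory.generateSetAlgebra (range A) := by
        intro b
        refine ih _ (fun z z' hz h => ?_)
        refine hD _ _ (fun i hi => ?_) h
        by_cases him : i = m
        · subst him; simp
        · rw [Function.update_of_ne him, Function.update_of_ne him]
          exact hz i (by omega)
      have hAm : A m ∈ MeasureTheory.generateSetAlgebra (range A) :=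
        MeasureTheory.self_subset_generateSetAlgebra (mem_range_self m)
      have e : χ ⁻¹' D = (χ ⁻¹' {z | Function.update z m true ∈ D} ∩ A m) ∪
          (χ ⁻¹' {z | Function.update z m false ∈ D} ∩ (A m)ᶜ) := by
        ext x
        simp only [mem_preimage, mem_union, mem_inter_iff, mem_ofPred_eq, mem_compl_iff, ← hχ]
        cases hb : χ x m with
        | true =>
            have : Function.update (χ x) m true = χ x := by rw [← hb, Function.update_eq_self]
            simp [this]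
        | false =>
            have : Function.update (χ x) m false = χ x := by rw [← hb, Function.update_eq_self]
            simp [this]
      rw [e]
      exact hA.union_mem (hA.inter_mem (key true) hAm) (hA.inter_mem (key false) (hA.compl_mem hAm))

theorem hierarchy_stops {E : Type u} (A : ℕ → Set E) (χ : E → ℕ → Bool)
    (hχ : ∀ x n, χ x n = true ↔ x ∈ A n) (Z : Set (ℕ → Bool)) (hE : ∀ x, χ x ∈ Z)
    (hZ : ∀ f : (ℕ → Bool) → ℕ → ℕ, ∃ h : ℕ → ℕ, ∀ z ∈ Z, ∃ k, ∀ n, k ≤ n → f z n ≤ h n)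
    (S : Set E) (hS : S ∈ Bo A) : Sig A 2 S := by
  have h1 : generateFrom (range A) ≤ MeasurableSpace.comap χ MeasurableSpace.pi := by
    refine generateFrom_le ?_
    rintro _ ⟨n, rfl⟩
    refine ⟨(fun z : ℕ → Bool => z n) ⁻¹' {true}, ?_, ?_⟩
    · exact (measurable_pi_apply (X := fun _ : ℕ => Bool) n) (measurableSet_singleton true)
    · ext x; simp [hχ]
  obtain ⟨B, hB, rfl⟩ := h1 S hS
  obtain ⟨D, hD, hDB⟩ := all_FS Z hZ B hB
  have e : χ ⁻¹' B = ⋃ n, (⋃ k, (χ ⁻¹' D n k)ᶜ)ᶜ := by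
    ext x
    simp only [mem_preimage, mem_iUnion, mem_compl_iff, not_exists, not_not]
    exact hDB _ (hE x)
  rw [e]
  refine Sig.pos (by norm_num) (fun _ => 1) (fun _ => by exact_mod_cast one_lt_two) _ (fun n => ?_)
  refine Sig.pos (by norm_num) (fun _ => 0) (fun _ => by norm_num) _ (fun k => ?_)
  obtain ⟨m, hm⟩ := hD n k
  exact Sig.zero (clp_preimage A χ hχ m _ hm)

end Pool.Agent.H507_U
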