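import Mathlib
import Pool.Agent.H507_U.Defs
import Pool.Agent.H507_U.Coding
import Pool.Agent.H507_U.NoSurj
import Pool.Agent.H507_U.Stops

/-!
`Phi` implies that there is no sequence of sets as in the problem.
-/

set_option autoImplicit false

namespace Pool.Agent.H507_U

open Set MeasurableSpace
open scoped MeasureTheory
open Pool.Agent.Helper467_LV (pre)

universe u

theorem pre'_eq (y : ℕ → ℕ) (n : ℕ) : pre' y n = pre y n := rfl

/-- the function decoded by `g` -/
noncomputable def dec (g : List Bool → List Bool) (z : ℕ → Bool) (k : ℕ) : Bool := by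
  classical
  exact decide (∃ m, (g (pre' z m))[k]? = some true)

theorem dec_eq {g : List Bool → List Bool} {z t : ℕ → Bool} (h : Dec g z t) : dec g z = t := by
  classical
  funext k
  have h0 : ∀ m, ∀ v, (g (pre' z m))[k]? = some v → v = t k := by
    intro m v hv
    rw [h.1 m] at hv
    unfold pre' at hv
    rw [List.getElem?_map] at hv
    cases hk : (List.range (g (pre' z m)).length)[k]? with
    | none =>
      unfold pre' at hk
      rw [hk] at hv
      simp at hv
    | some a =>
      have ha : a = k := by
        rw [List.getElem?_eq_some_iff] at hk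
        obtain ⟨h1, h2⟩ := hk
        simpa using h2.symm
      unfold pre' at hk
      rw [hk] at hv
      simp only [Option.map_some, Option.some.injEq] at hv
      rw [← hv, ha]
  obtain ⟨m, hm⟩ := h.2 k
  have h1 : (g (pre' z m))[k]? = some ((g (pre' z m))[k]) := List.getElem?_eq_getElem hm
  have h2 := h0 m _ h1
  unfold dec
  cases ht : t k with
  | true =>
    rw [decide_eq_true_iff]
    exact ⟨m, by rw [h1, h2, ht]⟩
  | false =>
    rw [decide_eq_false_iff_not]
    rintro ⟨m', hm'⟩
    have := h0 m' _ hm'
    rw [ht] at this
    exact absurd this (by simp)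

theorem measurable_dec (g : List Bool → List Bool) : Measurable (dec g) := by
  classical
  rw [measurable_pi_iff]
  intro k
  apply measurable_to_countable'
  intro v
  have h1 : MeasurableSet {z : ℕ → Bool | ∃ m, (g (pre' z m))[k]? = some true} := by
    have h2 : {z : ℕ → Bool | ∃ m, (g (pre' z m))[k]? = some true} =
        ⋃ m, {z : ℕ → Bool | (g (pre' z m))[k]? = some true} := by
      ext z; simp
    rw [h2]
    apply MeasurableSet.iUnion
    intro m
    have h3 : Measurable (fun z : ℕ → Bool => fun i : Fin m => z i) := by
      rw [measurable_pi_iff]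
      intro i
      exact measurable_pi_apply _
    have h4 : {z : ℕ → Bool | (g (pre' z m))[k]? = some true} =
        (fun z : ℕ → Bool => fun i : Fin m => z i) ⁻¹'
          {w : Fin m → Bool | (g (List.ofFn w))[k]? = some true} := by
      ext z
      simp only [mem_ofPred_eq, mem_preimage]
      have h5 : pre' z m = List.ofFn (fun i : Fin m => z i) := by
        unfold pre'
        apply List.ext_getElem
        · simp
        · intro i h1 h2
          simp
      rw [h5]
    rw [h4]
    exact h3 (Set.toFinite _).measurableSet
  cases v with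
  | true =>
    convert h1 using 1
    ext z
    simp [dec]
  | false =>
    convert h1.compl using 1
    ext z
    simp [dec]

/-- if `Phi` holds then the hierarchy over `A` is short or some projective set is not Borel -/
theorem not_Q1 {W K : Type} {Lo : K → W → Prop} {N : W → List ℕ → ℕ}
    {b : W → List ℕ → ℕ → ℕ → Prop} (hΦ : Phi W K Lo N b) (E : Type u) : ¬ Q1 E := by
  classical
  rintro ⟨A, hA1, hA2⟩
  obtain ⟨hG, hD⟩ := hΦ
  set χ : E → ℕ → Bool := fun x n => decide (x ∈ A n) with hχ
  have hχ' : ∀ x n, χ x n = true ↔ x ∈ A n := fun x n => by simp [hχ]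
  set mE : MeasurableSpace E := generateFrom (range A) with hmE
  have hcomap : MeasurableSpace.comap χ inferInstance = mE := by
    apply le_antisymm
    · have hm : Measurable[mE] χ := by
        rw [@measurable_pi_iff]
        intro n
        apply @measurable_to_countable' _ _ _ _ mE
        intro v
        cases v with
        | true =>
          have : (fun x => χ x n) ⁻¹' {true} = A n := by
            ext x; simp [hχ']
          rw [this]
          exact measurableSet_generateFrom ⟨n, rfl⟩
        | false =>
          have : (fun x => χ x n) ⁻¹' {false} = (A n)ᶜ := by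
            ext x
            simp only [mem_preimage, mem_singleton_iff, mem_compl_iff, ← hχ' x n,
              Bool.not_eq_true]
          rw [this]
          have h5 : MeasurableSet[mE] (A n) := measurableSet_generateFrom ⟨n, rfl⟩
          exact @MeasurableSet.compl _ _ mE h5
      exact hm.comap_le
    · apply generateFrom_le
      rintro _ ⟨n, rfl⟩
      refine ⟨{z | z n = true}, ?_, ?_⟩
      · show MeasurableSet ((fun z : ℕ → Bool => z n) ⁻¹' {true})
        exact measurable_pi_apply n (measurableSet_singleton true)
      · ext x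
        exact hχ' x n
  have hproj : ∀ R : Set (E × E), MeasurableSet[mE.prod mE] R →
      MeasurableSet[mE] (Prod.fst '' R) := by
    intro R hR
    apply hA2 2
    right
    refine ⟨R, ?_, rfl⟩
    have h1 : mE.prod mE ≤ generateFrom {R | ∃ P ∈ PC A 1, ∃ Q ∈ PC A 1, R = P ×ˢ Q} := by
      have hu : (univ : Set E) ∈ PC A 1 := Or.inl (@MeasurableSet.univ E mE)
      apply sup_le
      · rintro _ ⟨P, hP, rfl⟩
        apply measurableSet_generateFrom
        exact ⟨P, Or.inl hP, univ, hu, by ext x; simp⟩
      · rintro _ ⟨P, hP, rfl⟩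
        apply measurableSet_generateFrom
        exact ⟨univ, hu, P, Or.inl hP, by ext x; simp⟩
    exact h1 _ hR
  -- the parameters
  choose g C hC using fun w => coding (N w) (b w)
  have hns : ∀ w, ∃ t, ∀ x, dec (g w) (χ x) ≠ t := by
    intro w
    apply no_surj mE χ hcomap hproj
    apply (measurable_dec (g w)).comp
    rw [← hcomap]
    exact comap_measurable χ
  choose t ht using hns
  choose A' hA' hA'' using fun w => hC w (t w)
  obtain ⟨a, ha⟩ := hG A' (fun w s k => hA' w s k)
  set Z : Set (ℕ → Bool) := {z | ∃ w, Lo a w ∧ ∃ n, z = C w n} with hZ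
  have hE : ∀ x, χ x ∈ Z := by
    intro x
    obtain ⟨w, hw, y, hy⟩ := ha (fun n => χ x n = true)
    refine ⟨w, hw, ?_⟩
    rcases hA'' w (χ x) y hy with h | h
    · exact h
    · exact absurd (dec_eq h) (ht w x)
  have hdom : ∀ f : (ℕ → Bool) → ℕ → ℕ, ∃ h : ℕ → ℕ, ∀ z ∈ Z, ∃ k, ∀ n, k ≤ n → f z n ≤ h n := by
    intro f
    obtain ⟨h, hh⟩ := hD a (fun w n => (Finset.range (n + 1)).sup (fun i => f (C w i) n))
    refine ⟨h, ?_⟩
    rintro z ⟨w, hw, i, rfl⟩
    obtain ⟨k, hk⟩ := hh w hw
    refine ⟨max k i, fun n hn => ?_⟩
    refine le_trans ?_ (hk n ((le_max_left _ _).trans hn))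
    exact Finset.le_sup (f := fun i => f (C w i) n)
      (Finset.mem_range.mpr (Nat.lt_succ_of_le ((le_max_right _ _).trans hn)))
  obtain ⟨S, hS1, hS2⟩ := hA1 2 (by
    have h1 : (2 : Ordinal.{0}) < Ordinal.omega 0 := by
      rw [Ordinal.omega_zero]
      exact_mod_cast Ordinal.nat_lt_omega0 2
    exact h1.trans (Ordinal.omega_lt_omega.mpr zero_lt_one))
  exact hS2 (hierarchy_stops A χ hχ' Z hE hdom S hS1)

end Pool.Agent.H507_U
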