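import Mathlib
import Pool.Agent.H507_U.PosDefs
import Pool.Agent.H507_U.Cat
import Pool.Agent.H507_U.Pts

/-!
First lemma on projections.
-/

set_option autoImplicit false

namespace Pool.Agent.H507_U

open Set

/-! ### auxiliary lemmas -/

theorem l1_pt {α : Type} [MeasurableSpace α] {f : α → ℕ → ℕ} {g : α → W} (hf : Measurable f)
    (hg : Measurable g) : Measurable fun a => pt (f a) (g a) :=
  continuous_pt.measurable.comp (hf.prodMk hg)

theorem l1_comp {α : Type} [MeasurableSpace α] {f g : α → ℕ → ℕ} (hf : Measurable f)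
    (hg : Measurable g) : Measurable fun a => (fun n => f a (g a n) : ℕ → ℕ) := by
  have h0 : Measurable fun p : (ℕ → ℕ) × (ℕ → ℕ) => (fun n => p.1 (p.2 n) : ℕ → ℕ) := by
    refine measurable_pi_lambda _ fun n => ?_
    have h1 : Measurable (fun q : (ℕ → ℕ) × ℕ => q.1 q.2) :=
      measurable_from_prod_countable_left (fun m => measurable_pi_apply m)
    exact h1.comp (measurable_fst.prodMk ((measurable_pi_apply n).comp measurable_snd))
  exact h0.comp (hf.prodMk hg)

/-- the pairs `(x, g)` for which the section is meagre -/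
def EE (R : Set ((ℕ → Bool) × (ℕ → Bool))) : Set ((ℕ → Bool) × (ℕ → ℕ)) :=
  {p | IsMeagre {w : W | (p.1, pt p.2 w) ∈ R}}

theorem l1_EE {R : Set ((ℕ → Bool) × (ℕ → Bool))} (hR : MeasurableSet R) :
    MeasurableSet (EE R) := by
  have hB : MeasurableSet {q : ((ℕ → Bool) × (ℕ → ℕ)) × W | (q.1.1, pt q.1.2 q.2) ∈ R} := by
    have hm : Measurable fun q : ((ℕ → Bool) × (ℕ → ℕ)) × W => (q.1.1, pt q.1.2 q.2) :=
      (measurable_fst.comp measurable_fst).prodMk
        (l1_pt (measurable_snd.comp measurable_fst) measurable_snd)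
    exact hm hR
  exact meas_meagre hB

/-- the bad triples -/
def QQ (R : Set ((ℕ → Bool) × (ℕ → Bool))) : Set ((ℕ → Bool) × (ℕ → Bool) × (ℕ → ℕ)) :=
  {t | (t.1, t.2.1) ∈ R ∧ (t.1, t.2.2) ∈ EE R}

theorem l1_QQ {R : Set ((ℕ → Bool) × (ℕ → Bool))} (hR : MeasurableSet R) :
    MeasurableSet (QQ R) := by
  have h1 : Measurable fun t : (ℕ → Bool) × (ℕ → Bool) × (ℕ → ℕ) => (t.1, t.2.1) :=
    measurable_fst.prodMk (measurable_fst.comp measurable_snd)
  have h2 : Measurable fun t : (ℕ → Bool) × (ℕ → Bool) × (ℕ → ℕ) => (t.1, t.2.2) :=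
    measurable_fst.prodMk (measurable_snd.comp measurable_snd)
  exact (h1 hR).inter (h2 (l1_EE hR))

theorem l1_sec (R : Set ((ℕ → Bool) × (ℕ → Bool))) (x : ℕ → Bool) (g : ℕ → ℕ) :
    IsMeagre {v : W | (x, pt g v, g) ∈ QQ R} := by
  by_cases h : (x, g) ∈ EE R
  · exact IsMeagre.mono (fun v hv => hv.1) h
  · have : {v : W | (x, pt g v, g) ∈ QQ R} = ∅ := by
      ext v
      simp only [mem_ofPred_eq, mem_empty_iff_false, iff_false]
      exact fun hv => h hv.2
    rw [this]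
    exact IsMeagre.empty

/-- exchange of quantifiers -/
theorem l1_exch {R : Set ((ℕ → Bool) × (ℕ → Bool))} (hR : MeasurableSet R) (g : ℕ → ℕ)
    {X : Type} [TopologicalSpace X] [SecondCountableTopology X] [BaireSpace X]
    [MeasurableSpace X] [BorelSpace X] (f : X → ℕ → Bool) (hf : Measurable f) :
    IsMeagre {v : W | ¬ IsMeagre {x : X | (f x, pt g v, g) ∈ QQ R}} := by
  have hm : Measurable fun p : X × W => (f p.1, pt g p.2, g) :=
    (hf.comp measurable_fst).prodMk ((l1_pt measurable_const measurable_snd).prodMk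
      measurable_const)
  have hM : MeasurableSet {p : X × W | (f p.1, pt g p.2, g) ∈ QQ R} := hm (l1_QQ hR)
  apply ku_exch hM
  have : {x : X | ¬ IsMeagre {y : W | (x, y) ∈ {p : X × W | (f p.1, pt g p.2, g) ∈ QQ R}}} = ∅ := by
    ext x
    simp only [mem_ofPred_eq, mem_empty_iff_false, iff_false, not_not]
    exact l1_sec R (f x) g
  rw [this]
  exact IsMeagre.empty

theorem lemma1 {K : Type} [LinearOrder K] (σ : Sq K) (h1 : σ.GenH) (h2 : σ.GenV)
    (hk : ∀ β, Star (σ.k β)) (R : Set ((ℕ → Bool) × (ℕ → Bool))) (hR : MeasurableSet R) :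
    ∃ ξ, ∀ ν μ, ξ < ν → ξ < μ → ν ≠ μ → (σ.x ν, σ.x μ) ∈ R →
      ¬ IsMeagre {w : W | (σ.x ν, pt (σ.g (σ.τ μ)) w) ∈ R} := by
  -- the five sets
  set B1 : Set (Par × W) := {q | (q.1.1, pt q.1.2.1 q.2, q.1.2.1) ∈ QQ R} with hB1
  set B2 : Set (Par × W) :=
    {q | ¬ IsMeagre {w : W | (pt q.1.2.2 w, pt q.1.2.1 q.2, q.1.2.1) ∈ QQ R}} with hB2
  set B3 : Set (Par × W) :=
    {q | ¬ IsMeagre {x : ℕ → Bool | (x, pt q.1.2.1 q.2, q.1.2.1) ∈ QQ R}} with hB3
  set B4 : Set (Par × (ℕ → ℕ)) :=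
    {q | ¬ IsMeagre {w : W | (pt (fun n => q.1.2.2 (q.2 n)) w, q.1.1, q.1.2.1) ∈ QQ R}} with hB4
  set B5 : Set (Par × W) := {q | (pt q.1.2.2 q.2, q.1.1, q.1.2.1) ∈ QQ R} with hB5
  have hQ := l1_QQ hR
  have m1 : MeasurableSet B1 := by
    have hm : Measurable fun q : Par × W => (q.1.1, pt q.1.2.1 q.2, q.1.2.1) :=
      (measurable_fst.comp measurable_fst).prodMk
        ((l1_pt (measurable_fst.comp (measurable_snd.comp measurable_fst)) measurable_snd).prodMk
          (measurable_fst.comp (measurable_snd.comp measurable_fst)))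
    exact hm hQ
  have m5 : MeasurableSet B5 := by
    have hm : Measurable fun q : Par × W => (pt q.1.2.2 q.2, q.1.1, q.1.2.1) :=
      (l1_pt (measurable_snd.comp (measurable_snd.comp measurable_fst)) measurable_snd).prodMk
        ((measurable_fst.comp measurable_fst).prodMk
          (measurable_fst.comp (measurable_snd.comp measurable_fst)))
    exact hm hQ
  have m2 : MeasurableSet B2 := by
    have hm : Measurable fun r : (Par × W) × W =>
        (pt r.1.1.2.2 r.2, pt r.1.1.2.1 r.1.2, r.1.1.2.1) :=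
      (l1_pt (measurable_snd.comp (measurable_snd.comp (measurable_fst.comp measurable_fst)))
        measurable_snd).prodMk
        ((l1_pt (measurable_fst.comp (measurable_snd.comp (measurable_fst.comp measurable_fst)))
          (measurable_snd.comp measurable_fst)).prodMk
          (measurable_fst.comp (measurable_snd.comp (measurable_fst.comp measurable_fst))))
    have hB : MeasurableSet {r : (Par × W) × W |
        (pt r.1.1.2.2 r.2, pt r.1.1.2.1 r.1.2, r.1.1.2.1) ∈ QQ R} := hm hQ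
    exact (meas_meagre hB).compl
  have m3 : MeasurableSet B3 := by
    have hm : Measurable fun r : (Par × W) × (ℕ → Bool) =>
        (r.2, pt r.1.1.2.1 r.1.2, r.1.1.2.1) :=
      measurable_snd.prodMk
        ((l1_pt (measurable_fst.comp (measurable_snd.comp (measurable_fst.comp measurable_fst)))
          (measurable_snd.comp measurable_fst)).prodMk
          (measurable_fst.comp (measurable_snd.comp (measurable_fst.comp measurable_fst))))
    have hB : MeasurableSet {r : (Par × W) × (ℕ → Bool) |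
        (r.2, pt r.1.1.2.1 r.1.2, r.1.1.2.1) ∈ QQ R} := hm hQ
    exact (meas_meagre hB).compl
  have m4 : MeasurableSet B4 := by
    have hm : Measurable fun r : (Par × (ℕ → ℕ)) × W =>
        (pt (fun n => r.1.1.2.2 (r.1.2 n)) r.2, r.1.1.1, r.1.1.2.1) :=
      (l1_pt (l1_comp (measurable_snd.comp (measurable_snd.comp
          (measurable_fst.comp measurable_fst))) (measurable_snd.comp measurable_fst))
        measurable_snd).prodMk
        ((measurable_fst.comp (measurable_fst.comp measurable_fst)).prodMk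
          (measurable_fst.comp (measurable_snd.comp (measurable_fst.comp measurable_fst))))
    have hB : MeasurableSet {r : (Par × (ℕ → ℕ)) × W |
        (pt (fun n => r.1.1.2.2 (r.1.2 n)) r.2, r.1.1.1, r.1.1.2.1) ∈ QQ R} := hm hQ
    exact (meas_meagre hB).compl
  obtain ⟨ξ1, H1⟩ := h2 B1 m1
  obtain ⟨ξ2, H2⟩ := h2 B2 m2
  obtain ⟨ξ3, H3⟩ := h2 B3 m3
  obtain ⟨ξ4, H4⟩ := h1 B4 m4
  obtain ⟨ξ5, H5⟩ := h2 B5 m5
  refine ⟨max ξ1 (max ξ2 (max ξ3 (max ξ4 ξ5))), ?_⟩
  intro ν μ hν hμ hne hmem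
  simp only [max_lt_iff] at hν hμ
  obtain ⟨hν1, hν2, hν3, hν4, hν5⟩ := hν
  obtain ⟨hμ1, hμ2, hμ3, hμ4, hμ5⟩ := hμ
  intro hmeagre
  have hE : (σ.x ν, σ.g (σ.τ μ)) ∈ EE R := hmeagre
  have hq : (σ.x ν, σ.x μ, σ.g (σ.τ μ)) ∈ QQ R := ⟨hmem, hE⟩
  rcases lt_or_gt_of_ne hne with hlt | hlt
  · -- `ν < μ`
    exact H1 μ hμ1 ν hlt (σ.τ μ) (σ.τ_le μ) (σ.τ μ) (σ.τ_le μ)
      (l1_sec R (σ.x ν) (σ.g (σ.τ μ))) hq
  · -- `μ < ν`
    have hβμ : σ.τ μ ≤ μ := σ.τ_le μ
    have hαν : σ.τ ν ≤ ν := σ.τ_le ν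
    have hstar : IsMeagre {w : W | (pt (σ.g (σ.τ ν)) w, σ.x μ, σ.g (σ.τ μ)) ∈ QQ R} := by
      rcases le_or_gt (σ.τ ν) μ with hα | hα
      · have e1 := H2 μ hμ2 ξ2 hμ2 (σ.τ μ) hβμ (σ.τ ν) hα
          (l1_exch hR (σ.g (σ.τ μ)) (fun w : W => pt (σ.g (σ.τ ν)) w)
            (l1_pt measurable_const measurable_id))
        by_contra hcon
        exact e1 hcon
      · have e1 := H3 μ hμ3 ξ3 hμ3 (σ.τ μ) hβμ (σ.τ μ) hβμ
          (l1_exch hR (σ.g (σ.τ μ)) (fun x : ℕ → Bool => x) measurable_id)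
        have hN : IsMeagre {x : ℕ → Bool | (x, σ.x μ, σ.g (σ.τ μ)) ∈ QQ R} := by
          by_contra hcon
          exact e1 hcon
        have hsec : IsMeagre {z : ℕ → ℕ |
            ((σ.x μ, σ.g (σ.τ μ), σ.k (σ.τ ν)), z) ∈ B4} :=
          ku_fwd (fact1 (σ.k (σ.τ ν)) (hk _) _ hN)
        have e2 := H4 (σ.τ ν) (lt_trans hμ4 hα) μ hα (σ.τ μ) (lt_of_le_of_lt hβμ hα) hsec
        have hbot : σ.τ ν ≠ σ.bot := by
          intro h
          rw [h] at hα
          exact absurd (σ.bot_le μ) (not_le.mpr hα)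
        have hg : σ.g (σ.τ ν) = fun n => σ.k (σ.τ ν) (σ.h (σ.τ ν) n) := by
          unfold Sq.g
          rw [if_neg hbot]
        by_contra hcon
        apply e2
        rw [hg] at hcon
        exact hcon
    exact H5 ν hν5 μ hlt (σ.τ μ) (hβμ.trans hlt.le) (σ.τ ν) hαν hstar hq

end Pool.Agent.H507_U
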