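import Mathlib
import Pool.Agent.H507_U.PosDefs
import Pool.Agent.H507_U.Cat
import Pool.Agent.H507_U.Pts

/-!
Second lemma on projections.
-/

set_option autoImplicit false

namespace Pool.Agent.H507_U

open Set

theorem l2_cmp : Continuous fun p : (ℕ → ℕ) × (ℕ → ℕ) => (fun n => p.1 (p.2 n) : ℕ → ℕ) := by
  refine continuous_pi fun n => ?_
  have h1 : Continuous fun p : (ℕ → ℕ) × ℕ => p.1 p.2 := by
    rw [continuous_prod_of_discrete_right]
    intro b
    exact continuous_apply b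
  have h2 : Continuous fun p : (ℕ → ℕ) × (ℕ → ℕ) => (p.1, p.2 n) :=
    continuous_fst.prodMk ((continuous_apply n).comp continuous_snd)
  exact h1.comp h2

theorem l2_pt {P : Type} [TopologicalSpace P] {f : P → ℕ → ℕ} {v : P → W} (hf : Continuous f)
    (hv : Continuous v) : Continuous fun p => pt (f p) (v p) :=
  continuous_pt.comp (hf.prodMk hv)

theorem l2_co {P : Type} [TopologicalSpace P] {f g : P → ℕ → ℕ} (hf : Continuous f)
    (hg : Continuous g) : Continuous fun p => (fun n => f p (g p n) : ℕ → ℕ) :=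
  l2_cmp.comp (hf.prodMk hg)

instance l2_cm : TopologicalSpace.IsCompletelyMetrizableSpace W :=
  (W_closed.isClosedEmbedding_subtypeVal).IsCompletelyMetrizableSpace

instance l2_baire : BaireSpace ((ℕ → ℕ) × W) := by
  let _ := TopologicalSpace.upgradeIsCompletelyMetrizable ((ℕ → ℕ) × W)
  infer_instance

/-- the part of `R` over the points with meagre sections -/
def l2N (R : Set ((ℕ → Bool) × (ℕ → Bool))) : Set ((ℕ → Bool) × (ℕ → Bool)) :=
  {p | p ∈ R ∧ IsMeagre {y | (p.1, y) ∈ R}}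

theorem l2N_meas (R : Set ((ℕ → Bool) × (ℕ → Bool))) (hR : MeasurableSet R) :
    MeasurableSet (l2N R) :=
  hR.inter (measurable_fst (meas_meagre hR))

theorem l2N_sec (R : Set ((ℕ → Bool) × (ℕ → Bool))) (x : ℕ → Bool) :
    IsMeagre {y | (x, y) ∈ l2N R} := by
  by_cases h : IsMeagre {y | (x, y) ∈ R}
  · exact h.mono fun y hy => hy.1
  · have : {y | (x, y) ∈ l2N R} = ∅ := by
      ext y
      constructor
      · intro hy
        exact absurd hy.2 h
      · intro hy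
        exact absurd hy (notMem_empty y)
    rw [this]
    exact IsMeagre.empty

theorem l2_empty {X Y : Type} [TopologicalSpace X] [TopologicalSpace Y] {B : Set (X × Y)}
    (h : ∀ x, IsMeagre {y | (x, y) ∈ B}) : IsMeagre {x | ¬ IsMeagre {y | (x, y) ∈ B}} := by
  have : {x | ¬ IsMeagre {y | (x, y) ∈ B}} = ∅ := by
    ext x
    constructor
    · intro hx
      exact absurd (h x) hx
    · intro hx
      exact absurd hx (notMem_empty x)
  rw [this]
  exact IsMeagre.empty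

theorem l2_claim {K : Type} [LinearOrder K] (σ : Sq K) (h1 : σ.GenH) (h2 : σ.GenV)
    (hk : ∀ β, Star (σ.k β)) (N : Set ((ℕ → Bool) × (ℕ → Bool))) (hN : MeasurableSet N)
    (hsec : ∀ x, IsMeagre {y | (x, y) ∈ N}) :
    ∃ ξ, ∀ ν β, ξ < ν → ξ < β → IsMeagre {w : W | (σ.x ν, pt (σ.g β) w) ∈ N} := by
  have hNm : IsMeagre N := ku_prod hN (l2_empty hsec)
  have hNy : IsMeagre {y | ¬ IsMeagre {x | (x, y) ∈ N}} := ku_exch hN (l2_empty hsec)
  -- C1
  have m1 : MeasurableSet {q : Par × (ℕ → ℕ) |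
      ¬ IsMeagre {w : W | (q.1.1, pt (fun n => q.1.2.2 (q.2 n)) w) ∈ N}} := by
    have hc : Continuous fun z : (Par × (ℕ → ℕ)) × W =>
        (z.1.1.1, pt (fun n => z.1.1.2.2 (z.1.2 n)) z.2) :=
      (by fun_prop : Continuous fun z : (Par × (ℕ → ℕ)) × W => z.1.1.1).prodMk
        (l2_pt (l2_co (by fun_prop) (by fun_prop)) continuous_snd)
    exact (meas_meagre (hc.measurable hN)).compl
  obtain ⟨ξ1, hξ1⟩ := h1 _ m1
  -- C2
  have m2 : MeasurableSet {q : Par × W |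
      ¬ IsMeagre {u : W | (pt q.1.2.1 q.2, pt q.1.2.2 u) ∈ N}} := by
    have hc : Continuous fun z : (Par × W) × W => (pt z.1.1.2.1 z.1.2, pt z.1.1.2.2 z.2) :=
      (l2_pt (by fun_prop) (by fun_prop)).prodMk (l2_pt (by fun_prop) continuous_snd)
    exact (meas_meagre (hc.measurable hN)).compl
  obtain ⟨ξ2, hξ2⟩ := h2 _ m2
  -- C3
  have m3 : MeasurableSet {q : Par × (ℕ → ℕ) | ¬ IsMeagre {w : W |
      ¬ IsMeagre {u : W | (pt q.1.2.1 w, pt (fun n => q.1.2.2 (q.2 n)) u) ∈ N}}} := by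
    have hc : Continuous fun z : ((Par × (ℕ → ℕ)) × W) × W =>
        (pt z.1.1.1.2.1 z.1.2, pt (fun n => z.1.1.1.2.2 (z.1.1.2 n)) z.2) :=
      (l2_pt (by fun_prop) (by fun_prop)).prodMk
        (l2_pt (l2_co (by fun_prop) (by fun_prop)) continuous_snd)
    have hin : MeasurableSet {z : (Par × (ℕ → ℕ)) × W |
        ¬ IsMeagre {u : W | (pt z.1.1.2.1 z.2, pt (fun n => z.1.1.2.2 (z.1.2 n)) u) ∈ N}} :=
      (meas_meagre (hc.measurable hN)).compl
    exact (meas_meagre hin).compl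
  obtain ⟨ξ3, hξ3⟩ := h1 _ m3
  -- C4
  have m4 : MeasurableSet {q : Par × (ℕ → ℕ) | ¬ IsMeagre {w : W |
      ¬ IsMeagre {u : W | (pt (fun n => q.1.2.2 (q.2 n)) w,
        pt (fun n => q.1.2.2 (q.2 n)) u) ∈ N}}} := by
    have hc : Continuous fun z : ((Par × (ℕ → ℕ)) × W) × W =>
        (pt (fun n => z.1.1.1.2.2 (z.1.1.2 n)) z.1.2,
          pt (fun n => z.1.1.1.2.2 (z.1.1.2 n)) z.2) :=
      (l2_pt (l2_co (by fun_prop) (by fun_prop)) (by fun_prop)).prodMk
        (l2_pt (l2_co (by fun_prop) (by fun_prop)) continuous_snd)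
    have hin : MeasurableSet {z : (Par × (ℕ → ℕ)) × W |
        ¬ IsMeagre {u : W | (pt (fun n => z.1.1.2.2 (z.1.2 n)) z.2,
          pt (fun n => z.1.1.2.2 (z.1.2 n)) u) ∈ N}} :=
      (meas_meagre (hc.measurable hN)).compl
    exact (meas_meagre hin).compl
  obtain ⟨ξ4, hξ4⟩ := h1 _ m4
  -- C5
  have m5 : MeasurableSet {q : Par × (ℕ → ℕ) | ¬ IsMeagre {w : W |
      ¬ IsMeagre {u : W | (pt (fun n => q.1.2.2 (q.2 n)) w, pt q.1.2.1 u) ∈ N}}} := by
    have hc : Continuous fun z : ((Par × (ℕ → ℕ)) × W) × W =>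
        (pt (fun n => z.1.1.1.2.2 (z.1.1.2 n)) z.1.2, pt z.1.1.1.2.1 z.2) :=
      (l2_pt (l2_co (by fun_prop) (by fun_prop)) (by fun_prop)).prodMk
        (l2_pt (by fun_prop) continuous_snd)
    have hin : MeasurableSet {z : (Par × (ℕ → ℕ)) × W |
        ¬ IsMeagre {u : W | (pt (fun n => z.1.1.2.2 (z.1.2 n)) z.2, pt z.1.1.2.1 u) ∈ N}} :=
      (meas_meagre (hc.measurable hN)).compl
    exact (meas_meagre hin).compl
  obtain ⟨ξ5, hξ5⟩ := h1 _ m5
  -- C6
  have m6 : MeasurableSet {q : Par × (ℕ → ℕ) | ¬ IsMeagre {u : W |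
      ¬ IsMeagre {x : ℕ → Bool | (x, pt (fun n => q.1.2.2 (q.2 n)) u) ∈ N}}} := by
    have hc0 : Continuous fun z : (Par × (ℕ → ℕ)) × W =>
        pt (fun n => z.1.1.2.2 (z.1.2 n)) z.2 :=
      l2_pt (l2_co (by fun_prop) (by fun_prop)) (by fun_prop)
    have hc : Measurable fun z : ((Par × (ℕ → ℕ)) × W) × (ℕ → Bool) =>
        (z.2, pt (fun n => z.1.1.1.2.2 (z.1.1.2 n)) z.1.2) :=
      measurable_snd.prodMk (hc0.measurable.comp measurable_fst)
    have hin : MeasurableSet {z : (Par × (ℕ → ℕ)) × W |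
        ¬ IsMeagre {x : ℕ → Bool | (x, pt (fun n => z.1.1.2.2 (z.1.2 n)) z.2) ∈ N}} :=
      (meas_meagre (hc hN)).compl
    exact (meas_meagre hin).compl
  obtain ⟨ξ6, hξ6⟩ := h1 _ m6
  refine ⟨max (max (max ξ1 ξ2) (max ξ3 ξ4)) (max ξ5 ξ6), fun ν β hν hβ => ?_⟩
  simp only [max_lt_iff] at hν hβ
  obtain ⟨⟨⟨v1, v2⟩, v3, v4⟩, v5, v6⟩ := hν
  obtain ⟨⟨⟨b1, b2⟩, b3, b4⟩, b5, b6⟩ := hβ
  have hbν : σ.bot < ν := lt_of_le_of_lt (σ.bot_le ξ1) v1
  have hbβ : σ.bot < β := lt_of_le_of_lt (σ.bot_le ξ1) b1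
  have hgβ : σ.g β = fun n => σ.k β (σ.h β n) := if_neg hbβ.ne'
  rcases lt_or_ge ν β with hlt | hge
  · -- ν < β
    have hm : IsMeagre {h : ℕ → ℕ |
        ¬ IsMeagre {w : W | (σ.x ν, pt (fun n => σ.k β (h n)) w) ∈ N}} :=
      ku_fwd (B := {p : (ℕ → ℕ) × W | pt (fun n => σ.k β (p.1 n)) p.2 ∈ {y | (σ.x ν, y) ∈ N}})
        (fact1 (σ.k β) (hk β) _ (hsec (σ.x ν)))
    have := hξ1 β b1 ν hlt σ.bot hbβ hm
    rw [hgβ]
    exact not_not.1 this
  · -- β ≤ ν
    set α := σ.τ ν with hα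
    have hαν : α ≤ ν := σ.τ_le ν
    have hxν : σ.x ν = pt (σ.g α) (σ.v ν) := rfl
    rw [hxν]
    have MM : IsMeagre {w : W | ¬ IsMeagre {u : W | (pt (σ.g α) w, pt (σ.g β) u) ∈ N}} := by
      rcases lt_trichotomy α β with hab | hab | hab
      · -- α < β
        have hcD : Continuous fun z : (W × (ℕ → ℕ)) × W =>
            (pt (σ.g α) z.1.1, pt (fun n => σ.k β (z.1.2 n)) z.2) :=
          (l2_pt continuous_const (by fun_prop)).prodMk
            (l2_pt (l2_co continuous_const (by fun_prop)) continuous_snd)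
        have hD : MeasurableSet {z : W × (ℕ → ℕ) |
            ¬ IsMeagre {u : W | (pt (σ.g α) z.1, pt (fun n => σ.k β (z.2 n)) u) ∈ N}} :=
          (meas_meagre (hcD.measurable hN)).compl
        have hm : IsMeagre {h : ℕ → ℕ | ¬ IsMeagre {w : W |
            ¬ IsMeagre {u : W | (pt (σ.g α) w, pt (fun n => σ.k β (h n)) u) ∈ N}}} := by
          refine ku_exch hD (l2_empty fun w => ?_)
          exact ku_fwd (B := {p : (ℕ → ℕ) × W |
            pt (fun n => σ.k β (p.1 n)) p.2 ∈ {y | (pt (σ.g α) w, y) ∈ N}})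
            (fact1 (σ.k β) (hk β) _ (hsec _))
        have := hξ3 β b3 σ.bot hbβ α hab hm
        rw [hgβ]
        exact not_not.1 this
      · -- α = β
        have hm : IsMeagre {h : ℕ → ℕ | ¬ IsMeagre {w : W |
            ¬ IsMeagre {u : W | (pt (fun n => σ.k β (h n)) w,
              pt (fun n => σ.k β (h n)) u) ∈ N}}} := by
          have e1 := ku_fwd (fact2 (σ.k β) (hk β) N hNm)
          refine IsMeagre.mono ?_ e1
          intro h hh hcon
          exact hh (ku_fwd hcon)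
        have := hξ4 β b4 σ.bot hbβ σ.bot hbβ hm
        rw [hab, hgβ]
        exact not_not.1 this
      · -- β < α
        have hbα : σ.bot < α := hbβ.trans hab
        have hgα : σ.g α = fun n => σ.k α (σ.h α n) := if_neg hbα.ne'
        have hm6 : IsMeagre {h : ℕ → ℕ | ¬ IsMeagre {u : W |
            ¬ IsMeagre {x : ℕ → Bool | (x, pt (fun n => σ.k β (h n)) u) ∈ N}}} :=
          ku_fwd (B := {p : (ℕ → ℕ) × W | pt (fun n => σ.k β (p.1 n)) p.2 ∈
            {y | ¬ IsMeagre {x | (x, y) ∈ N}}}) (fact1 (σ.k β) (hk β) _ hNy)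
        have hss : IsMeagre {u : W | ¬ IsMeagre {x : ℕ → Bool | (x, pt (σ.g β) u) ∈ N}} := by
          have := hξ6 β b6 σ.bot hbβ σ.bot hbβ hm6
          rw [hgβ]
          exact not_not.1 this
        have hcM : Continuous fun z : W × ((ℕ → ℕ) × W) =>
            (pt (fun n => σ.k α (z.2.1 n)) z.2.2, pt (σ.g β) z.1) :=
          (l2_pt (l2_co continuous_const (by fun_prop)) (by fun_prop)).prodMk
            (l2_pt continuous_const (by fun_prop))
        have hM : MeasurableSet {z : W × ((ℕ → ℕ) × W) |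
            (pt (fun n => σ.k α (z.2.1 n)) z.2.2, pt (σ.g β) z.1) ∈ N} := hcM.measurable hN
        have hm5 : IsMeagre {h : ℕ → ℕ | ¬ IsMeagre {w : W |
            ¬ IsMeagre {u : W | (pt (fun n => σ.k α (h n)) w, pt (σ.g β) u) ∈ N}}} := by
          refine ku_fwd (B := {q : (ℕ → ℕ) × W |
            ¬ IsMeagre {u : W | (pt (fun n => σ.k α (q.1 n)) q.2, pt (σ.g β) u) ∈ N}}) ?_
          refine ku_exch hM ?_
          refine IsMeagre.mono ?_ hss
          intro u hu hcon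
          exact hu (fact1 (σ.k α) (hk α) _ hcon)
        have hξα : ξ5 < α := b5.trans hab
        have := hξ5 α hξα σ.bot hbα β hab hm5
        rw [hgα]
        exact not_not.1 this
    have := hξ2 ν v2 σ.bot hbν α hαν β hge MM
    exact not_not.1 this

theorem lemma2 {K : Type} [LinearOrder K] (σ : Sq K) (h1 : σ.GenH) (h2 : σ.GenV)
    (hk : ∀ β, Star (σ.k β)) (R : Set ((ℕ → Bool) × (ℕ → Bool))) (hR : MeasurableSet R) :
    ∃ ξ, ∀ ν β, ξ < ν → ξ < β → ¬ IsMeagre {w : W | (σ.x ν, pt (σ.g β) w) ∈ R} →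
      ¬ IsMeagre {w : W | (σ.x ν, pt g0 w) ∈ R} := by
  obtain ⟨ξ, hξ⟩ := l2_claim σ h1 h2 hk (l2N R) (l2N_meas R hR) (l2N_sec R)
  refine ⟨ξ, fun ν β hν hβ hnm hm => hnm ?_⟩
  have hRx : MeasurableSet {y | (σ.x ν, y) ∈ R} := measurable_prodMk_left hR
  have hmx : IsMeagre {y | (σ.x ν, y) ∈ R} := fact0 _ hRx hm
  refine IsMeagre.mono ?_ (hξ ν β hν hβ)
  intro w hw
  exact ⟨hw, hmx⟩

end Pool.Agent.H507_U
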