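import Mathlib
import Pool.Agent.H507_U.PosDefs
import Pool.Agent.H507_U.Cat
import Pool.Agent.H507_U.Pts
import Pool.Agent.H507_U.PL1
import Pool.Agent.H507_U.PL2

/-!
Projections are Borel.
-/

set_option autoImplicit false

namespace Pool.Agent.H507_U

open Set

theorem proj_borel {K : Type} [LinearOrder K] (σ : Sq K) (hK1 : ∀ a : K, (Iic a).Countable)
    (hK2 : ∀ a : K, ∃ b, a < b) (h1 : σ.GenH) (h2 : σ.GenV) (h3 : σ.Hit)
    (hk : ∀ β, Star (σ.k β)) (R : Set ((ℕ → Bool) × (ℕ → Bool))) (hR : MeasurableSet R) :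
    ∃ D : Set (ℕ → Bool), MeasurableSet D ∧ ∀ ν, (∃ μ, (σ.x ν, σ.x μ) ∈ R) ↔ σ.x ν ∈ D := by
  obtain ⟨ξ1, H1⟩ := lemma1 σ h1 h2 hk R hR
  obtain ⟨ξ2, H2⟩ := lemma2 σ h1 h2 hk R hR
  obtain ⟨δ, hδ⟩ := hK2 (max ξ1 ξ2)
  have hδ1 : ξ1 < δ := (le_max_left _ _).trans_lt hδ
  have hδ2 : ξ2 < δ := (le_max_right _ _).trans_lt hδ
  have cpt : ∀ g : ℕ → ℕ, Continuous fun w : W => pt g w := fun g =>
    continuous_pt.comp (continuous_const.prodMk continuous_id)
  -- the set `D₁`
  let D₁ : Set (ℕ → Bool) :=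
    (⋃ β ∈ Iic δ, {x | ¬ IsMeagre {w : W | (x, pt (σ.g β) w) ∈ R}}) ∪
      (⋃ μ ∈ Iic δ, {x | (x, σ.x μ) ∈ R}) ∪ {x | (x, x) ∈ R}
  have hD₁ : MeasurableSet D₁ := by
    refine MeasurableSet.union (MeasurableSet.union ?_ ?_) ?_
    · refine MeasurableSet.biUnion (hK1 δ) fun β _ => ?_
      have hB : MeasurableSet {p : (ℕ → Bool) × W | (p.1, pt (σ.g β) p.2) ∈ R} :=
        (measurable_fst.prodMk ((cpt (σ.g β)).measurable.comp measurable_snd)) hR
      exact (meas_meagre hB).compl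
    · refine MeasurableSet.biUnion (hK1 δ) fun μ _ => ?_
      exact (measurable_id.prodMk measurable_const) hR
    · exact (measurable_id.prodMk measurable_id) hR
  have key : ∀ ν, δ < ν → ((∃ μ, (σ.x ν, σ.x μ) ∈ R) ↔ σ.x ν ∈ D₁) := by
    intro ν hν
    constructor
    · rintro ⟨μ, hμ⟩
      by_cases hμδ : μ ≤ δ
      · left; right
        exact mem_biUnion (show μ ∈ Iic δ from hμδ) hμ
      · by_cases hμν : ν = μ
        · right
          subst hμν
          exact hμ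
        · left; left
          have hμ' : δ < μ := not_le.1 hμδ
          have h4 := H1 ν μ (hδ1.trans hν) (hδ1.trans hμ') hμν hμ
          by_cases hτ : σ.τ μ ≤ δ
          · exact mem_biUnion (show σ.τ μ ∈ Iic δ from hτ) h4
          · have h5 := H2 ν (σ.τ μ) (hδ2.trans hν) (hδ2.trans (not_le.1 hτ)) h4
            refine mem_biUnion (show σ.bot ∈ Iic δ from σ.bot_le δ) ?_
            have e : σ.g σ.bot = g0 := if_pos rfl
            change ¬ IsMeagre {w : W | (σ.x ν, pt (σ.g σ.bot) w) ∈ R}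
            rw [e]
            exact h5
    · rintro ((hx | hx) | hx)
      · obtain ⟨β, hβ, hx⟩ := mem_iUnion₂.1 hx
        have hB : MeasurableSet {w : W | (σ.x ν, pt (σ.g β) w) ∈ R} :=
          (measurable_const.prodMk (cpt (σ.g β)).measurable) hR
        obtain ⟨μ, -, hτ, hv⟩ := h3 _ hB hx β ν
        refine ⟨μ, ?_⟩
        have e : σ.x μ = pt (σ.g β) (σ.v μ) := by rw [Sq.x, hτ]
        rw [e]
        exact hv
      · obtain ⟨μ, hμ, hx⟩ := mem_iUnion₂.1 hx
        exact ⟨μ, hx⟩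
      · exact ⟨ν, hx⟩
  -- the countable set `C`
  have hC : (σ.x '' Iic δ).Countable := (hK1 δ).image _
  refine ⟨(D₁ \ (σ.x '' Iic δ)) ∪ ((σ.x '' Iic δ) ∩ {x | ∃ μ, (x, σ.x μ) ∈ R}), ?_, ?_⟩
  · exact (hD₁.diff hC.measurableSet).union (hC.mono inter_subset_left).measurableSet
  · intro ν
    by_cases hν : σ.x ν ∈ σ.x '' Iic δ
    · constructor
      · intro h
        exact Or.inr ⟨hν, h⟩
      · rintro (h | h)
        · exact absurd hν h.2
        · exact h.2
    · have hδν : δ < ν := by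
        by_contra hcon
        exact hν ⟨ν, not_lt.1 hcon, rfl⟩
      rw [key ν hδν]
      constructor
      · intro h
        exact Or.inl ⟨h, hν⟩
      · rintro (h | h)
        · exact h.1
        · exact absurd h.1 hν

end Pool.Agent.H507_U

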