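import Mathlib
import Pool.Agent.H507_U.PosDefs

/-!
Existence of the generic sequence.
-/

set_option autoImplicit false

namespace Pool.Agent.H507_U

open Set

/-! auxiliary lemmas for `exists_seq` -/

theorem es_rec {K : Type} [LinearOrder K] [WellFoundedLT K] {S : Type} [Nonempty S]
    (P : K → (K → S) → Prop)
    (hdep : ∀ ν F F', (∀ μ, μ ≤ ν → F μ = F' μ) → P ν F → P ν F')
    (hex : ∀ ν F, ∃ s, P ν (Function.update F ν s)) : ∃ F : K → S, ∀ ν, P ν F := by
  classical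
  let d : S := Classical.arbitrary S
  let E : ∀ ν : K, (∀ μ, μ < ν → S) → (K → S) := fun ν f μ => if h : μ < ν then f μ h else d
  let step : ∀ ν : K, (∀ μ, μ < ν → S) → S := fun ν f => (hex ν (E ν f)).choose
  have hstep : ∀ ν f, P ν (Function.update (E ν f) ν (step ν f)) := fun ν f =>
    (hex ν (E ν f)).choose_spec
  let F : K → S := (wellFounded_lt (α := K)).fix step
  have hF : ∀ ν, F ν = step ν (fun μ _ => F μ) := fun ν => WellFounded.fix_eq _ _ _
  refine ⟨F, fun ν => ?_⟩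
  refine hdep ν _ _ ?_ (hstep ν (fun μ _ => F μ))
  intro μ hμ
  rcases hμ.lt_or_eq with h | rfl
  · rw [Function.update_of_ne h.ne]
    simp only [E, dif_pos h]
  · rw [Function.update_self, ← hF]

open Cardinal in
theorem es_card (X : Type) [m : MeasurableSpace X] [hc : MeasurableSpace.CountablyGenerated X] :
    #{B : Set X // MeasurableSet B} ≤ 𝔠 := by
  obtain ⟨b, hb, hm⟩ := hc.isCountablyGenerated
  subst hm
  have h1 : #b ≤ 𝔠 := (Cardinal.mk_le_aleph0_iff.2 hb.to_subtype).trans Cardinal.aleph0_le_continuum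
  exact MeasurableSpace.cardinal_measurableSet_le_continuum h1

open Cardinal in
theorem es_surj {K A : Type} [Nonempty A] (h : #A ≤ #K) : ∃ f : K → A, Function.Surjective f := by
  obtain ⟨e⟩ := Cardinal.le_def A K |>.1 h
  exact ⟨Function.invFun e, Function.invFun_surjective e.injective⟩

/-- the enumeration given by `F` -/
def es_g {K : Type} [LinearOrder K] (bot : K) (k : K → ℕ → ℕ) (F : K → (ℕ → ℕ) × W) (β : K) : ℕ → ℕ :=
  if β = bot then g0 else fun n => k β ((F β).1 n)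

/-- the point given by `F` -/
def es_x {K : Type} [LinearOrder K] (bot : K) (k : K → ℕ → ℕ) (τ : K → K)
    (F : K → (ℕ → ℕ) × W) (ν : K) : ℕ → Bool :=
  pt (es_g bot k F (τ ν)) (F ν).2

theorem es_g_congr {K : Type} [LinearOrder K] (bot : K) (k : K → ℕ → ℕ)
    (F F' : K → (ℕ → ℕ) × W) (β : K) (h : (F β).1 = (F' β).1) :
    es_g bot k F β = es_g bot k F' β := by
  unfold es_g
  rw [h]

theorem es_x_congr {K : Type} [LinearOrder K] (bot : K) (k : K → ℕ → ℕ) (τ : K → K)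
    (F F' : K → (ℕ → ℕ) × W) (ν : K) (h1 : F (τ ν) = F' (τ ν)) (h2 : F ν = F' ν) :
    es_x bot k τ F ν = es_x bot k τ F' ν := by
  unfold es_x
  rw [es_g_congr bot k F F' _ (by rw [h1]), h2]

theorem es_avoid {X I : Type} [TopologicalSpace X] [BaireSpace X] [Nonempty X] [Countable I]
    (A : I → Set X) (B : Set X) : ∃ z : X, (∀ i, IsMeagre (A i) → z ∉ A i) ∧
      (¬ IsMeagre B → z ∈ B) := by
  classical
  let M : Set X := ⋃ i : I, (if IsMeagre (A i) then A i else ∅)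
  have hM : IsMeagre M := by
    apply isMeagre_iUnion
    intro i
    split_ifs with h
    · exact h
    · exact IsMeagre.empty
  have hMi : ∀ i, IsMeagre (A i) → A i ⊆ M := by
    intro i hi z hz
    refine Set.mem_iUnion.2 ⟨i, ?_⟩
    rw [if_pos hi]
    exact hz
  by_cases hB : IsMeagre B
  · have hun : ¬ IsMeagre (Set.univ : Set X) := not_isMeagre_of_isOpen isOpen_univ Set.univ_nonempty
    have : ∃ z, z ∉ M := by
      by_contra hcon
      push Not at hcon
      exact hun (hM.mono (fun z _ => hcon z))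
    obtain ⟨z, hz⟩ := this
    exact ⟨z, fun i hi hzi => hz (hMi i hi hzi), fun h => absurd hB h⟩
  · have : ∃ z, z ∈ B ∧ z ∉ M := by
      by_contra hcon
      push Not at hcon
      exact hB (hM.mono (fun z hz => hcon z hz))
    obtain ⟨z, hzB, hz⟩ := this
    exact ⟨z, fun i hi hzi => hz (hMi i hi hzi), fun _ => hzB⟩

open Cardinal in
theorem exists_seq {K : Type} [LinearOrder K] [WellFoundedLT K] (hK1 : ∀ a : K, (Iio a).Countable)
    (hK2 : #K = 𝔠) (bot : K) (hbot : ∀ a, bot ≤ a) (k : K → ℕ → ℕ) :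
    ∃ σ : Sq K, σ.bot = bot ∧ σ.k = k ∧ σ.GenH ∧ σ.GenV ∧ σ.Hit := by
  classical
  have hKinf : ℵ₀ ≤ #K := by rw [hK2]; exact Cardinal.aleph0_le_continuum
  have hne1 : Nonempty {B : Set (Par × (ℕ → ℕ)) // MeasurableSet B} := ⟨⟨∅, MeasurableSet.empty⟩⟩
  have hne2 : Nonempty {B : Set (Par × W) // MeasurableSet B} := ⟨⟨∅, MeasurableSet.empty⟩⟩
  have hne3 : Nonempty {B : Set W // MeasurableSet B} := ⟨⟨∅, MeasurableSet.empty⟩⟩
  have hneK : Nonempty K := ⟨bot⟩
  obtain ⟨eH, heH⟩ := es_surj (K := K) (A := {B : Set (Par × (ℕ → ℕ)) // MeasurableSet B})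
    (by rw [hK2]; exact es_card _)
  obtain ⟨eV, heV⟩ := es_surj (K := K) (A := {B : Set (Par × W) // MeasurableSet B})
    (by rw [hK2]; exact es_card _)
  obtain ⟨φ, hφ⟩ := es_surj (K := K) (A := K × {B : Set W // MeasurableSet B} × K) (by
    simp only [Cardinal.mk_prod, Cardinal.lift_id, hK2]
    have h3 := es_card W
    calc 𝔠 * (#{B : Set W // MeasurableSet B} * 𝔠) ≤ 𝔠 * (𝔠 * 𝔠) := by gcongr
      _ = 𝔠 := by rw [Cardinal.continuum_mul_self, Cardinal.continuum_mul_self])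
  let τ : K → K := fun ν => if (φ ν).1 ≤ ν then (φ ν).1 else bot
  have hτ : ∀ ν, τ ν ≤ ν := by
    intro ν
    simp only [τ]
    split_ifs with h
    · exact h
    · exact hbot ν
  have hcIio : ∀ ν : K, Countable (Iio ν) := fun ν => (hK1 ν).to_subtype
  have hcIic : ∀ ν : K, Countable (Iic ν) := by
    intro ν
    have : (Iic ν) = insert ν (Iio ν) := by
      ext a
      simp only [mem_Iic, mem_insert_iff, mem_Iio]
      exact le_iff_eq_or_lt
    rw [this]
    exact ((hK1 ν).insert ν).to_subtype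
  let PH : K → (K → (ℕ → ℕ) × W) → Prop := fun ν F => ∀ ξ, ξ < ν → ∀ μ, μ < ν → ∀ β, β < ν →
    IsMeagre {z | ((es_x bot k τ F μ, es_g bot k F β, k ν), z) ∈ (eH ξ).1} →
      ((es_x bot k τ F μ, es_g bot k F β, k ν), (F ν).1) ∉ (eH ξ).1
  let PV : K → (K → (ℕ → ℕ) × W) → Prop := fun ν F => ∀ ξ, ξ < ν → ∀ μ, μ < ν → ∀ β, β ≤ ν →
    ∀ γ, γ ≤ ν →
    IsMeagre {z | ((es_x bot k τ F μ, es_g bot k F β, es_g bot k F γ), z) ∈ (eV ξ).1} →
      ((es_x bot k τ F μ, es_g bot k F β, es_g bot k F γ), (F ν).2) ∉ (eV ξ).1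
  let PT : K → (K → (ℕ → ℕ) × W) → Prop := fun ν F => ¬ IsMeagre (φ ν).2.1.1 → (F ν).2 ∈ (φ ν).2.1.1
  obtain ⟨F, hF⟩ := es_rec (K := K) (S := (ℕ → ℕ) × W) (fun ν F => PH ν F ∧ PV ν F ∧ PT ν F)
    (by
      intro ν F F' hFF' hP
      obtain ⟨h1, h2, h3⟩ := hP
      have hg : ∀ β, β ≤ ν → es_g bot k F' β = es_g bot k F β := fun β hβ =>
        es_g_congr bot k F' F β (by rw [hFF' β hβ])
      have hx : ∀ μ, μ ≤ ν → es_x bot k τ F' μ = es_x bot k τ F μ := fun μ hμ =>
        es_x_congr bot k τ F' F μ (hFF' _ ((hτ μ).trans hμ)).symm (hFF' μ hμ).symm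
      refine ⟨?_, ?_, ?_⟩
      · intro ξ hξ μ hμ β hβ
        rw [hg β hβ.le, hx μ hμ.le, ← hFF' ν le_rfl]
        exact h1 ξ hξ μ hμ β hβ
      · intro ξ hξ μ hμ β hβ γ hγ
        rw [hg β hβ, hg γ hγ, hx μ hμ.le, ← hFF' ν le_rfl]
        exact h2 ξ hξ μ hμ β hβ γ hγ
      · intro hB
        rw [← hFF' ν le_rfl]
        exact h3 hB)
    (by
      intro ν F
      have hci := hcIio ν
      have hci' := hcIic ν
      obtain ⟨hh, hh1, -⟩ := es_avoid (X := ℕ → ℕ) (I := Iio ν × Iio ν × Iio ν)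
        (fun i => {z | ((es_x bot k τ F i.2.1, es_g bot k F i.2.2, k ν), z) ∈ (eH i.1).1}) ∅
      let G : K → (ℕ → ℕ) × W := Function.update F ν (hh, (F ν).2)
      obtain ⟨vv, hv1, hv2⟩ := es_avoid (X := W) (I := Iio ν × Iio ν × Iic ν × Iic ν)
        (fun i => {z | ((es_x bot k τ F i.2.1, es_g bot k G i.2.2.1, es_g bot k G i.2.2.2), z)
          ∈ (eV i.1).1}) (φ ν).2.1.1
      refine ⟨(hh, vv), ?_⟩
      set F' := Function.update F ν (hh, vv) with hF'
      have hFlt : ∀ μ, μ < ν → F' μ = F μ := fun μ hμ => Function.update_of_ne hμ.ne _ _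
      have hFν : F' ν = (hh, vv) := Function.update_self _ _ _
      have hx : ∀ μ, μ < ν → es_x bot k τ F' μ = es_x bot k τ F μ := fun μ hμ =>
        es_x_congr bot k τ F' F μ (hFlt _ ((hτ μ).trans_lt hμ)) (hFlt μ hμ)
      have hgl : ∀ β, β < ν → es_g bot k F' β = es_g bot k F β := fun β hβ =>
        es_g_congr bot k F' F β (by rw [hFlt β hβ])
      have hgG : ∀ β, β ≤ ν → es_g bot k F' β = es_g bot k G β := by
        intro β hβ
        apply es_g_congr
        rcases hβ.lt_or_eq with h | rfl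
        · rw [hFlt β h]
          simp only [G]
          rw [Function.update_of_ne h.ne]
        · rw [hFν]
          simp only [G]
          rw [Function.update_self]
      refine ⟨?_, ?_, ?_⟩
      · intro ξ hξ μ hμ β hβ
        rw [hx μ hμ, hgl β hβ, hFν]
        exact hh1 (⟨ξ, hξ⟩, ⟨μ, hμ⟩, ⟨β, hβ⟩)
      · intro ξ hξ μ hμ β hβ γ hγ
        rw [hx μ hμ, hgG β hβ, hgG γ hγ, hFν]
        exact hv1 (⟨ξ, hξ⟩, ⟨μ, hμ⟩, ⟨β, hβ⟩, ⟨γ, hγ⟩)
      · intro hB
        rw [hFν]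
        exact hv2 hB)
  let σ : Sq K := ⟨bot, hbot, k, fun ν => (F ν).1, fun ν => (F ν).2, τ, hτ⟩
  have hσg : ∀ β, σ.g β = es_g bot k F β := fun β => rfl
  have hσx : ∀ ν, σ.x ν = es_x bot k τ F ν := fun ν => rfl
  refine ⟨σ, rfl, rfl, ?_, ?_, ?_⟩
  · intro B hB
    obtain ⟨ξ, hξ⟩ := heH ⟨B, hB⟩
    refine ⟨ξ, fun ν hν μ hμ β hβ => ?_⟩
    have := (hF ν).1 ξ hν μ hμ β hβ
    rw [hξ] at this
    exact this
  · intro B hB
    obtain ⟨ξ, hξ⟩ := heV ⟨B, hB⟩
    refine ⟨ξ, fun ν hν μ hμ β hβ γ hγ => ?_⟩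
    have := (hF ν).2.1 ξ hν μ hμ β hβ γ hγ
    rw [hξ] at this
    exact this
  · intro B hB hBm β ν₀
    have hex : ∃ ν, max β ν₀ < ν ∧ φ ν ∈ {p : K × {B : Set W // MeasurableSet B} × K |
        p.1 = β ∧ p.2.1 = ⟨B, hB⟩} := by
      by_contra hcon
      push Not at hcon
      have hc : ∀ κ : K, ∃ ν, φ ν = (β, ⟨B, hB⟩, κ) := fun κ => hφ _
      choose ψ hψ using hc
      have hinj : Function.Injective ψ := by
        intro a b hab
        have h1 := hψ a
        rw [hab, hψ b] at h1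
        exact ((Prod.mk.inj (Prod.mk.inj h1).2).2).symm
      have hmem : ∀ κ, ψ κ ∈ Iic (max β ν₀) := by
        intro κ
        by_contra h
        rw [mem_Iic, not_le] at h
        refine hcon (ψ κ) h ?_
        rw [hψ κ]
        exact ⟨rfl, rfl⟩
      have hci := hcIic (max β ν₀)
      have hcK : Countable K :=
        Function.Injective.countable (f := fun κ => (⟨ψ κ, hmem κ⟩ : Iic (max β ν₀)))
          (fun a b hab => hinj (Subtype.ext_iff.1 hab))
      have h1 : #K ≤ ℵ₀ := Cardinal.mk_le_aleph0_iff.2 hcK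
      rw [hK2] at h1
      exact absurd h1 (not_le.2 Cardinal.aleph0_lt_continuum)
    obtain ⟨ν, hν, h1, h2⟩ := hex
    refine ⟨ν, (le_max_right _ _).trans_lt hν, ?_, ?_⟩
    · change τ ν = β
      simp only [τ]
      rw [h1, if_pos ((le_max_left _ _).trans_lt hν).le]
    · have h3 := (hF ν).2.2
      simp only [PT] at h3
      rw [h2] at h3
      exact h3 hBm

end Pool.Agent.H507_U
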