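import Mathlib
import Pool.Agent.H507_U.Long
import Pool.Agent.H507_U.Seq
import Pool.Agent.H507_U.PB
import Pool.Agent.R594.Star.CH

/-!
The continuum hypothesis gives a sequence of sets as in the problem.
-/

set_option autoImplicit false

namespace Pool.Agent.H507_U

open Set MeasurableSpace Cardinal
open scoped MeasureTheory
open Pool.Agent.Helper126.Sus.Forc (K1)
open Pool.Agent.R594.Star (exists_gt_K1 mk_K1 countable_Iio_K1)

universe u

/-- sets over `A` come from sets over the basic clopen sets -/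
theorem sig_pull {E : Type u} (A : ℕ → Set E) (χ : E → ℕ → Bool)
    (hχ : ∀ x n, χ x n = true ↔ x ∈ A n) {α : Ordinal.{0}} {S : Set E} (h : Sig A α S) :
    ∃ C, Sig Bc α C ∧ S = χ ⁻¹' C := by
  induction h with
  | @zero S h =>
    have h' : ∃ C ∈ MeasureTheory.generateSetAlgebra (range Bc), S = χ ⁻¹' C := by
      induction h with
      | base s hs =>
        obtain ⟨n, rfl⟩ := hs
        refine ⟨Bc n, MeasureTheory.generateSetAlgebra.base _ ⟨n, rfl⟩, ?_⟩
        ext x
        exact (hχ x n).symm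
      | empty => exact ⟨∅, MeasureTheory.generateSetAlgebra.empty, by simp⟩
      | compl s _ ih =>
        obtain ⟨C, hC, rfl⟩ := ih
        exact ⟨Cᶜ, MeasureTheory.generateSetAlgebra.compl _ hC, rfl⟩
      | union s t _ _ ih1 ih2 =>
        obtain ⟨C, hC, rfl⟩ := ih1
        obtain ⟨C', hC', rfl⟩ := ih2
        exact ⟨C ∪ C', MeasureTheory.generateSetAlgebra.union _ _ hC hC', rfl⟩
    obtain ⟨C, hC, hC'⟩ := h'
    exact ⟨C, Sig.zero hC, hC'⟩
  | pos hα β hβ S _ ih =>
    choose C hC hC' using ih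
    refine ⟨⋃ n, (C n)ᶜ, Sig.pos hα β hβ C hC, ?_⟩
    ext x
    simp only [mem_iUnion, mem_compl_iff, mem_preimage]
    constructor
    · rintro ⟨n, hn⟩
      exact ⟨n, by rw [hC' n] at hn; exact hn⟩
    · rintro ⟨n, hn⟩
      exact ⟨n, by rw [hC' n]; exact hn⟩

theorem comap_chi {E : Type u} (A : ℕ → Set E) (χ : E → ℕ → Bool)
    (hχ : ∀ x n, χ x n = true ↔ x ∈ A n) :
    MeasurableSpace.comap χ inferInstance = generateFrom (range A) := by
  apply le_antisymm
  · have hm : Measurable[generateFrom (range A)] χ := by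
      rw [@measurable_pi_iff]
      intro n
      apply @measurable_to_countable' _ _ _ _ (generateFrom (range A))
      intro v
      cases v with
      | true =>
        have : (fun x => χ x n) ⁻¹' {true} = A n := by
          ext x; simp [hχ]
        rw [this]
        exact measurableSet_generateFrom ⟨n, rfl⟩
      | false =>
        have : (fun x => χ x n) ⁻¹' {false} = (A n)ᶜ := by
          ext x
          simp only [mem_preimage, mem_singleton_iff, mem_compl_iff, ← hχ x n,
            Bool.not_eq_true]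
        rw [this]
        have h5 : MeasurableSet[generateFrom (range A)] (A n) :=
          measurableSet_generateFrom ⟨n, rfl⟩
        exact @MeasurableSet.compl _ _ (generateFrom (range A)) h5
    exact hm.comap_le
  · apply generateFrom_le
    rintro _ ⟨n, rfl⟩
    refine ⟨{z | z n = true}, ?_, ?_⟩
    · show MeasurableSet ((fun z : ℕ → Bool => z n) ⁻¹' {true})
      exact measurable_pi_apply n (measurableSet_singleton true)
    · ext x
      exact hχ x n

/-- if the projections of the Borel sets are Borel, all projective sets are Borel -/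
theorem proj_sub {E : Type u} (A : ℕ → Set E) (χ : E → ℕ → Bool)
    (hχ : ∀ x n, χ x n = true ↔ x ∈ A n)
    (hb : ∀ R : Set ((ℕ → Bool) × (ℕ → Bool)), MeasurableSet R →
      ∃ D : Set (ℕ → Bool), MeasurableSet D ∧ ∀ s, (∃ t, (χ s, χ t) ∈ R) ↔ χ s ∈ D) (k : ℕ) :
    PC A k ⊆ Bo A := by
  have hcomap := comap_chi A χ hχ
  have hBo : ∀ P, P ∈ Bo A ↔ ∃ C, MeasurableSet C ∧ P = χ ⁻¹' C := by
    intro P
    show MeasurableSet[generateFrom (range A)] P ↔ _
    rw [← hcomap]
    constructor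
    · rintro ⟨C, hC, rfl⟩
      exact ⟨C, hC, rfl⟩
    · rintro ⟨C, hC, rfl⟩
      exact ⟨C, hC, rfl⟩
  have key : ∀ G : Set (Set (E × E)), (∀ R ∈ G, ∃ P ∈ Bo A, ∃ Q ∈ Bo A, R = P ×ˢ Q) →
      ProjOf G ⊆ Bo A := by
    rintro G hG S ⟨R, hR, rfl⟩
    have h1 : generateFrom G ≤
        MeasurableSpace.comap (fun p : E × E => (χ p.1, χ p.2)) inferInstance := by
      apply generateFrom_le
      intro R hR
      obtain ⟨P, hP, Q, hQ, rfl⟩ := hG R hR
      obtain ⟨C, hC, rfl⟩ := (hBo P).1 hP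
      obtain ⟨C', hC', rfl⟩ := (hBo Q).1 hQ
      exact ⟨C ×ˢ C', hC.prod hC', rfl⟩
    obtain ⟨R', hR', rfl⟩ := h1 _ hR
    obtain ⟨D, hD, hD'⟩ := hb R' hR'
    rw [hBo]
    refine ⟨D, hD, ?_⟩
    ext s
    rw [mem_preimage, ← hD' s]
    constructor
    · rintro ⟨⟨a, t⟩, h, rfl⟩
      exact ⟨t, h⟩
    · rintro ⟨t, h⟩
      exact ⟨(s, t), h, rfl⟩
  induction k with
  | zero => exact fun S hS => hS
  | succ k ih =>
    cases k with
    | zero =>
      apply union_subset (fun S hS => hS)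
      apply key
      rintro R ⟨m, n, rfl⟩
      exact ⟨A m, measurableSet_generateFrom ⟨m, rfl⟩, A n, measurableSet_generateFrom ⟨n, rfl⟩, rfl⟩
    | succ k =>
      apply union_subset ih
      apply key
      rintro R ⟨P, hP, Q, hQ, rfl⟩
      exact ⟨P, ih hP, Q, ih hQ, rfl⟩

theorem exists_trees : ∃ T : K1 → Tr, (∀ β, Norm (T β) ∧ 2 ≤ rk (T β)) ∧
    ∀ α : Ordinal.{0}, α < Ordinal.omega 1 → ∀ ξ : K1, ∃ β, ξ < β ∧ α < rk (T β) := by
  have hlim : ∀ a : Ordinal.{0}, a < (ℵ₁ : Cardinal.{0}).ord → a + 1 < (ℵ₁ : Cardinal.{0}).ord := by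
    intro a ha
    exact (Cardinal.isSuccLimit_ord (aleph0_le_aleph 1)).add_one_lt ha
  have hr : ∀ β : K1, (Ordinal.ToType.toOrd β).1 + 1 + 1 < Ordinal.omega 1 := by
    intro β
    rw [← Cardinal.ord_aleph]
    exact hlim _ (hlim _ (Ordinal.ToType.toOrd β).2)
  choose T hT using fun β : K1 => exists_tree _ (hr β)
  refine ⟨T, fun β => ⟨(hT β).1, ?_⟩, ?_⟩
  · rw [(hT β).2, add_assoc, one_add_one_eq_two]
    exact le_add_self
  · intro α hα ξ
    rw [← Cardinal.ord_aleph] at hα
    set a : K1 := Ordinal.ToType.mk ⟨α, hα⟩ with ha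
    obtain ⟨β, hβ⟩ := exists_gt_K1 ((countable_singleton ξ).union (countable_singleton a))
    refine ⟨β, hβ ξ (Or.inl rfl), ?_⟩
    rw [(hT β).2]
    have h1 : a < β := hβ a (Or.inr rfl)
    have h2 : Ordinal.ToType.toOrd a < Ordinal.ToType.toOrd β :=
      (Ordinal.ToType.mk.symm).lt_iff_lt.mpr h1
    have h3 : Ordinal.ToType.toOrd a = ⟨α, hα⟩ := by
      rw [ha]
      exact Ordinal.ToType.mk.symm_apply_apply _
    rw [h3] at h2
    have h4 : α < (Ordinal.ToType.toOrd β).1 := h2
    exact h4.trans ((Order.lt_add_one_iff.mpr le_rfl).trans (Order.lt_add_one_iff.mpr le_rfl))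

theorem q1_of_continuum (hc : (𝔠 : Cardinal.{0}) = ℵ₁) (E : Type u) (hE : #E = 𝔠) : Q1 E := by
  classical
  obtain ⟨T, hT, hT2⟩ := exists_trees
  choose k hk1 hk2 using fun β => exists_leaf_enum (T β)
  have hne : Nonempty K1 := by
    rw [← Cardinal.mk_ne_zero_iff, mk_K1]
    exact (aleph_pos 1).ne'
  have hbot : ∃ bot : K1, ∀ a, bot ≤ a := by
    refine ⟨(wellFounded_lt : WellFounded (fun a b : K1 => a < b)).min univ univ_nonempty, ?_⟩
    intro a
    exact not_lt.mp ((wellFounded_lt : WellFounded (fun a b : K1 => a < b)).not_lt_min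
      univ (mem_univ a))
  obtain ⟨bot, hbot⟩ := hbot
  obtain ⟨σ, -, hσk, hG, hV, hH⟩ := exists_seq (K := K1) (fun a => countable_Iio_K1 a)
    (by rw [mk_K1, hc]) bot hbot k
  have hIic : ∀ a : K1, (Iic a).Countable := by
    intro a
    have h1 : Iic a ⊆ Iio a ∪ {a} := by
      intro x hx
      rcases (mem_Iic.mp hx).lt_or_eq with h | h
      · exact Or.inl h
      · exact Or.inr h
    exact ((countable_Iio_K1 a).union (countable_singleton a)).mono h1
  have hgt : ∀ a : K1, ∃ b, a < b := by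
    intro a
    obtain ⟨b, hb⟩ := exists_gt_K1 (countable_singleton a)
    exact ⟨b, hb a rfl⟩
  -- the surjection
  have hEK : ∃ e : E → K1, Function.Surjective e := by
    have h1 : Cardinal.lift.{u} #K1 ≤ Cardinal.lift.{0} #E := by
      rw [mk_K1, hE, lift_continuum, ← hc, lift_continuum]
    have h2 : Nonempty (K1 ↪ E) := by
      rw [← Cardinal.lift_mk_le']
      exact h1
    obtain ⟨j⟩ := h2
    exact ⟨Function.invFun j, Function.invFun_surjective j.injective⟩
  obtain ⟨e, he⟩ := hEK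
  set χ : E → ℕ → Bool := fun s => σ.x (e s) with hχ
  refine ⟨fun n => {s | χ s n = true}, ?_, ?_⟩
  · intro α hα
    obtain ⟨D, hD, hD'⟩ := long σ hG hH T (fun β => (hT β).1)
      (fun β n => by rw [hσk]; exact hk1 β n) (fun β s hs => by rw [hσk]; exact hk2 β s hs)
      α (hT2 α hα)
    refine ⟨χ ⁻¹' D, ?_, ?_⟩
    · show MeasurableSet[generateFrom (range fun n => {s | χ s n = true})] _
      rw [← comap_chi (fun n => {s | χ s n = true}) χ (fun _ _ => Iff.rfl)]
      exact ⟨D, hD, rfl⟩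
    · intro hS
      obtain ⟨C, hC, hC'⟩ := sig_pull (fun n => {s | χ s n = true}) χ (fun _ _ => Iff.rfl) hS
      obtain ⟨ν, hν⟩ := hD' C hC
      obtain ⟨s, rfl⟩ := he ν
      apply hν
      have h1 : s ∈ χ ⁻¹' D ↔ s ∈ χ ⁻¹' C := by rw [hC']
      exact h1
  · intro k
    apply proj_sub (fun n => {s | χ s n = true}) χ (fun _ _ => Iff.rfl)
    intro R hR
    obtain ⟨D, hD, hD'⟩ := proj_borel σ hIic hgt hG hV hH (fun β => by
      rw [hσk]
      exact star_of_leaves (T β) (hT β).1 (hT β).2 _ (hk2 β)) R hR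
    refine ⟨D, hD, fun s => ?_⟩
    rw [← hD' (e s)]
    constructor
    · rintro ⟨t, h⟩
      exact ⟨e t, h⟩
    · rintro ⟨μ, h⟩
      obtain ⟨t, rfl⟩ := he μ
      exact ⟨t, h⟩

end Pool.Agent.H507_U
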